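import Mathlib

/-!
# The family of surfaces (MP_41ba4a_ag)

Parameters `b = (s, e, t, u, μ) ∈ ℂ⁵`.  Three elliptic curves, in weighted homogeneous
coordinates `[W : X : Y]` of weights `(1,1,2)`:
`E₀ : Y² = (X - sW)(X - (s-e)W)(X - W)(X + W)`,
`E₁ : Y² = (X - tW)(X - (t-u)W)(X - W)(X + W)`,
`E₂ : Y² = (X - W)(X - iW)(X + W)(X + iW) = X⁴ - W⁴`,
`D_b = {x₀ x₂ = μ x₁} ⊂ E₀ × E₁ × E₂` (`x_i = X_i / W_i`), `S_b = D_b / (-1)`.
-/

namespace TripleBurger

/-- The parameter space `ℂ⁵`. -/
abbrev Param : Type := Fin 5 → ℂ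

/-- The four branch points of `E_i`. -/
def root (b : Param) (i : Fin 3) : Fin 4 → ℂ :=
  match i with
  | 0 => ![b 0, b 0 - b 1, 1, -1]
  | 1 => ![b 2, b 2 - b 3, 1, -1]
  | 2 => ![1, Complex.I, -1, -Complex.I]

/-- The quartic form of `E_i`. -/
def quartic (b : Param) (i : Fin 3) (W X : ℂ) : ℂ :=
  ∏ j : Fin 4, (X - root b i j * W)

/-- The base `B`, a Zariski open subset of `ℂ⁵`: the branch points of each `E_i` are distinct and
non-zero, `μ ≠ 0`, and no point of `x₀ x₂ = μ x₁` lies over three branch points. -/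
def BaseSet : Set Param :=
  {b | (∀ i, Function.Injective (root b i)) ∧ (∀ i j, root b i j ≠ 0) ∧ b 4 ≠ 0 ∧
    ∀ j k l, root b 0 j * root b 2 l ≠ b 4 * root b 1 k}

/-- Points of `B × (ℂ³)³` in homogeneous coordinates. -/
abbrev Ambient : Type := Param × (Fin 3 → ℂ) × (Fin 3 → ℂ) × (Fin 3 → ℂ)

/-- The equations and inequalities defining the points `(b, W, X, Y)` of the family `D`. -/
abbrev IsPt (p : Ambient) : Prop :=
  p.1 ∈ BaseSet ∧ (∀ i, p.2.1 i ≠ 0 ∨ p.2.2.1 i ≠ 0) ∧
    (∀ i, p.2.2.2 i ^ 2 = quartic p.1 i (p.2.1 i) (p.2.2.1 i)) ∧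
    p.2.2.1 0 * p.2.2.1 2 * p.2.1 1 = p.1 4 * p.2.2.1 1 * p.2.1 0 * p.2.1 2

/-- Homogeneous coordinates of the points of the family `D`. -/
def Cone : Type := {p : Ambient // IsPt p}

noncomputable instance : TopologicalSpace Cone := instTopologicalSpaceSubtype

namespace Cone
variable (p : Cone)
/-- the parameter -/
def b : Param := p.1.1
/-- the coordinates `W_i` -/
def W : Fin 3 → ℂ := p.1.2.1
/-- the coordinates `X_i` -/
def X : Fin 3 → ℂ := p.1.2.2.1
/-- the coordinates `Y_i` -/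
def Y : Fin 3 → ℂ := p.1.2.2.2
end Cone

/-- Two homogeneous coordinate vectors represent the same point of `S`: weighted rescaling in each
of the three factors, and the involution `-1 : Y_i ↦ -Y_i` (all `i`). -/
def SameRel (p q : Cone) : Prop :=
  p.b = q.b ∧ ∃ (c : Fin 3 → ℂ) (σ : ℂ), (∀ i, c i ≠ 0) ∧ (σ = 1 ∨ σ = -1) ∧
    ∀ i, q.W i = c i * p.W i ∧ q.X i = c i * p.X i ∧ q.Y i = σ * (c i ^ 2 * p.Y i)

/-- the equivalence relation -/
instance sameSetoid : Setoid Cone where
  r := SameRel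
  iseqv :=
    { refl := fun p => ⟨rfl, fun _ => 1, 1, fun _ => one_ne_zero, Or.inl rfl, fun i => by simp⟩
      symm := by
        rintro p q ⟨hb, c, σ, hc, hσ, h⟩
        refine ⟨hb.symm, fun i => (c i)⁻¹, σ, fun i => inv_ne_zero (hc i), hσ, fun i => ?_⟩
        obtain ⟨h1, h2, h3⟩ := h i
        have hci := hc i
        have hσ2 : σ * σ = 1 := by rcases hσ with rfl | rfl <;> norm_num
        refine ⟨?_, ?_, ?_⟩
        · rw [h1]; field_simp
        · rw [h2]; field_simp
        · rw [h3]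
          have h4 : (c i)⁻¹ ^ 2 * (c i) ^ 2 = 1 := by
            rw [← mul_pow, inv_mul_cancel₀ hci, one_pow]
          calc p.Y i = (σ * σ) * ((c i)⁻¹ ^ 2 * (c i) ^ 2) * p.Y i := by rw [hσ2, h4]; ring
            _ = σ * ((c i)⁻¹ ^ 2 * (σ * (c i ^ 2 * p.Y i))) := by ring
      trans := by
        rintro p q r ⟨hb, c, σ, hc, hσ, h⟩ ⟨hb', c', σ', hc', hσ', h'⟩
        refine ⟨hb.trans hb', fun i => c' i * c i, σ' * σ,
          fun i => mul_ne_zero (hc' i) (hc i), ?_, fun i => ?_⟩
        · rcases hσ with rfl | rfl <;> rcases hσ' with rfl | rfl <;> norm_num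
        · obtain ⟨h1, h2, h3⟩ := h i
          obtain ⟨h1', h2', h3'⟩ := h' i
          refine ⟨?_, ?_, ?_⟩
          · rw [h1', h1]; ring
          · rw [h2', h2]; ring
          · rw [h3', h3]; ring }

/-- The total space `S` of the family (with its classical topology). -/
def Total : Type := Quotient sameSetoid

noncomputable instance : TopologicalSpace Total := instTopologicalSpaceQuotient

/-- The class of a homogeneous coordinate vector. -/
def Total.mk (p : Cone) : Total := Quotient.mk _ p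

/-- The projection `π : S → B ⊂ ℂ⁵`. -/
def Total.proj : Total → Param := Quotient.lift (fun p : Cone => p.b) (fun _ _ h => h.1)

/-- The base `B` of the family. -/
abbrev Base : Type := {b : Param // b ∈ BaseSet}

theorem proj_mem_base (P : Total) : P.proj ∈ BaseSet :=
  Quotient.inductionOn P fun p => p.2.1

/-- The projection `π : S → B`. -/
def projB (P : Total) : Base := ⟨P.proj, proj_mem_base P⟩

/-- Zariski open subsets of the base. -/
def IsZariskiOpen (Z : Set Base) : Prop :=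
  ∃ J : Set (MvPolynomial (Fin 5) ℂ), Z = {b | ∃ F ∈ J, MvPolynomial.eval b.1 F ≠ 0}

end TripleBurger
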