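import Pool.Agent.helper10.K3B.Sheafy

/-!
# What a multiplicative decomposition isomorphism gives on the cohomology of open sets

A multiplicative decomposition gives linear sections of the edge maps.
-/

namespace TripleBurger

open CategoryTheory TopologicalSpace Opposite

variable {S B : Type} [TopologicalSpace S] [TopologicalSpace B]

namespace MultDecomp
variable {p : S → B} {Z : Opens B} (D : MultDecomp p Z)

include D in
theorem exists_sec (V : Opens B) (hV : V ≤ Z) (n : ℕ) :
    ∃ s : RSec p n V → HV p V n, IsLinearMap ℚ s ∧ (∀ a, s a ∈ D.W V n n) ∧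
      ∀ a, edge p n V (s a) = a := by
  obtain ⟨M, hM⟩ := D.subspace V n n
  choose s hs hu using D.edge_bij V hV n
  refine ⟨s, ⟨fun a b => ?_, fun r a => ?_⟩, fun a => (hs a).1, fun a => (hs a).2⟩
  · refine (hu (a + b) (s a + s b) ⟨?_, ?_⟩).symm
    · have h1 := (hs a).1
      have h2 := (hs b).1
      rw [hM] at h1 h2 ⊢
      exact M.add_mem h1 h2
    · rw [edge_eq, map_add, ← edge_eq, ← edge_eq, (hs a).2, (hs b).2]
  · refine (hu (r • a) (r • s a) ⟨?_, ?_⟩).symm
    · have h1 := (hs a).1
      rw [hM] at h1 ⊢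
      exact M.smul_mem r h1
    · rw [edge_eq, map_smul, ← edge_eq, (hs a).2]

include D in
/-- A multiplicative decomposition gives linear sections of the edge maps in degrees `2` and `4`
such that products of elements of the image of the first are in the image of the second. -/
theorem hasSections (V : Opens B) (hV : V ≤ Z) : HasSections p V := by
  obtain ⟨s2, l2, m2, e2⟩ := D.exists_sec V hV 2
  obtain ⟨s4, l4, m4, e4⟩ := D.exists_sec V hV 4
  refine ⟨s2, s4, l2, l4, e2, e4, fun a b => ⟨edge p 4 V (cupH 2 2 (s2 a) (s2 b)), ?_⟩⟩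
  rw [isCup_iff]
  have h : cupH 2 2 (s2 a) (s2 b) ∈ D.W V 4 4 :=
    D.cup V hV 2 2 2 2 _ (m2 a) _ (m2 b) _ ((isCup_iff _ _ _).2 rfl)
  exact (D.edge_bij V hV 4 (edge p 4 V (cupH 2 2 (s2 a) (s2 b)))).unique ⟨h, rfl⟩
    ⟨m4 _, e4 _⟩

end MultDecomp

end TripleBurger
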