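import Pool.Agent.helper10.K3B.Key
import Pool.Agent.helper10.K3B.Decomp
import Pool.Agent.helper10.K3S.Proper

/-!
# K3B: the topological final theorem

On no non-empty Zariski open subset of the base does the family `projB : Total → Base` have a
multiplicative decomposition.
-/

namespace TripleBurger

open Complex K3B Topology TopologicalSpace CategoryTheory Opposite

/-- the open set of the base over which the two classes are considered -/
def UB (F : MvPolynomial (Fin 5) ℂ) : Opens Base :=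
  ⟨{b | b.1 ∈ UU F}, (UU_isOpen F).preimage continuous_subtype_val⟩

theorem mem_UB {F : MvPolynomial (Fin 5) ℂ} {b : Base} : b ∈ UB F ↔ b.1 ∈ UU F := Iff.rfl

/-- the part of the total space over `UB F` -/
abbrev XU (F : MvPolynomial (Fin 5) ℂ) : Type := ↥(projB ⁻¹' (UB F : Set Base))

/-! ### low degree coboundaries in curried form -/

section curry
variable {X : Type}

theorem coboundary_one (c : Cochain X 1) (v : Fin 3 → X) :
    coboundary 1 c v = d1 (fun p q => c ![p, q]) (v 0) (v 1) (v 2) := by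
  have e0 : (fun j => v ((0 : Fin 3).succAbove j)) = ![v 1, v 2] := by
    funext j; fin_cases j <;> rfl
  have e1 : (fun j => v ((1 : Fin 3).succAbove j)) = ![v 0, v 2] := by
    funext j; fin_cases j <;> rfl
  have e2 : (fun j => v ((2 : Fin 3).succAbove j)) = ![v 0, v 1] := by
    funext j; fin_cases j <;> rfl
  show ∑ i : Fin 3, (-1) ^ (i : ℕ) * c (fun j => v (i.succAbove j)) = _
  rw [Fin.sum_univ_three, e0, e1, e2]
  unfold d1
  simp
  ring

theorem coboundary_two (c : Cochain X 2) (v : Fin 4 → X) :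
    coboundary 2 c v = d2 (fun p q r => c ![p, q, r]) (v 0) (v 1) (v 2) (v 3) := by
  have e0 : (fun j => v ((0 : Fin 4).succAbove j)) = ![v 1, v 2, v 3] := by
    funext j; fin_cases j <;> rfl
  have e1 : (fun j => v ((1 : Fin 4).succAbove j)) = ![v 0, v 2, v 3] := by
    funext j; fin_cases j <;> rfl
  have e2 : (fun j => v ((2 : Fin 4).succAbove j)) = ![v 0, v 1, v 3] := by
    funext j; fin_cases j <;> rfl
  have e3 : (fun j => v ((3 : Fin 4).succAbove j)) = ![v 0, v 1, v 2] := by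
    funext j; fin_cases j <;> rfl
  show ∑ i : Fin 4, (-1) ^ (i : ℕ) * c (fun j => v (i.succAbove j)) = _
  rw [Fin.sum_univ_four, e0, e1, e2, e3]
  unfold d2
  simp
  ring

theorem coboundary_three (c : Cochain X 3) (v : Fin 5 → X) :
    coboundary 3 c v
      = d3 (fun p q r s => c ![p, q, r, s]) (v 0) (v 1) (v 2) (v 3) (v 4) := by
  have e0 : (fun j => v ((0 : Fin 5).succAbove j)) = ![v 1, v 2, v 3, v 4] := by
    funext j; fin_cases j <;> rfl
  have e1 : (fun j => v ((1 : Fin 5).succAbove j)) = ![v 0, v 2, v 3, v 4] := by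
    funext j; fin_cases j <;> rfl
  have e2 : (fun j => v ((2 : Fin 5).succAbove j)) = ![v 0, v 1, v 3, v 4] := by
    funext j; fin_cases j <;> rfl
  have e3 : (fun j => v ((3 : Fin 5).succAbove j)) = ![v 0, v 1, v 2, v 4] := by
    funext j; fin_cases j <;> rfl
  have e4 : (fun j => v ((4 : Fin 5).succAbove j)) = ![v 0, v 1, v 2, v 3] := by
    funext j; fin_cases j <;> rfl
  show ∑ i : Fin 5, (-1) ^ (i : ℕ) * c (fun j => v (i.succAbove j)) = _
  rw [Fin.sum_univ_five, e0, e1, e2, e3, e4]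
  unfold d3
  simp
  ring

theorem cup_two (c d : Cochain X 2) (v : Fin 5 → X) :
    cup c d v = cup22 (fun p q r => c ![p, q, r]) (fun p q r => d ![p, q, r])
      (v 0) (v 1) (v 2) (v 3) (v 4) := by
  have e0 : (fun i : Fin 3 => v ⟨i, by omega⟩) = ![v 0, v 1, v 2] := by
    funext j; fin_cases j <;> rfl
  have e1 : (fun i : Fin 3 => v ⟨2 + i, by omega⟩) = ![v 2, v 3, v 4] := by
    funext j; fin_cases j <;> rfl
  show c (fun i : Fin 3 => v ⟨i, by omega⟩) * d (fun i : Fin 3 => v ⟨2 + i, by omega⟩) = _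
  rw [e0, e1]
  rfl

end curry

/-! ### the two classes -/

section classes
variable (F : MvPolynomial (Fin 5) ℂ)

/-- the cochain `x` on the part over `UB F` -/
noncomputable def cx : Cochain (XU F) 2 := fun v => xc (1 / 3) (v 0).1 (v 1).1 (v 2).1
/-- the cochain `y` on the part over `UB F` -/
noncomputable def cy : Cochain (XU F) 2 := fun v => yc (v 0).1 (v 1).1 (v 2).1

theorem over_good (P : XU F) : P.1 ∈ Over Good := (show P.1.proj ∈ UU F from P.2).2.1

theorem cx_mem : cx F ∈ cocycles (XU F) 2 := by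
  rw [mem_cocycles]
  intro P
  have h := wcoc_cocycle (Over Good) E02 (I0 (1 / 3)) I2
    (locCond_x (lam := 1 / 3) (by norm_num) (by norm_num)) P.1 (over_good F P)
  obtain ⟨V, hV, hPV, h1⟩ := h
  refine ⟨Subtype.val ⁻¹' V, hV.preimage continuous_subtype_val, hPV, fun v hv => ?_⟩
  rw [coboundary_two]
  exact h1 _ (hv 0) _ (hv 1) _ (hv 2) _ (hv 3)

theorem cy_mem : cy F ∈ cocycles (XU F) 2 := by
  rw [mem_cocycles]
  intro P
  have h := wcoc_cocycle (Over Good) E12 I1 J2 locCond_y P.1 (over_good F P)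
  obtain ⟨V, hV, hPV, h1⟩ := h
  refine ⟨Subtype.val ⁻¹' V, hV.preimage continuous_subtype_val, hPV, fun v hv => ?_⟩
  rw [coboundary_two]
  exact h1 _ (hv 0) _ (hv 1) _ (hv 2) _ (hv 3)

/-- the cocycle `x` -/
noncomputable def zx : Cocyc (XU F) 2 := ⟨cx F, cx_mem F⟩
/-- the cocycle `y` -/
noncomputable def zy : Cocyc (XU F) 2 := ⟨cy F, cy_mem F⟩

/-- `x ∪ y` is zero locally over the base -/
theorem xy_res (b : Base) (hb : b ∈ UB F) : ∃ (V : Opens Base) (hV : V ≤ UB F), b ∈ V ∧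
    resH projB 4 hV (cupH 2 2 (H.mk (zx F)) (H.mk (zy F))) = 0 := by
  obtain ⟨V, hV, hbV, hVG, w, hw⟩ := xy_loc b.1 hb.2.1
  let V' : Opens Base := ⟨{b | b.1 ∈ V}, hV.preimage continuous_subtype_val⟩ ⊓ UB F
  have hV' : V' ≤ UB F := inf_le_right
  refine ⟨V', hV', ⟨hbV, hb⟩, ?_⟩
  refine (H.mk_eq_zero _).2 ?_
  refine mem_coboundaries_succ.2 ⟨fun v => w (v 0).1 (v 1).1 (v 2).1 (v 3).1, ?_⟩
  intro P
  obtain ⟨O, hO, hPO, h1⟩ := hw P.1 P.2.1
  refine ⟨Subtype.val ⁻¹' O, hO.preimage continuous_subtype_val, hPO, fun v hv => ?_⟩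
  have h2 := h1 _ (hv 0) _ (hv 1) _ (hv 2) _ (hv 3) _ (hv 4)
  rw [Cochain.sub_apply, coboundary_three]
  have h3 : (pullZ (Set.inclusion (Set.preimage_mono (f := projB) hV'))
      (continuous_inclusion _) 4 (cupZ 2 2 (zx F) (zy F))).1 v
      = cup22 (xc (1 / 3)) yc (v 0).1 (v 1).1 (v 2).1 (v 3).1 (v 4).1 := by
    show cup (cx F) (cy F) (fun i => Set.inclusion (Set.preimage_mono (f := projB) hV') (v i))
      = _
    rw [cup_two]
    rfl
  exact (congrArg₂ (· - ·) h3 rfl).trans h2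

end classes

/-! ### from cohomology classes to curried cochains -/

section curried
variable {F : MvPolynomial (Fin 5) ℂ}

/-- a 2-cochain on the part over `UB F`, in curried form on `SU F` -/
def cur (c : Cochain (XU F) 2) (p q r : SU F) : ℚ := c ![p, q, r]

open Classical in
/-- a class with trivial image in `R²` is locally over the base a coboundary -/
theorem locVan_of_edge (k : Cocyc (XU F) 2) (h : edge projB 2 (UB F) (H.mk k) = 0) :
    LocVan (cur k.1) := by
  rw [edge_eq_zero_iff] at h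
  intro b
  obtain ⟨V, hV, hbV, h0⟩ := h ⟨b.1, b.2.1⟩ b.2
  obtain ⟨u, hu⟩ := mem_coboundaries_succ.1 ((H.mk_eq_zero _).1 h0)
  refine ⟨{b' | ∃ hb' : b'.1 ∈ BaseSet, (⟨b'.1, hb'⟩ : Base) ∈ V}, ?_,
    fun p q => if h : projB p.1 ∈ V ∧ projB q.1 ∈ V then u ![⟨p.1, h.1⟩, ⟨q.1, h.2⟩] else 0, ?_⟩
  · have hc : Continuous (fun b' : UU F => (⟨b'.1, b'.2.1⟩ : Base)) :=
      continuous_subtype_val.subtype_mk _
    have h1 : (fun b' : UU F => (⟨b'.1, b'.2.1⟩ : Base)) ⁻¹' (V : Set Base) ∈ 𝓝 b :=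
      (V.isOpen.preimage hc).mem_nhds hbV
    exact Filter.mem_of_superset h1 fun b' hb' => ⟨b'.2.1, hb'⟩
  · rintro P ⟨hb', hPV⟩
    have hPV' : projB P.1 ∈ V := hPV
    obtain ⟨O, hO, hPO, h1⟩ := hu ⟨P.1, hPV'⟩
    rw [isOpen_induced_iff] at hO
    obtain ⟨O', hO', rfl⟩ := hO
    refine ⟨Subtype.val ⁻¹' (O' ∩ projB ⁻¹' (V : Set Base)),
      ((hO'.inter (V.isOpen.preimage projB_continuous)).preimage
        continuous_subtype_val).mem_nhds ⟨hPO, hPV'⟩, ?_⟩
    intro p hp q hq r hr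
    have h2 := h1 ![⟨p.1, hp.2⟩, ⟨q.1, hq.2⟩, ⟨r.1, hr.2⟩] (by
      intro i
      fin_cases i
      · exact hp.1
      · exact hq.1
      · exact hr.1)
    rw [Cochain.sub_apply, coboundary_one, sub_eq_zero] at h2
    have hp2 : projB p.1 ∈ V := hp.2
    have hq2 : projB q.1 ∈ V := hq.2
    have hr2 : projB r.1 ∈ V := hr.2
    unfold d1 at h2 ⊢
    beta_reduce
    rw [dif_pos ⟨hq2, hr2⟩, dif_pos ⟨hp2, hr2⟩, dif_pos ⟨hp2, hq2⟩]
    refine Eq.trans ?_ h2
    have e : (![p, q, r] : Fin 3 → XU F) = fun i : Fin 3 =>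
        Set.inclusion (Set.preimage_mono (f := projB) hV)
          ((![⟨p.1, hp.2⟩, ⟨q.1, hq.2⟩, ⟨r.1, hr.2⟩] :
            Fin 3 → ↥(projB ⁻¹' (V : Set Base))) i) := by
      funext i
      fin_cases i <;> rfl
    exact congrArg k.1 e

theorem cur_cocycle (k : Cocyc (XU F) 2) : K3B.LZ3 (d2 (cur k.1)) := by
  intro P
  obtain ⟨V, hV, hPV, h1⟩ := (mem_cocycles k.1).1 k.2 P
  refine ⟨V, hV.mem_nhds hPV, fun p hp q hq r hr s hs => ?_⟩
  have h2 := h1 ![p, q, r, s] (by
    intro i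
    fin_cases i
    · exact hp
    · exact hq
    · exact hr
    · exact hs)
  rw [coboundary_two] at h2
  exact h2

end curried

/-! ### the final theorems -/

theorem no_sections_UB (F : MvPolynomial (Fin 5) ℂ) (hF : F ≠ 0) :
    ¬ HasSections projB (UB F) := by
  rintro ⟨s2, s4, -, l4, h2, h4, hmul'⟩
  have hmul : ∀ a b, ∃ c, cupH 2 2 (s2 a) (s2 b) = s4 c := fun a b =>
    (hmul' a b).imp fun c hc => (isCup_iff _ _ _).1 hc
  obtain ⟨ρ, hρ⟩ := exists_adm F hF
  obtain ⟨a, ha⟩ : ∃ a, a = s2 (edge projB 2 (UB F) (H.mk (zx F))) := ⟨_, rfl⟩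
  obtain ⟨b, hb⟩ : ∃ b, b = s2 (edge projB 2 (UB F) (H.mk (zy F))) := ⟨_, rfl⟩
  obtain ⟨c, hc⟩ := hmul (edge projB 2 (UB F) (H.mk (zx F))) (edge projB 2 (UB F) (H.mk (zy F)))
  rw [← ha, ← hb] at hc
  have ea : edge projB 2 (UB F) (a - H.mk (zx F)) = 0 := by
    rw [edge_sub, ha, h2, sub_self]
  have eb : edge projB 2 (UB F) (b - H.mk (zy F)) = 0 := by
    rw [edge_sub, hb, h2, sub_self]
  -- the product is zero locally over the base
  have hprod : edge projB 4 (UB F) (cupH 2 2 a b) = 0 := by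
    rw [edge_eq_zero_iff]
    intro β hβ
    obtain ⟨V1, hV1, hβ1, h1⟩ := (edge_eq_zero_iff projB 2 (UB F) _).1 ea β hβ
    obtain ⟨V2, hV2, hβ2, h2'⟩ := (edge_eq_zero_iff projB 2 (UB F) _).1 eb β hβ
    obtain ⟨V3, hV3, hβ3, h3⟩ := xy_res F β hβ
    refine ⟨V1 ⊓ V2 ⊓ V3, (inf_le_right.trans hV3), ⟨⟨hβ1, hβ2⟩, hβ3⟩, ?_⟩
    have k1 : (V1 ⊓ V2 ⊓ V3) ≤ V1 := inf_le_left.trans inf_le_left
    have k2 : (V1 ⊓ V2 ⊓ V3) ≤ V2 := inf_le_left.trans inf_le_right
    have k3 : (V1 ⊓ V2 ⊓ V3) ≤ V3 := inf_le_right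
    have kU : (V1 ⊓ V2 ⊓ V3) ≤ UB F := inf_le_right.trans hV3
    have r1 : resH projB 2 kU a = resH projB 2 kU (H.mk (zx F)) := by
      rw [← sub_eq_zero, ← map_sub, resH_comp projB 2 hV1 k1, h1, map_zero]
    have r2 : resH projB 2 kU b = resH projB 2 kU (H.mk (zy F)) := by
      rw [← sub_eq_zero, ← map_sub, resH_comp projB 2 hV2 k2, h2', map_zero]
    have r3 : resH projB 4 kU (cupH 2 2 a b)
        = cupH 2 2 (resH projB 2 kU a) (resH projB 2 kU b) := H.map_cup _ _ _ _
    have r4 : resH projB 4 kU (cupH 2 2 (H.mk (zx F)) (H.mk (zy F)))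
        = cupH 2 2 (resH projB 2 kU (H.mk (zx F))) (resH projB 2 kU (H.mk (zy F))) :=
      H.map_cup _ _ _ _
    rw [r3, r1, r2, ← r4, resH_comp projB 4 hV3 k3, h3, map_zero]
  have hc0 : c = 0 := by
    rw [← h4 c, ← hc, hprod]
  rw [hc0, show s4 0 = 0 from (l4.mk' s4).map_zero] at hc
  -- pass to cochains
  clear hprod
  induction a using H.ind with
  | h za =>
    induction b using H.ind with
    | h zb =>
      obtain ⟨w, hw⟩ := mem_coboundaries_succ.1 ((H.mk_eq_zero _).1 hc)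
      have ea' : edge projB 2 (UB F) (H.mk (za - zx F)) = 0 := ea
      have eb' : edge projB 2 (UB F) (H.mk (zb - zy F)) = 0 := eb
      have hk := locVan_of_edge _ ea'
      have hk' := locVan_of_edge _ eb'
      refine key_nonzero hρ (cur (za - zx F).1) (cur (zb - zy F).1) (cur_cocycle (zx F))
        (cur_cocycle (zy F)) (cur_cocycle _) (cur_cocycle _) hk hk'
        (fun p q r s => w ![p, q, r, s]) ?_
      intro P
      obtain ⟨O, hO, hPO, h1⟩ := hw P
      refine ⟨O, hO.mem_nhds hPO, fun p hp q hq r hr s hs t ht => ?_⟩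
      have h5 := h1 ![p, q, r, s, t] (by
        intro i
        fin_cases i
        · exact hp
        · exact hq
        · exact hr
        · exact hs
        · exact ht)
      rw [Cochain.sub_apply, coboundary_three] at h5
      have h6 : (cupZ 2 2 za zb).1 ![p, q, r, s, t]
          = cup22 (fun p q r => xU F p q r + cur (za - zx F).1 p q r)
            (fun p q r => yU F p q r + cur (zb - zy F).1 p q r) p q r s t := by
        show cup za.1 zb.1 _ = _
        rw [cup_two]
        have g1 : ∀ p q r : SU F, xU F p q r + cur (za - zx F).1 p q r = za.1 ![p, q, r] := by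
          intro p q r
          show cx F ![p, q, r] + (za.1 ![p, q, r] - cx F ![p, q, r]) = _
          ring
        have g2 : ∀ p q r : SU F, yU F p q r + cur (zb - zy F).1 p q r = zb.1 ![p, q, r] := by
          intro p q r
          show cy F ![p, q, r] + (zb.1 ![p, q, r] - cy F ![p, q, r]) = _
          ring
        simp only [g1, g2]
        rfl
      exact (congrArg₂ (· - ·) h6 rfl).symm.trans h5

/-- **Theorem.** Every non-empty Zariski open subset `Z` of the base contains a non-empty open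
set `U` (classical topology) over which the edge maps in degrees `2` and `4` have no linear
sections compatible with products. -/
theorem no_sections (Z : Opens Base) (hZ : IsZariskiOpen (Z : Set Base))
    (hne : (Z : Set Base).Nonempty) :
    ∃ U : Opens Base, U ≤ Z ∧ (U : Set Base).Nonempty ∧ ¬ HasSections projB U := by
  obtain ⟨J, hJ⟩ := hZ
  obtain ⟨b, hb⟩ := hne
  rw [hJ] at hb
  obtain ⟨F, hFJ, hFb⟩ := hb
  have hF : F ≠ 0 := by
    rintro rfl
    exact hFb (map_zero _)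
  obtain ⟨ρ, hρ⟩ := exists_adm F hF
  refine ⟨UB F, ?_, ⟨⟨bT ρ 0 0, (bT_mem_UU hρ 0 0).1⟩, bT_mem_UU hρ 0 0⟩, no_sections_UB F hF⟩
  intro c hc
  have h1 : c ∈ (Z : Set Base) := by
    rw [hJ]
    exact ⟨F, hFJ, hc.2.2⟩
  exact h1

/-- **Theorem.** The family `projB : Total → Base` has no multiplicative decomposition over any
non-empty Zariski open subset of the base. -/
theorem no_multDecomp (Z : Opens Base) (hZ : IsZariskiOpen (Z : Set Base))
    (hne : (Z : Set Base).Nonempty) : IsEmpty (MultDecomp projB Z) := by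
  refine ⟨fun D => ?_⟩
  obtain ⟨U, hU, -, h⟩ := no_sections Z hZ hne
  exact h (D.hasSections U hU)

end TripleBurger
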