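import Pool.Agent.helper10.K3B.ASDef

/-!
# Alexander–Spanier cohomology with rational coefficients: basic lemmas
-/

namespace TripleBurger

open scoped BigOperators

section
variable {X : Type} [TopologicalSpace X] {n : ℕ}

theorem Cochain.sub_apply {X : Type} {n : ℕ} (c d : Cochain X n) (v : Fin (n + 1) → X) :
    (c - d) v = c v - d v := rfl

theorem LocZero.neg {c : Cochain X n} (hc : LocZero c) : LocZero (-c) := by
  have := hc.smul (-1)
  simpa using this

theorem LocZero.sub {c d : Cochain X n} (hc : LocZero c) (hd : LocZero d) :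
    LocZero (c - d) := by
  rw [sub_eq_add_neg]; exact hc.add hd.neg

theorem LocZero.coboundary {c : Cochain X n} (hc : LocZero c) :
    LocZero (coboundary n c) := by
  intro x
  obtain ⟨V, hV, hxV, h1⟩ := hc x
  refine ⟨V, hV, hxV, fun v hv => ?_⟩
  show ∑ i : Fin (n + 2), (-1) ^ (i : ℕ) * c (fun j => v (i.succAbove j)) = 0
  refine Finset.sum_eq_zero fun i _ => ?_
  rw [h1 _ (fun j => hv _), mul_zero]

theorem mem_coboundaries_succ {c : Cochain X (n + 1)} :
    c ∈ coboundaries X (n + 1) ↔ ∃ u : Cochain X n, LocZero (c - TripleBurger.coboundary n u) := by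
  constructor
  · intro h
    obtain ⟨y, hy, z, ⟨u, rfl⟩, rfl⟩ := Submodule.mem_sup.1 h
    exact ⟨u, by rw [add_sub_cancel_right]; exact hy⟩
  · rintro ⟨u, hu⟩
    have := Submodule.add_mem_sup (S := locZero X (n + 1))
      (T := LinearMap.range (TripleBurger.coboundary n)) hu ⟨u, rfl⟩
    rwa [sub_add_cancel] at this

end

/-! ### Leibniz rule through sequences `ℕ → X` -/

section leibniz

variable {X : Type}

/-- the face `δ_i : ℕ → ℕ` skipping `i` -/
def face (i j : ℕ) : ℕ := if j < i then j else j + 1

theorem succAbove_val {n : ℕ} (i : Fin (n + 1)) (j : Fin n) :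
    ((i.succAbove j : Fin (n + 1)) : ℕ) = face i j := by
  unfold face
  by_cases h : (j : ℕ) < i
  · rw [if_pos h, Fin.succAbove_of_castSucc_lt]
    · simp
    · simpa [Fin.lt_def] using h
  · rw [if_neg h, Fin.succAbove_of_le_castSucc]
    · simp
    · simpa [Fin.le_def] using h

/-- evaluation of a cochain on the beginning of a sequence -/
def evalSeq {n : ℕ} (c : Cochain X n) (s : ℕ → X) : ℚ := c (fun i => s i)

theorem evalSeq_coboundary {n : ℕ} (c : Cochain X n) (s : ℕ → X) :
    evalSeq (coboundary n c) s
      = ∑ i ∈ Finset.range (n + 2), (-1) ^ i * evalSeq c (s ∘ face i) := by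
  unfold evalSeq
  show ∑ i : Fin (n + 2), (-1) ^ (i : ℕ) * c (fun j => s (i.succAbove j)) = _
  rw [Finset.sum_range]
  refine Finset.sum_congr rfl fun i _ => ?_
  congr 2
  funext j
  simp [succAbove_val]

theorem evalSeq_cup {m n : ℕ} (c : Cochain X m) (d : Cochain X n) (s : ℕ → X) :
    evalSeq (cup c d) s = evalSeq c s * evalSeq d (fun j => s (m + j)) := rfl

theorem evalSeq_congr {n : ℕ} (c : Cochain X n) {s t : ℕ → X} (h : ∀ i ≤ n, s i = t i) :
    evalSeq c s = evalSeq c t := by
  unfold evalSeq
  congr 1
  funext i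
  exact h i (by omega)

/-- Leibniz rule. -/
theorem evalSeq_leibniz {m n : ℕ} (c : Cochain X m) (d : Cochain X n) (s : ℕ → X) :
    evalSeq (coboundary (m + n) (cup c d)) s
      = evalSeq (coboundary m c) s * evalSeq d (fun j => s (m + 1 + j))
        + (-1) ^ m * (evalSeq c s * evalSeq (coboundary n d) (fun j => s (m + j))) := by
  rw [evalSeq_coboundary, evalSeq_coboundary, evalSeq_coboundary]
  simp only [evalSeq_cup]
  have h1 : ∑ i ∈ Finset.range (m + n + 2), (-1 : ℚ) ^ i * (evalSeq c (s ∘ face i) *
      evalSeq d (fun j => (s ∘ face i) (m + j)))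
      = ∑ i ∈ Finset.range (m + 1), (-1 : ℚ) ^ i * (evalSeq c (s ∘ face i) *
          evalSeq d (fun j => s (m + 1 + j)))
        + ∑ i ∈ Finset.range (n + 1), (-1 : ℚ) ^ (m + 1 + i) * (evalSeq c s *
          evalSeq d ((fun j => s (m + j)) ∘ face (i + 1))) := by
    rw [show m + n + 2 = (m + 1) + (n + 1) by ring, Finset.sum_range_add]
    congr 1
    · refine Finset.sum_congr rfl fun i hi => ?_
      have hi' : i ≤ m := by simpa [Nat.lt_succ_iff] using hi
      congr 2
      apply evalSeq_congr
      intro j _
      simp only [Function.comp, face]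
      rw [if_neg (by omega)]
      congr 1
      omega
    · refine Finset.sum_congr rfl fun i _ => ?_
      congr 2
      · apply evalSeq_congr
        intro j hj
        simp only [Function.comp, face]
        rw [if_pos (by omega)]
      · apply evalSeq_congr
        intro j _
        simp only [Function.comp, face]
        congr 1
        split_ifs <;> omega
  rw [h1, Finset.sum_range_succ (n := m + 1), Finset.sum_range_succ' (n := n + 1)]
  have h2 : evalSeq c (s ∘ face (m + 1)) = evalSeq c s := by
    apply evalSeq_congr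
    intro j hj
    simp only [Function.comp, face]
    rw [if_pos (by omega)]
  have h3 : evalSeq d ((fun j => s (m + j)) ∘ face 0) = evalSeq d (fun j => s (m + 1 + j)) := by
    apply evalSeq_congr
    intro j _
    simp only [Function.comp, face]
    rw [if_neg (by omega)]
    congr 1
    omega
  rw [h2, h3]
  have h4 : ∑ i ∈ Finset.range (n + 1), (-1 : ℚ) ^ (m + 1 + i) * (evalSeq c s *
          evalSeq d ((fun j => s (m + j)) ∘ face (i + 1)))
      = (-1) ^ m * (evalSeq c s * ∑ i ∈ Finset.range (n + 1), (-1) ^ (i + 1) *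
          evalSeq d ((fun j => s (m + j)) ∘ face (i + 1))) := by
    rw [Finset.mul_sum, Finset.mul_sum]
    refine Finset.sum_congr rfl fun i _ => ?_
    ring
  have h5 : ∑ i ∈ Finset.range (m + 1), (-1 : ℚ) ^ i * (evalSeq c (s ∘ face i) *
          evalSeq d (fun j => s (m + 1 + j)))
      = (∑ i ∈ Finset.range (m + 1), (-1 : ℚ) ^ i * evalSeq c (s ∘ face i)) *
          evalSeq d (fun j => s (m + 1 + j)) := by
    rw [Finset.sum_mul]
    refine Finset.sum_congr rfl fun i _ => ?_
    ring
  rw [h4, h5]
  ring

theorem face_face {i j : ℕ} (h : j < i) (k : ℕ) : face i (face j k) = face j (face (i - 1) k) := by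
  unfold face
  split_ifs <;> omega

/-- `δδ = 0`. -/
theorem evalSeq_coboundary_coboundary {n : ℕ} (c : Cochain X n) (s : ℕ → X) :
    evalSeq (coboundary (n + 1) (coboundary n c)) s = 0 := by
  rw [evalSeq_coboundary]
  simp only [evalSeq_coboundary, Finset.mul_sum]
  rw [← Finset.sum_product']
  refine Finset.sum_involution
    (fun p _ => if p.2 < p.1 then (p.2, p.1 - 1) else (p.2 + 1, p.1)) ?_ ?_ ?_ ?_
  · rintro ⟨i, j⟩ hp
    simp only [Finset.mem_product, Finset.mem_range] at hp
    by_cases h : j < i
    · simp only [h, if_true]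
      have h1 : (s ∘ face i) ∘ face j = (s ∘ face j) ∘ face (i - 1) := by
        funext k
        simp only [Function.comp, face_face h]
      rw [h1]
      obtain ⟨i', rfl⟩ : ∃ i', i = i' + 1 := ⟨i - 1, by omega⟩
      simp only [Nat.add_sub_cancel, pow_succ]
      ring
    · simp only [h, if_false]
      have h1 : (s ∘ face (j + 1)) ∘ face i = (s ∘ face i) ∘ face j := by
        funext k
        have := face_face (i := j + 1) (j := i) (by omega) k
        simp only [Nat.add_sub_cancel] at this
        simp only [Function.comp, this]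
      rw [h1, pow_succ]
      ring
  · rintro ⟨i, j⟩ hp _ h0
    simp only at h0
    split_ifs at h0 with h
    · have := (Prod.mk.inj h0).1
      omega
    · have := (Prod.mk.inj h0).1
      omega
  · rintro ⟨i, j⟩ hp
    simp only [Finset.mem_product, Finset.mem_range] at hp ⊢
    split_ifs with h <;> constructor <;> simp <;> omega
  · rintro ⟨i, j⟩ hp
    simp only
    by_cases h : j < i
    · simp only [h, if_true]
      rw [if_neg (by omega)]
      ext <;> simp
      omega
    · simp only [h, if_false]
      rw [if_pos (by omega)]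
      simp


end leibniz

end TripleBurger
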