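import Pool.Agent.helper10.K3B.AS

/-!
# Alexander–Spanier cohomology: cup product and functoriality
-/

namespace TripleBurger

open scoped BigOperators

section seq
variable {X : Type}

/-- a finite tuple is the beginning of a sequence with the same values -/
def seqOf {k : ℕ} (v : Fin (k + 1) → X) (i : ℕ) : X := v ⟨min i k, by omega⟩

theorem evalSeq_seqOf {k : ℕ} (c : Cochain X k) (v : Fin (k + 1) → X) :
    evalSeq c (seqOf v) = c v := by
  unfold evalSeq seqOf
  congr 1
  funext i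
  congr 1
  ext
  simp only
  omega

theorem evalSeq_add {k : ℕ} (c d : Cochain X k) (s : ℕ → X) :
    evalSeq (c + d) s = evalSeq c s + evalSeq d s := rfl

theorem evalSeq_sub {k : ℕ} (c d : Cochain X k) (s : ℕ → X) :
    evalSeq (c - d) s = evalSeq c s - evalSeq d s := rfl

theorem evalSeq_smul {k : ℕ} (r : ℚ) (c : Cochain X k) (s : ℕ → X) :
    evalSeq (r • c) s = r * evalSeq c s := rfl

theorem pull_apply {Y : Type} (f : X → Y) {n : ℕ} (c : Cochain Y n) (v : Fin (n + 1) → X) :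
    pull f n c v = c (fun i => f (v i)) := rfl

theorem pull_cup {Y : Type} (f : X → Y) {m n : ℕ} (c : Cochain Y m) (d : Cochain Y n) :
    pull f (m + n) (cup c d) = cup (pull f m c) (pull f n d) := rfl

theorem cup_add_left {m n : ℕ} (c c' : Cochain X m) (d : Cochain X n) :
    cup (c + c') d = cup c d + cup c' d := by
  funext v
  rw [Cochain.add_apply]
  simp only [cup, Cochain.add_apply, add_mul]

theorem cup_add_right {m n : ℕ} (c : Cochain X m) (d d' : Cochain X n) :
    cup c (d + d') = cup c d + cup c d' := by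
  funext v
  rw [Cochain.add_apply]
  simp only [cup, Cochain.add_apply, mul_add]

theorem cup_smul_left {m n : ℕ} (r : ℚ) (c : Cochain X m) (d : Cochain X n) :
    cup (r • c) d = r • cup c d := by
  funext v
  rw [Cochain.smul_apply]
  simp only [cup, Cochain.smul_apply, mul_assoc]

theorem cup_smul_right {m n : ℕ} (r : ℚ) (c : Cochain X m) (d : Cochain X n) :
    cup c (r • d) = r • cup c d := by
  funext v
  rw [Cochain.smul_apply]
  simp only [cup, Cochain.smul_apply]
  ring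

end seq

section top
variable {X : Type} [TopologicalSpace X]

/-- `LocZero` in terms of sequences -/
theorem locZero_iff_seq {n : ℕ} (c : Cochain X n) :
    LocZero c ↔ ∀ x : X, ∃ V : Set X, IsOpen V ∧ x ∈ V ∧
      ∀ s : ℕ → X, (∀ i, s i ∈ V) → evalSeq c s = 0 := by
  constructor
  · intro h x
    obtain ⟨V, hV, hx, h1⟩ := h x
    exact ⟨V, hV, hx, fun s hs => h1 _ fun i => hs i⟩
  · intro h x
    obtain ⟨V, hV, hx, h1⟩ := h x
    refine ⟨V, hV, hx, fun v hv => ?_⟩
    rw [← evalSeq_seqOf c v]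
    exact h1 _ fun i => hv _

theorem LocZero.cup_left {m n : ℕ} {c : Cochain X m} (hc : LocZero c) (d : Cochain X n) :
    LocZero (cup c d) := by
  intro x
  obtain ⟨V, hV, hx, h1⟩ := hc x
  refine ⟨V, hV, hx, fun v hv => ?_⟩
  show _ * _ = _
  rw [h1 _ (fun i => hv _), zero_mul]

theorem LocZero.cup_right {m n : ℕ} (c : Cochain X m) {d : Cochain X n} (hd : LocZero d) :
    LocZero (cup c d) := by
  intro x
  obtain ⟨V, hV, hx, h1⟩ := hd x
  refine ⟨V, hV, hx, fun v hv => ?_⟩
  show _ * _ = _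
  rw [h1 _ (fun i => hv _), mul_zero]

theorem mem_cocycles {n : ℕ} (c : Cochain X n) : c ∈ cocycles X n ↔ LocZero (coboundary n c) :=
  Iff.rfl

theorem LocZero.mem_coboundaries : ∀ {n : ℕ} {c : Cochain X n}, LocZero c →
    c ∈ coboundaries X n
  | 0, _, hc => hc
  | _ + 1, _, hc => mem_coboundaries_succ.2 ⟨0, by rw [map_zero, sub_zero]; exact hc⟩

/-- a criterion for `c` to be a coboundary, without casts -/
theorem mem_coboundaries_of {N K : ℕ} (h : K + 1 = N) (c : Cochain X N) (u : Cochain X K)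
    (hu : ∀ x : X, ∃ V : Set X, IsOpen V ∧ x ∈ V ∧ ∀ s : ℕ → X, (∀ i, s i ∈ V) →
      evalSeq c s = evalSeq (coboundary K u) s) : c ∈ coboundaries X N := by
  subst h
  refine mem_coboundaries_succ.2 ⟨u, (locZero_iff_seq _).2 fun x => ?_⟩
  obtain ⟨V, hV, hx, h1⟩ := hu x
  exact ⟨V, hV, hx, fun s hs => by rw [evalSeq_sub, h1 s hs, sub_self]⟩

theorem coboundaries_le {n : ℕ} {c : Cochain X n} (hc : c ∈ coboundaries X n) :
    c ∈ cocycles X n := by
  rw [mem_cocycles]
  cases n with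
  | zero => exact LocZero.coboundary hc
  | succ k =>
    obtain ⟨u, hu⟩ := mem_coboundaries_succ.1 hc
    have h := LocZero.coboundary hu
    rw [locZero_iff_seq] at h ⊢
    intro x
    obtain ⟨V, hV, hx, h1⟩ := h x
    refine ⟨V, hV, hx, fun s hs => ?_⟩
    have h2 := h1 s hs
    rw [map_sub, evalSeq_sub, evalSeq_coboundary_coboundary, sub_zero] at h2
    exact h2

theorem cup_mem {m n : ℕ} {c : Cochain X m} {d : Cochain X n} (hc : c ∈ cocycles X m)
    (hd : d ∈ cocycles X n) : cup c d ∈ cocycles X (m + n) := by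
  rw [mem_cocycles, locZero_iff_seq] at *
  intro x
  obtain ⟨V, hV, hxV, h1⟩ := hc x
  obtain ⟨W, hW, hxW, h2⟩ := hd x
  refine ⟨V ∩ W, hV.inter hW, ⟨hxV, hxW⟩, fun s hs => ?_⟩
  rw [evalSeq_leibniz, h1 s (fun i => (hs i).1), h2 _ (fun i => (hs _).2)]
  ring

theorem cup_mem_coboundaries_left {m n : ℕ} {c : Cochain X m} {d : Cochain X n}
    (hc : c ∈ coboundaries X m) (hd : d ∈ cocycles X n) :
    cup c d ∈ coboundaries X (m + n) := by
  cases m with
  | zero => exact LocZero.mem_coboundaries (LocZero.cup_left hc d)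
  | succ k =>
    obtain ⟨u, hu⟩ := mem_coboundaries_succ.1 hc
    rw [mem_cocycles] at hd
    rw [locZero_iff_seq] at hd hu
    refine mem_coboundaries_of (K := k + n) (by omega) _ (cup u d) fun x => ?_
    obtain ⟨V, hV, hxV, h1⟩ := hu x
    obtain ⟨W, hW, hxW, h2⟩ := hd x
    refine ⟨V ∩ W, hV.inter hW, ⟨hxV, hxW⟩, fun s hs => ?_⟩
    rw [evalSeq_leibniz, h2 _ (fun i => (hs _).2), evalSeq_cup]
    have h3 := h1 s (fun i => (hs i).1)
    rw [evalSeq_sub, sub_eq_zero] at h3
    rw [h3]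
    ring

theorem cup_mem_coboundaries_right {m n : ℕ} {c : Cochain X m} {d : Cochain X n}
    (hc : c ∈ cocycles X m) (hd : d ∈ coboundaries X n) :
    cup c d ∈ coboundaries X (m + n) := by
  cases n with
  | zero => exact LocZero.mem_coboundaries (LocZero.cup_right c hd)
  | succ k =>
    obtain ⟨u, hu⟩ := mem_coboundaries_succ.1 hd
    rw [mem_cocycles] at hc
    rw [locZero_iff_seq] at hc hu
    refine mem_coboundaries_of (K := m + k) (by omega) _ (((-1 : ℚ) ^ m) • cup c u) fun x => ?_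
    obtain ⟨V, hV, hxV, h1⟩ := hu x
    obtain ⟨W, hW, hxW, h2⟩ := hc x
    refine ⟨V ∩ W, hV.inter hW, ⟨hxV, hxW⟩, fun s hs => ?_⟩
    rw [map_smul, evalSeq_smul, evalSeq_leibniz, h2 _ (fun i => (hs _).2), evalSeq_cup]
    have h3 := h1 (fun j => s (m + j)) (fun i => (hs _).1)
    rw [evalSeq_sub, sub_eq_zero] at h3
    rw [h3]
    have h4 : ((-1 : ℚ) ^ m) * (-1) ^ m = 1 := by
      rw [← mul_pow]
      norm_num
    linear_combination -(evalSeq c s * evalSeq (coboundary k u) (fun j => s (m + j))) * h4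

/-- cup product of cocycles -/
def cupZ (m n : ℕ) : Cocyc X m →ₗ[ℚ] Cocyc X n →ₗ[ℚ] Cocyc X (m + n) :=
  LinearMap.mk₂ ℚ (fun c d => ⟨cup c.1 d.1, cup_mem c.2 d.2⟩)
    (fun _ _ _ => Subtype.ext (cup_add_left _ _ _))
    (fun _ _ _ => Subtype.ext (cup_smul_left _ _ _))
    (fun _ _ _ => Subtype.ext (cup_add_right _ _ _))
    (fun _ _ _ => Subtype.ext (cup_smul_right _ _ _))

theorem cupZ_apply {m n : ℕ} (c : Cocyc X m) (d : Cocyc X n) :
    (cupZ m n c d).1 = cup c.1 d.1 := rfl

theorem H.mk_eq_zero {n : ℕ} (c : Cocyc X n) : H.mk c = 0 ↔ c.1 ∈ coboundaries X n :=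
  Submodule.Quotient.mk_eq_zero (bdry X n)

theorem H.mk_eq {n : ℕ} (c d : Cocyc X n) : H.mk c = H.mk d ↔ c.1 - d.1 ∈ coboundaries X n :=
  Submodule.Quotient.eq (bdry X n)

theorem H.mk_surjective {n : ℕ} (a : H X n) : ∃ c : Cocyc X n, H.mk c = a :=
  Submodule.Quotient.mk_surjective _ a

theorem H.ind {n : ℕ} {P : H X n → Prop} (h : ∀ c : Cocyc X n, P (H.mk c)) (a : H X n) :
    P a := by
  obtain ⟨c, rfl⟩ := H.mk_surjective a
  exact h c

/-- auxiliary: cup product, second variable in cohomology -/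
def cupHAux (m n : ℕ) : Cocyc X m →ₗ[ℚ] H X n →ₗ[ℚ] H X (m + n) where
  toFun c := Submodule.liftQ (bdry X n) ((Submodule.mkQ (bdry X (m + n))).comp (cupZ m n c)) (by
    intro d hd
    rw [LinearMap.mem_ker]
    exact (H.mk_eq_zero _).2 (cup_mem_coboundaries_right c.2 hd))
  map_add' c c' := by
    apply LinearMap.ext
    intro a
    obtain ⟨d, rfl⟩ := H.mk_surjective a
    show H.mk (cupZ m n (c + c') d) = H.mk (cupZ m n c d) + H.mk (cupZ m n c' d)
    rw [map_add]
    rfl
  map_smul' r c := by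
    apply LinearMap.ext
    intro a
    obtain ⟨d, rfl⟩ := H.mk_surjective a
    show H.mk (cupZ m n (r • c) d) = r • H.mk (cupZ m n c d)
    rw [map_smul]
    rfl

/-- **The cup product** `Hᵐ(X) × Hⁿ(X) → Hᵐ⁺ⁿ(X)`. -/
def cupH (m n : ℕ) : H X m →ₗ[ℚ] H X n →ₗ[ℚ] H X (m + n) :=
  Submodule.liftQ (bdry X m) (cupHAux m n) (by
    intro c hc
    rw [LinearMap.mem_ker]
    apply LinearMap.ext
    intro a
    obtain ⟨d, rfl⟩ := H.mk_surjective a
    exact (H.mk_eq_zero _).2 (cup_mem_coboundaries_left hc d.2))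

@[simp] theorem cupH_mk {m n : ℕ} (c : Cocyc X m) (d : Cocyc X n) :
    cupH m n (H.mk c) (H.mk d) = H.mk (cupZ m n c d) := rfl

theorem isCup_iff {m n : ℕ} (a : H X m) (b : H X n) (e : H X (m + n)) :
    IsCup a b e ↔ cupH m n a b = e := by
  constructor
  · rintro ⟨c, d, ⟨hc, rfl⟩, ⟨hd, rfl⟩, ⟨hu, rfl⟩⟩
    rfl
  · rintro rfl
    obtain ⟨c, rfl⟩ := H.mk_surjective a
    obtain ⟨d, rfl⟩ := H.mk_surjective b
    exact ⟨c.1, d.1, ⟨c.2, rfl⟩, ⟨d.2, rfl⟩, ⟨(cupZ m n c d).2, rfl⟩⟩

end top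

section map
variable {X Y Z : Type} [TopologicalSpace X] [TopologicalSpace Y] [TopologicalSpace Z]

theorem pullZ_apply (f : X → Y) (hf : Continuous f) {n : ℕ} (c : Cocyc Y n) :
    (pullZ f hf n c).1 = pull f n c.1 := rfl

@[simp] theorem H.map_mk (f : X → Y) (hf : Continuous f) {n : ℕ} (c : Cocyc Y n) :
    H.map f hf n (H.mk c) = H.mk (pullZ f hf n c) := rfl

@[simp] theorem H.map_id (n : ℕ) (a : H X n) : H.map (fun x : X => x) continuous_id n a = a := by
  induction a using H.ind with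
  | h c => rfl

theorem H.map_comp (f : X → Y) (hf : Continuous f) (g : Y → Z) (hg : Continuous g) {n : ℕ}
    (a : H Z n) : H.map (fun x => g (f x)) (hg.comp hf) n a
      = H.map f hf n (H.map g hg n a) := by
  induction a using H.ind with
  | h c => rfl

theorem H.map_cup (f : X → Y) (hf : Continuous f) {m n : ℕ} (a : H Y m) (b : H Y n) :
    H.map f hf (m + n) (cupH m n a b) = cupH m n (H.map f hf m a) (H.map f hf n b) := by
  induction a using H.ind with
  | h c =>
    induction b using H.ind with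
    | h d => rfl

end map

end TripleBurger
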