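import Mathlib

/-!
# Alexander–Spanier cohomology with rational coefficients: definitions

The Alexander–Spanier cochains of degree `n` of a topological space `X` are the functions
`X^(n+1) → ℚ` modulo the functions which vanish near the diagonal (the locally zero functions).
For the spaces below (open subsets of complex algebraic varieties) this cohomology is the usual
cohomology with rational coefficients, with the usual cup product.
-/

namespace TripleBurger

/-- Functions on `(n+1)`-tuples of points. -/
def Cochain (X : Type) (n : ℕ) : Type := (Fin (n + 1) → X) → ℚ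

instance Cochain.instAddCommGroup (X : Type) (n : ℕ) : AddCommGroup (Cochain X n) :=
  Pi.addCommGroup

instance Cochain.instModule (X : Type) (n : ℕ) : Module ℚ (Cochain X n) :=
  Pi.Function.module _ _ _

section
variable {X Y : Type}

theorem Cochain.add_apply {n : ℕ} (c d : Cochain X n) (v : Fin (n + 1) → X) :
    (c + d) v = c v + d v := rfl

theorem Cochain.smul_apply {n : ℕ} (r : ℚ) (c : Cochain X n) (v : Fin (n + 1) → X) :
    (r • c) v = r * c v := rfl

/-- The coboundary `(δc)(x₀,…,x_{n+1}) = ∑ (-1)^i c(x₀,…,x̂_i,…,x_{n+1})`. -/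
def cobd {n : ℕ} (c : Cochain X n) : Cochain X (n + 1) :=
  fun v => ∑ i : Fin (n + 2), (-1) ^ (i : ℕ) * c (fun j => v (i.succAbove j))

theorem cobd_add {n : ℕ} (c d : Cochain X n) : cobd (c + d) = cobd c + cobd d := by
  funext v
  rw [Cochain.add_apply]
  simp only [cobd, Cochain.add_apply, mul_add, Finset.sum_add_distrib]

theorem cobd_smul {n : ℕ} (r : ℚ) (c : Cochain X n) : cobd (r • c) = r • cobd c := by
  funext v
  rw [Cochain.smul_apply]
  simp only [cobd, Cochain.smul_apply, Finset.mul_sum, mul_left_comm]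

/-- The coboundary as a linear map. -/
def coboundary (n : ℕ) : Cochain X n →ₗ[ℚ] Cochain X (n + 1) := ⟨⟨cobd, cobd_add⟩, cobd_smul⟩

/-- The cup product `(c ∪ d)(x₀,…,x_{m+n}) = c(x₀,…,x_m) d(x_m,…,x_{m+n})`. -/
def cup {m n : ℕ} (c : Cochain X m) (d : Cochain X n) : Cochain X (m + n) :=
  fun v => c (fun i => v ⟨i, by omega⟩) * d (fun j => v ⟨m + j, by omega⟩)

/-- pullback of functions on tuples -/
def pullF (f : X → Y) {n : ℕ} (c : Cochain Y n) : Cochain X n := fun v => c (fun i => f (v i))

theorem pullF_add (f : X → Y) {n : ℕ} (c d : Cochain Y n) :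
    pullF f (c + d) = pullF f c + pullF f d := rfl

theorem pullF_smul (f : X → Y) {n : ℕ} (r : ℚ) (c : Cochain Y n) :
    pullF f (r • c) = r • pullF f c := rfl

/-- pullback of cochains -/
def pull (f : X → Y) (n : ℕ) : Cochain Y n →ₗ[ℚ] Cochain X n :=
  ⟨⟨pullF f, pullF_add f⟩, pullF_smul f⟩

/-- `c` is locally zero: every point has an open neighbourhood `V` such that `c` vanishes on all
tuples of points of `V`. -/
def LocZero [TopologicalSpace X] {n : ℕ} (c : Cochain X n) : Prop :=
  ∀ x : X, ∃ V : Set X, IsOpen V ∧ x ∈ V ∧ ∀ v : Fin (n + 1) → X, (∀ i, v i ∈ V) → c v = 0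

variable [TopologicalSpace X] [TopologicalSpace Y] {n : ℕ}

theorem LocZero.add {c d : Cochain X n} (hc : LocZero c) (hd : LocZero d) :
    LocZero (c + d) := by
  intro x
  obtain ⟨V, hV, hxV, h1⟩ := hc x
  obtain ⟨W, hW, hxW, h2⟩ := hd x
  refine ⟨V ∩ W, hV.inter hW, ⟨hxV, hxW⟩, fun v hv => ?_⟩
  rw [Cochain.add_apply, h1 v (fun i => (hv i).1), h2 v (fun i => (hv i).2), add_zero]

theorem LocZero.smul {c : Cochain X n} (r : ℚ) (hc : LocZero c) : LocZero (r • c) := by
  intro x
  obtain ⟨V, hV, hxV, h1⟩ := hc x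
  refine ⟨V, hV, hxV, fun v hv => ?_⟩
  rw [Cochain.smul_apply, h1 v hv, mul_zero]

theorem LocZero.zero : LocZero (0 : Cochain X n) :=
  fun _ => ⟨Set.univ, isOpen_univ, trivial, fun _ _ => rfl⟩

theorem LocZero.pull {f : X → Y} (hf : Continuous f) {c : Cochain Y n} (hc : LocZero c) :
    LocZero (pullF f c) := by
  intro x
  obtain ⟨V, hV, hx, h1⟩ := hc (f x)
  exact ⟨f ⁻¹' V, hV.preimage hf, hx, fun v hv => h1 _ hv⟩

variable (X n) in
/-- The subspace of the locally zero cochains. -/
def locZero : Submodule ℚ (Cochain X n) :=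
  ⟨⟨⟨{c | LocZero c}, LocZero.add⟩, LocZero.zero⟩, fun r _ => LocZero.smul r⟩

variable (X n) in
/-- Alexander–Spanier cocycles: `δc` is locally zero. -/
def cocycles : Submodule ℚ (Cochain X n) := (locZero X (n + 1)).comap (coboundary n)

variable (X) in
/-- Alexander–Spanier coboundaries: the sums of a locally zero cochain and of the
coboundary of a cochain (in degree `0`: the locally zero cochains). -/
def coboundaries : (n : ℕ) → Submodule ℚ (Cochain X n)
  | 0 => locZero X 0
  | n + 1 => locZero X (n + 1) ⊔ LinearMap.range (coboundary n)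

variable (X n) in
/-- the space of cocycles -/
def Cocyc : Type := cocycles X n

instance Cocyc.instAddCommGroup : AddCommGroup (Cocyc X n) := Submodule.addCommGroup _

instance Cocyc.instModule : Module ℚ (Cocyc X n) := Submodule.module _

variable (X n) in
/-- the coboundaries as a subspace of the space of cocycles -/
def bdry : Submodule ℚ (Cocyc X n) := (coboundaries X n).submoduleOf (cocycles X n)

variable (X n) in
/-- `Hⁿ(X; ℚ)` (Alexander–Spanier cohomology). -/
def H : Type := Cocyc X n ⧸ bdry X n

instance H.instAddCommGroup : AddCommGroup (H X n) := Submodule.Quotient.addCommGroup _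

instance H.instModule : Module ℚ (H X n) := Submodule.Quotient.module _

/-- The class of a cocycle. -/
def H.mk (c : Cocyc X n) : H X n := Submodule.Quotient.mk c

/-- `c` is a cocycle with class `a` -/
def IsClass (c : Cochain X n) (a : H X n) : Prop :=
  ∃ h : LocZero (cobd c), H.mk (Subtype.mk c h) = a

/-- `e = a ∪ b`: the cup product of classes is given by the cup product of cocycles. -/
def IsCup {m n : ℕ} (a : H X m) (b : H X n) (e : H X (m + n)) : Prop :=
  ∃ (c : Cochain X m) (d : Cochain X n), IsClass c a ∧ IsClass d b ∧ IsClass (cup c d) e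

theorem pull_mem_cocycles {f : X → Y} (hf : Continuous f) (c : Cochain Y n)
    (hc : c ∈ cocycles Y n) : pull f n c ∈ cocycles X n :=
  LocZero.pull hf hc

/-- pullback of cocycles -/
def pullZ (f : X → Y) (hf : Continuous f) (n : ℕ) : Cocyc Y n →ₗ[ℚ] Cocyc X n :=
  (pull f n).restrict (pull_mem_cocycles hf)

theorem bdry_le (f : X → Y) (hf : Continuous f) (n : ℕ) :
    bdry Y n ≤ (bdry X n).comap (pullZ f hf n) := by
  intro c hc
  show pull f n c.1 ∈ coboundaries X n
  have hc' : c.1 ∈ coboundaries Y n := hc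
  cases n with
  | zero => exact LocZero.pull hf hc'
  | succ k =>
    obtain ⟨y, hy, z, ⟨u, rfl⟩, h⟩ := Submodule.mem_sup.1 hc'
    rw [← h, map_add]
    exact Submodule.add_mem_sup (LocZero.pull hf hy) ⟨pull f k u, rfl⟩

/-- **Functoriality** `f* : Hⁿ(Y) → Hⁿ(X)`. -/
def H.map (f : X → Y) (hf : Continuous f) (n : ℕ) : H Y n →ₗ[ℚ] H X n :=
  Submodule.mapQ (bdry Y n) (bdry X n) (pullZ f hf n) (bdry_le f hf n)

end

end TripleBurger
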