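import Pool.Agent.helper10.K3B.Lift

/-!
# K3B module TOP: topology of the total space (quotient map is open), `Good` is open
-/

namespace TripleBurger

open Complex K3B

theorem mk_continuous : Continuous Total.mk :=
  continuous_quotient_mk'

theorem cone_b_continuous : Continuous Cone.b :=
  (continuous_fst : Continuous (fun a : Ambient => a.1)).comp continuous_subtype_val
theorem cone_W_continuous (i : Fin 3) : Continuous (fun p : Cone => p.W i) :=
  ((continuous_apply i).comp (continuous_fst.comp continuous_snd) :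
    Continuous (fun a : Ambient => a.2.1 i)).comp continuous_subtype_val
theorem cone_X_continuous (i : Fin 3) : Continuous (fun p : Cone => p.X i) :=
  ((continuous_apply i).comp (continuous_fst.comp (continuous_snd.comp continuous_snd)) :
    Continuous (fun a : Ambient => a.2.2.1 i)).comp continuous_subtype_val
theorem cone_Y_continuous (i : Fin 3) : Continuous (fun p : Cone => p.Y i) :=
  ((continuous_apply i).comp (continuous_snd.comp (continuous_snd.comp continuous_snd)) :
    Continuous (fun a : Ambient => a.2.2.2 i)).comp continuous_subtype_val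

/-- the quartic form is homogeneous -/
theorem quartic_rescale (b : Param) (i : Fin 3) (c W X : ℂ) :
    quartic b i (c * W) (c * X) = c ^ 4 * quartic b i W X := by
  unfold quartic
  rw [Fin.prod_univ_four, Fin.prod_univ_four]
  ring

/-- rescaling and the involution -/
def act (c : Fin 3 → ℂ) (σ : ℂ) (hc : ∀ i, c i ≠ 0) (hσ : σ = 1 ∨ σ = -1) (p : Cone) : Cone :=
  ⟨(p.1.1, fun i => c i * p.1.2.1 i, fun i => c i * p.1.2.2.1 i,
      fun i => σ * (c i ^ 2 * p.1.2.2.2 i)), p.2.1, by
    intro i
    rcases p.2.2.1 i with h | h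
    · exact Or.inl (mul_ne_zero (hc i) h)
    · exact Or.inr (mul_ne_zero (hc i) h), by
    intro i
    have h := p.2.2.2.1 i
    have hσ2 : σ ^ 2 = 1 := by rcases hσ with rfl | rfl <;> norm_num
    simp only
    rw [quartic_rescale, ← h]
    calc (σ * (c i ^ 2 * p.1.2.2.2 i)) ^ 2 = σ ^ 2 * (c i ^ 4 * p.1.2.2.2 i ^ 2) := by ring
      _ = c i ^ 4 * p.1.2.2.2 i ^ 2 := by rw [hσ2, one_mul], by
    have h := p.2.2.2.2
    simp only
    linear_combination (c 0 * c 1 * c 2) * h⟩

theorem act_continuous (c : Fin 3 → ℂ) (σ : ℂ) (hc : ∀ i, c i ≠ 0) (hσ : σ = 1 ∨ σ = -1) :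
    Continuous (act c σ hc hσ) := by
  unfold act
  refine Continuous.subtype_mk (Continuous.prodMk cone_b_continuous (Continuous.prodMk
    (continuous_pi fun i => continuous_const.mul (cone_W_continuous i)) (Continuous.prodMk
      (continuous_pi fun i => continuous_const.mul (cone_X_continuous i))
      (continuous_pi fun i => continuous_const.mul
        (continuous_const.mul (cone_Y_continuous i)))))) _

theorem act_eq {p q : Cone} {c : Fin 3 → ℂ} {σ : ℂ} (hc : ∀ i, c i ≠ 0) (hσ : σ = 1 ∨ σ = -1)
    (hb : p.b = q.b)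
    (h : ∀ i, q.W i = c i * p.W i ∧ q.X i = c i * p.X i ∧ q.Y i = σ * (c i ^ 2 * p.Y i)) :
    act c σ hc hσ p = q := by
  apply Subtype.ext
  refine Prod.ext hb (Prod.ext ?_ (Prod.ext ?_ ?_))
  · funext i; exact (h i).1.symm
  · funext i; exact (h i).2.1.symm
  · funext i; exact (h i).2.2.symm

theorem act_rel (c : Fin 3 → ℂ) (σ : ℂ) (hc : ∀ i, c i ≠ 0) (hσ : σ = 1 ∨ σ = -1) (p : Cone) :
    SameRel p (act c σ hc hσ p) :=
  ⟨rfl, c, σ, hc, hσ, fun _ => ⟨rfl, rfl, rfl⟩⟩

/-- the equivalence relation is given by homeomorphisms of `Cone`, so the quotient map is open -/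
theorem mk_isOpenMap : IsOpenMap Total.mk := by
  intro U hU
  have h1 : IsOpen (Total.mk ⁻¹' (Total.mk '' U)) := by
    have h2 : Total.mk ⁻¹' (Total.mk '' U) = ⋃ (c : Fin 3 → ℂ), ⋃ (σ : ℂ), ⋃ (hc : ∀ i, c i ≠ 0),
        ⋃ (hσ : σ = 1 ∨ σ = -1), act c σ hc hσ ⁻¹' U := by
      ext p
      simp only [Set.mem_preimage, Set.mem_image, Set.mem_iUnion]
      constructor
      · rintro ⟨q, hq, hqp⟩
        have h3 : SameRel p q := Quotient.exact hqp.symm
        obtain ⟨hb, c, σ, hc, hσ, h⟩ := h3
        exact ⟨c, σ, hc, hσ, by rw [act_eq hc hσ hb h]; exact hq⟩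
      · rintro ⟨c, σ, hc, hσ, hp⟩
        exact ⟨_, hp, (Quotient.sound (act_rel c σ hc hσ p)).symm⟩
    rw [h2]
    exact isOpen_iUnion fun c => isOpen_iUnion fun σ => isOpen_iUnion fun hc =>
      isOpen_iUnion fun hσ => hU.preimage (act_continuous c σ hc hσ)
  exact h1

theorem mk_surjective : Function.Surjective Total.mk := Quotient.mk_surjective

theorem proj_continuous : Continuous Total.proj :=
  cone_b_continuous.quotient_lift _

theorem good_isOpen : IsOpen Good := by
  have c (i : Fin 5) : Continuous (fun b : Param => b i) := continuous_apply i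
  have e : Good = {b : Param | ‖b 0‖ < 1 / 2} ∩ ({b : Param | ‖b 1‖ < 1 / 4} ∩
      ({b : Param | ‖b 2‖ < 1 / 2} ∩ ({b : Param | ‖b 3‖ < 1 / 4} ∩
      ({b : Param | 0 < (b 1).re} ∩ ({b : Param | 0 < (b 3).re} ∩
      {b : Param | 100 * ‖b 4‖ < (b 1).re}))))) := by
    ext b
    simp only [Good, Set.mem_ofPred_eq, Set.mem_inter_iff]
  rw [e]
  exact (isOpen_lt (c 0).norm continuous_const).inter
    ((isOpen_lt (c 1).norm continuous_const).inter
    ((isOpen_lt (c 2).norm continuous_const).inter
    ((isOpen_lt (c 3).norm continuous_const).inter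
    ((isOpen_lt continuous_const (Complex.continuous_re.comp (c 1))).inter
    ((isOpen_lt continuous_const (Complex.continuous_re.comp (c 3))).inter
    (isOpen_lt (continuous_const.mul (c 4).norm) (Complex.continuous_re.comp (c 1))))))))

theorem root_continuous (i : Fin 3) (j : Fin 4) : Continuous (fun b : Param => root b i j) := by
  have c (i : Fin 5) : Continuous (fun b : Param => b i) := continuous_apply i
  fin_cases i <;> fin_cases j <;> simp [root] <;> fun_prop

/-- `B` is open for the classical topology. -/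
theorem base_isOpen : IsOpen BaseSet := by
  have c (i : Fin 5) : Continuous (fun b : Param => b i) := continuous_apply i
  have h1 : IsOpen {b : Param | ∀ i, Function.Injective (root b i)} := by
    have e : {b : Param | ∀ i, Function.Injective (root b i)} =
        ⋂ (i : Fin 3), ⋂ (j : Fin 4), ⋂ (k : Fin 4), {b | j = k ∨ root b i j ≠ root b i k} := by
      ext b
      simp only [Set.mem_ofPred_eq, Set.mem_iInter]
      constructor
      · intro h i j k
        by_cases hjk : j = k
        · exact Or.inl hjk
        · exact Or.inr fun h0 => hjk (h i h0)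
      · intro h i j k hjk
        rcases h i j k with h0 | h0
        · exact h0
        · exact absurd hjk h0
    rw [e]
    refine isOpen_iInter_of_finite fun i => isOpen_iInter_of_finite fun j =>
      isOpen_iInter_of_finite fun k => ?_
    by_cases hjk : j = k
    · simp [hjk]
    · simp only [hjk, false_or]
      exact isOpen_ne_fun (root_continuous i j) (root_continuous i k)
  have h2 : IsOpen {b : Param | ∀ i j, root b i j ≠ 0} := by
    have e : {b : Param | ∀ i j, root b i j ≠ 0} =
        ⋂ (i : Fin 3), ⋂ (j : Fin 4), {b | root b i j ≠ 0} := by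
      ext b
      simp only [Set.mem_ofPred_eq, Set.mem_iInter]
    rw [e]
    exact isOpen_iInter_of_finite fun i => isOpen_iInter_of_finite fun j =>
      isOpen_ne_fun (root_continuous i j) continuous_const
  have h3 : IsOpen {b : Param | b 4 ≠ 0} := isOpen_ne_fun (c 4) continuous_const
  have h4 : IsOpen {b : Param | ∀ j k l, root b 0 j * root b 2 l ≠ b 4 * root b 1 k} := by
    have e : {b : Param | ∀ j k l, root b 0 j * root b 2 l ≠ b 4 * root b 1 k} =
        ⋂ (j : Fin 4), ⋂ (k : Fin 4), ⋂ (l : Fin 4),
          {b | root b 0 j * root b 2 l ≠ b 4 * root b 1 k} := by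
      ext b
      simp only [Set.mem_ofPred_eq, Set.mem_iInter]
    rw [e]
    exact isOpen_iInter_of_finite fun j => isOpen_iInter_of_finite fun k =>
      isOpen_iInter_of_finite fun l => isOpen_ne_fun
        ((root_continuous 0 j).mul (root_continuous 2 l)) ((c 4).mul (root_continuous 1 k))
  have e : BaseSet = {b : Param | ∀ i, Function.Injective (root b i)} ∩
      ({b : Param | ∀ i j, root b i j ≠ 0} ∩ ({b : Param | b 4 ≠ 0} ∩
      {b : Param | ∀ j k l, root b 0 j * root b 2 l ≠ b 4 * root b 1 k})) := by
    ext b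
    simp only [BaseSet, Set.mem_ofPred_eq, Set.mem_inter_iff]
  rw [e]
  exact h1.inter (h2.inter (h3.inter h4))

end TripleBurger
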