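import Pool.Agent.helper10.K3B.TorDef
import Pool.Agent.helper10.K3B.Top

/-!
# K3B module E3: the torus map to `E₂` (indices of `Def.lean`)

`e3_ne`, `e3_sq` are in `TorDef.lean`.  On the four closed faces of the torus (signs of `sin α`,
`sin β`) the point has a continuous representative (`face1_ok`, `face2_ok`); on the edges the
representatives agree up to rescaling (`edgeA_glue`, `edgeB_glue`); `sec_continuous` glues.
-/

namespace TripleBurger

open Complex K3B

theorem norm_zz_sq (α β : ℝ) : ‖zz α β‖ ^ 2 = (Real.cos α ^ 2 + Real.cos β ^ 2) / 2 := by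
  rw [← normSq_eq_norm_sq, normSq_apply, zz_re, zz_im]
  ring

theorem zz_rr_pos (α β : ℝ) : 0 < ‖zz α β‖ ^ 2 + rr α β ^ 2 := by
  rw [norm_zz_sq]
  unfold rr
  have h1 := Real.sin_sq_add_cos_sq α
  have h2 := Real.sin_sq_add_cos_sq β
  have h3 : 0 ≤ Real.cos α ^ 2 := sq_nonneg _
  have h4 : 0 ≤ Real.cos β ^ 2 := sq_nonneg _
  have h5 : 0 ≤ Real.sin α ^ 2 := sq_nonneg _
  have h6 : 0 ≤ Real.sin β ^ 2 := sq_nonneg _
  rw [mul_pow]
  have h7 : Real.sin α ^ 2 = 1 - Real.cos α ^ 2 := by linarith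
  have h8 : Real.sin β ^ 2 = 1 - Real.cos β ^ 2 := by linarith
  rw [h7, h8]
  have h9 : Real.cos α ^ 2 ≤ 1 := by linarith
  have h10 : Real.cos β ^ 2 ≤ 1 := by linarith
  nlinarith [mul_nonneg h3 h4, mul_nonneg h3 (sub_nonneg.2 h10), mul_nonneg h4 (sub_nonneg.2 h9)]

theorem norm_zz_le_rho (α β : ℝ) : ‖zz α β‖ ≤ rho α β := by
  apply Real.le_sqrt_of_sq_le
  nlinarith [sq_nonneg (rr α β)]

theorem tau_eq (α β : ℝ) : tau α β = 1 ∨ tau α β = -1 := by
  unfold tau
  split_ifs <;> simp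

theorem zz_add_left (α β : ℝ) : zz (α + 2 * Real.pi) β = zz α β := by
  unfold zz; rw [Real.cos_add_two_pi]
theorem zz_add_right (α β : ℝ) : zz α (β + 2 * Real.pi) = zz α β := by
  unfold zz; rw [Real.cos_add_two_pi]
theorem rr_add_left (α β : ℝ) : rr (α + 2 * Real.pi) β = rr α β := by
  unfold rr; rw [Real.sin_add_two_pi]
theorem rr_add_right (α β : ℝ) : rr α (β + 2 * Real.pi) = rr α β := by
  unfold rr; rw [Real.sin_add_two_pi]
theorem rho_add_left (α β : ℝ) : rho (α + 2 * Real.pi) β = rho α β := by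
  unfold rho; rw [zz_add_left, rr_add_left]
theorem rho_add_right (α β : ℝ) : rho α (β + 2 * Real.pi) = rho α β := by
  unfold rho; rw [zz_add_right, rr_add_right]
theorem tau_add_left (α β : ℝ) : tau (α + 2 * Real.pi) β = tau α β := by
  unfold tau; rw [Real.sin_add_two_pi]
theorem tau_add_right (α β : ℝ) : tau α (β + 2 * Real.pi) = tau α β := by
  unfold tau; rw [Real.sin_add_two_pi]

theorem e3W_add_left (α β : ℝ) : e3W (α + 2 * Real.pi) β = e3W α β := by
  unfold e3W; rw [zz_add_left, rr_add_left, rho_add_left]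
theorem e3W_add_right (α β : ℝ) : e3W α (β + 2 * Real.pi) = e3W α β := by
  unfold e3W; rw [zz_add_right, rr_add_right, rho_add_right]
theorem e3X_add_left (α β : ℝ) : e3X (α + 2 * Real.pi) β = e3X α β := by
  unfold e3X; rw [zz_add_left, rr_add_left, rho_add_left]
theorem e3X_add_right (α β : ℝ) : e3X α (β + 2 * Real.pi) = e3X α β := by
  unfold e3X; rw [zz_add_right, rr_add_right, rho_add_right]
theorem e3Y_add_left (α β : ℝ) : e3Y (α + 2 * Real.pi) β = e3Y α β := by
  unfold e3Y; rw [e3W_add_left, e3X_add_left, rr_add_left, tau_add_left]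
theorem e3Y_add_right (α β : ℝ) : e3Y α (β + 2 * Real.pi) = e3Y α β := by
  unfold e3Y; rw [e3W_add_right, e3X_add_right, rr_add_right, tau_add_right]


/-! ### Continuity -/

/-- the principal square root is continuous on the closed right half plane -/
theorem continuousOn_csqrt : ContinuousOn csqrt {z : ℂ | 0 ≤ z.re} := by
  intro z hz
  unfold csqrt
  by_cases h : z = 0
  · subst h
    refine ContinuousAt.continuousWithinAt ?_
    have h1 : ContinuousAt (fun x : ℂ × ℂ => x.1 ^ x.2) (0, (1 / 2 : ℂ)) :=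
      continuousAt_cpow_zero_of_re_pos (by norm_num)
    exact ContinuousAt.comp (f := fun z : ℂ => (z, (1 / 2 : ℂ))) (x := (0 : ℂ)) h1
      (continuousAt_id.prodMk continuousAt_const)
  · refine ContinuousAt.continuousWithinAt ?_
    refine ContinuousAt.cpow continuousAt_id continuousAt_const ?_
    rcases lt_or_eq_of_le (show (0 : ℝ) ≤ z.re from hz) with h1 | h1
    · exact Or.inl h1
    · right
      intro h2
      exact h (Complex.ext h1.symm h2)

theorem csqrt_of_sq {w z : ℂ} (h : w ^ 2 = z) (hw : 0 < w.re ∨ w = 0) : csqrt z = w := by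
  subst h
  unfold csqrt
  rcases hw with hw | rfl
  · have := sq_cpow_two_inv hw
    rw [show (1 / 2 : ℂ) = 2⁻¹ by norm_num]
    exact this
  · norm_num

theorem zz_conj (α β : ℝ) : (starRingEnd ℂ) (zz α β) =
    (((Real.cos α + Real.cos β) / 2 : ℝ) : ℂ) - (((Real.cos α - Real.cos β) / 2 : ℝ) : ℂ) * I := by
  unfold zz
  rw [map_add, map_mul, conj_ofReal, conj_ofReal, conj_I]
  ring

/-- value of the square root on the edges `sin β = 0` -/
theorem csqrt_edgeB {α β : ℝ} (h : Real.sin β = 0) :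
    csqrt ((rho α β : ℂ) ^ 4 - zz α β ^ 4)
      = (1 + I * Real.cos β * Real.cos α) * ((|Real.sin α| / Real.sqrt 2 : ℝ) : ℂ) ∧
    csqrt ((rho α β : ℂ) ^ 4 - (starRingEnd ℂ) (zz α β) ^ 4)
      = (1 - I * Real.cos β * Real.cos α) * ((|Real.sin α| / Real.sqrt 2 : ℝ) : ℂ) := by
  have hr : rr α β = 0 := by unfold rr; rw [h, mul_zero]
  have hc : Real.cos β ^ 2 = 1 := by
    have := Real.sin_sq_add_cos_sq β
    rw [h] at this; linarith
  have hrho : rho α β ^ 2 = (Real.cos α ^ 2 + 1) / 2 := by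
    rw [rho_sq, hr, norm_zz_sq, hc]; ring
  have hrho' : (rho α β : ℂ) ^ 4 = (((Real.cos α ^ 2 + 1) / 2 : ℝ) : ℂ) ^ 2 := by
    rw [← hrho]; push_cast; ring
  have hs : ((|Real.sin α| / Real.sqrt 2 : ℝ) : ℂ) ^ 2 = (((1 - Real.cos α ^ 2) / 2 : ℝ) : ℂ) := by
    rw [← ofReal_pow, div_pow, sq_abs, Real.sq_sqrt (by norm_num), Real.sin_sq]
  have hc' : (Real.cos β : ℂ) ^ 2 = 1 := by rw [← ofReal_pow, hc, ofReal_one]
  have hI : I ^ 2 = -1 := I_sq
  have hnn : 0 ≤ |Real.sin α| / Real.sqrt 2 := by positivity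
  constructor
  · apply csqrt_of_sq
    · rw [mul_pow, hs, hrho']
      unfold zz
      push_cast
      generalize Complex.cos (α : ℂ) = c at *
      rw [ofReal_cos] at hc'
      generalize Complex.cos (β : ℂ) = k at *
      grind
    · rcases hnn.eq_or_lt with h0 | h0
      · right
        rw [← h0]; simp
      · left
        rw [re_mul_ofReal]
        refine mul_pos ?_ h0
        simp
  · apply csqrt_of_sq
    · rw [mul_pow, hs, hrho', zz_conj]
      push_cast
      generalize Complex.cos (α : ℂ) = c at *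
      rw [ofReal_cos] at hc'
      generalize Complex.cos (β : ℂ) = k at *
      grind
    · rcases hnn.eq_or_lt with h0 | h0
      · right
        rw [← h0]; simp
      · left
        rw [re_mul_ofReal]
        refine mul_pos ?_ h0
        simp

/-- value of the square root on the edges `sin α = 0` -/
theorem csqrt_edgeA {α β : ℝ} (h : Real.sin α = 0) :
    csqrt ((rho α β : ℂ) ^ 4 - zz α β ^ 4)
      = (1 - I * Real.cos α * Real.cos β) * ((|Real.sin β| / Real.sqrt 2 : ℝ) : ℂ) ∧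
    csqrt ((rho α β : ℂ) ^ 4 - (starRingEnd ℂ) (zz α β) ^ 4)
      = (1 + I * Real.cos α * Real.cos β) * ((|Real.sin β| / Real.sqrt 2 : ℝ) : ℂ) := by
  have hr : rr α β = 0 := by unfold rr; rw [h, zero_mul]
  have hc : Real.cos α ^ 2 = 1 := by
    have := Real.sin_sq_add_cos_sq α
    rw [h] at this; linarith
  have hrho : rho α β ^ 2 = (Real.cos β ^ 2 + 1) / 2 := by
    rw [rho_sq, hr, norm_zz_sq, hc]; ring
  have hrho' : (rho α β : ℂ) ^ 4 = (((Real.cos β ^ 2 + 1) / 2 : ℝ) : ℂ) ^ 2 := by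
    rw [← hrho]; push_cast; ring
  have hs : ((|Real.sin β| / Real.sqrt 2 : ℝ) : ℂ) ^ 2 = (((1 - Real.cos β ^ 2) / 2 : ℝ) : ℂ) := by
    rw [← ofReal_pow, div_pow, sq_abs, Real.sq_sqrt (by norm_num), Real.sin_sq]
  have hc' : (Real.cos α : ℂ) ^ 2 = 1 := by rw [← ofReal_pow, hc, ofReal_one]
  have hI : I ^ 2 = -1 := I_sq
  have hnn : 0 ≤ |Real.sin β| / Real.sqrt 2 := by positivity
  constructor
  · apply csqrt_of_sq
    · rw [mul_pow, hs, hrho']
      unfold zz
      push_cast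
      generalize Complex.cos (β : ℂ) = c at *
      rw [ofReal_cos] at hc'
      generalize Complex.cos (α : ℂ) = k at *
      grind
    · rcases hnn.eq_or_lt with h0 | h0
      · right
        rw [← h0]; simp
      · left
        rw [re_mul_ofReal]
        refine mul_pos ?_ h0
        simp
  · apply csqrt_of_sq
    · rw [mul_pow, hs, hrho', zz_conj]
      push_cast
      generalize Complex.cos (β : ℂ) = c at *
      rw [ofReal_cos] at hc'
      generalize Complex.cos (α : ℂ) = k at *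
      grind
    · rcases hnn.eq_or_lt with h0 | h0
      · right
        rw [← h0]; simp
      · left
        rw [re_mul_ofReal]
        refine mul_pos ?_ h0
        simp

/-- gluing factor -/
noncomputable def gl (α β : ℝ) : ℂ := (starRingEnd ℂ) (zz α β) / (rho α β : ℂ)

theorem rho_ne (α β : ℝ) : (rho α β : ℂ) ≠ 0 := by exact_mod_cast (rho_pos α β).ne'

theorem zz_mul_conj {α β : ℝ} (h : rr α β = 0) :
    zz α β * (starRingEnd ℂ) (zz α β) = (rho α β : ℂ) ^ 2 := by
  rw [mul_conj, normSq_eq_norm_sq, ← ofReal_pow, rho_sq, h]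
  congr 1
  ring

theorem gl_ne {α β : ℝ} (h : rr α β = 0) : gl α β ≠ 0 := by
  unfold gl
  refine div_ne_zero ?_ (rho_ne α β)
  intro h0
  have := zz_mul_conj h
  rw [h0, mul_zero] at this
  exact pow_ne_zero 2 (rho_ne α β) this.symm

theorem gl_rho (α β : ℝ) : gl α β * (rho α β : ℂ) = (starRingEnd ℂ) (zz α β) :=
  div_mul_cancel₀ _ (rho_ne α β)

theorem gl_zz {α β : ℝ} (h : rr α β = 0) : gl α β * zz α β = (rho α β : ℂ) := by
  unfold gl
  rw [div_mul_eq_mul_div, mul_comm ((starRingEnd ℂ) (zz α β)), zz_mul_conj h, pow_two,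
    mul_div_assoc, div_self (rho_ne α β), mul_one]

theorem gl_sq {α β : ℝ} : gl α β ^ 2 * (rho α β : ℂ) ^ 2 = (starRingEnd ℂ) (zz α β) ^ 2 := by
  rw [← mul_pow, gl_rho]

theorem edgeB_glue {α β : ℝ} (h : Real.sin β = 0) :
    csqrt ((rho α β : ℂ) ^ 4 - (starRingEnd ℂ) (zz α β) ^ 4)
      = gl α β ^ 2 * (-I * csqrt ((rho α β : ℂ) ^ 4 - zz α β ^ 4)) := by
  obtain ⟨h1, h2⟩ := csqrt_edgeB (α := α) h
  rw [h1, h2]
  have hr : rr α β = 0 := by unfold rr; rw [h, mul_zero]
  have hc : Real.cos β ^ 2 = 1 := by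
    have := Real.sin_sq_add_cos_sq β
    rw [h] at this; linarith
  have hc' : (Real.cos β : ℂ) ^ 2 = 1 := by rw [← ofReal_pow, hc, ofReal_one]
  have hrho : (rho α β : ℂ) ^ 2 = (((Real.cos α ^ 2 + 1) / 2 : ℝ) : ℂ) := by
    rw [← ofReal_pow, rho_sq, hr, norm_zz_sq, hc]; congr 1; ring
  have hI : I ^ 2 = -1 := I_sq
  have hg := gl_sq (α := α) (β := β)
  have hne : (rho α β : ℂ) ^ 2 ≠ 0 := pow_ne_zero 2 (rho_ne α β)
  apply mul_left_cancel₀ hne
  have key : (rho α β : ℂ) ^ 2 * (1 - I * Real.cos β * Real.cos α)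
      = (starRingEnd ℂ) (zz α β) ^ 2 * (-I * (1 + I * Real.cos β * Real.cos α)) := by
    rw [hrho, zz_conj]
    push_cast
    rw [ofReal_cos] at hc'
    generalize Complex.cos (α : ℂ) = c at *
    generalize Complex.cos (β : ℂ) = k at *
    clear h1 h2 hg hrho hne
    grind
  rw [← hg] at key
  linear_combination ((|Real.sin α| / Real.sqrt 2 : ℝ) : ℂ) * key

theorem edgeA_glue {α β : ℝ} (h : Real.sin α = 0) :
    csqrt ((rho α β : ℂ) ^ 4 - (starRingEnd ℂ) (zz α β) ^ 4)
      = gl α β ^ 2 * (I * csqrt ((rho α β : ℂ) ^ 4 - zz α β ^ 4)) := by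
  obtain ⟨h1, h2⟩ := csqrt_edgeA (β := β) h
  rw [h1, h2]
  have hr : rr α β = 0 := by unfold rr; rw [h, zero_mul]
  have hc : Real.cos α ^ 2 = 1 := by
    have := Real.sin_sq_add_cos_sq α
    rw [h] at this; linarith
  have hc' : (Real.cos α : ℂ) ^ 2 = 1 := by rw [← ofReal_pow, hc, ofReal_one]
  have hrho : (rho α β : ℂ) ^ 2 = (((Real.cos β ^ 2 + 1) / 2 : ℝ) : ℂ) := by
    rw [← ofReal_pow, rho_sq, hr, norm_zz_sq, hc]; congr 1; ring
  have hI : I ^ 2 = -1 := I_sq
  have hg := gl_sq (α := α) (β := β)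
  have hne : (rho α β : ℂ) ^ 2 ≠ 0 := pow_ne_zero 2 (rho_ne α β)
  apply mul_left_cancel₀ hne
  have key : (rho α β : ℂ) ^ 2 * (1 + I * Real.cos α * Real.cos β)
      = (starRingEnd ℂ) (zz α β) ^ 2 * (I * (1 - I * Real.cos α * Real.cos β)) := by
    rw [hrho, zz_conj]
    push_cast
    rw [ofReal_cos] at hc'
    generalize Complex.cos (β : ℂ) = c at *
    generalize Complex.cos (α : ℂ) = k at *
    clear h1 h2 hg hrho hne
    grind
  rw [← hg] at key
  linear_combination ((|Real.sin β| / Real.sqrt 2 : ℝ) : ℂ) * key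

/-- the positive coordinate -/
noncomputable def den (α β : ℝ) : ℝ := rho α β + |rr α β|

/-- the two square roots -/
noncomputable def sqA (α β : ℝ) : ℂ := csqrt ((den α β : ℂ) ^ 4 - zz α β ^ 4)
/-- the two square roots -/
noncomputable def sqB (α β : ℝ) : ℂ :=
  csqrt ((den α β : ℂ) ^ 4 - (starRingEnd ℂ) (zz α β) ^ 4)

theorem den_pos (α β : ℝ) : 0 < den α β :=
  add_pos_of_pos_of_nonneg (rho_pos α β) (abs_nonneg _)

theorem den_ne (α β : ℝ) : (den α β : ℂ) ≠ 0 := by exact_mod_cast (den_pos α β).ne'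

theorem continuous_zz : Continuous (fun p : ℝ × ℝ => zz p.1 p.2) := by
  unfold zz
  refine Continuous.add (continuous_ofReal.comp (by fun_prop))
    ((continuous_ofReal.comp (by fun_prop)).mul continuous_const)

theorem continuous_rr : Continuous (fun p : ℝ × ℝ => rr p.1 p.2) := by
  unfold rr; fun_prop

theorem continuous_rho : Continuous (fun p : ℝ × ℝ => rho p.1 p.2) := by
  unfold rho
  exact ((continuous_zz.norm.pow 2).add (continuous_rr.pow 2)).sqrt

theorem continuous_den : Continuous (fun p : ℝ × ℝ => den p.1 p.2) :=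
  continuous_rho.add continuous_rr.abs

theorem re_den_nonneg {d : ℝ} {z : ℂ} (h : ‖z‖ ≤ d) :
    0 ≤ (((d : ℂ) ^ 4 - z ^ 4) : ℂ).re := by
  have h1 : ‖z ^ 4‖ ≤ d ^ 4 := by rw [norm_pow]; exact pow_le_pow_left₀ (norm_nonneg _) h 4
  have h2 := abs_re_le_norm (z ^ 4)
  have h3 := le_abs_self (z ^ 4).re
  have h4 : ((d : ℂ) ^ 4).re = d ^ 4 := by rw [← ofReal_pow, ofReal_re]
  rw [sub_re, h4]; linarith

theorem continuous_sqA : Continuous (fun p : ℝ × ℝ => sqA p.1 p.2) := by
  unfold sqA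
  refine continuousOn_csqrt.comp_continuous ?_ fun p => ?_
  · exact ((continuous_ofReal.comp continuous_den).pow 4).sub (continuous_zz.pow 4)
  · exact re_den_nonneg
      ((norm_zz_le_rho _ _).trans (le_add_of_nonneg_right (abs_nonneg _)))

theorem continuous_sqB : Continuous (fun p : ℝ × ℝ => sqB p.1 p.2) := by
  unfold sqB
  refine continuousOn_csqrt.comp_continuous ?_ fun p => ?_
  · exact ((continuous_ofReal.comp continuous_den).pow 4).sub
      ((continuous_conj.comp continuous_zz).pow 4)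
  · refine re_den_nonneg ?_
    rw [norm_conj]
    exact (norm_zz_le_rho _ _).trans (le_add_of_nonneg_right (abs_nonneg _))

theorem sqA_sq (α β : ℝ) : sqA α β ^ 2 = (den α β : ℂ) ^ 4 - zz α β ^ 4 := csqrt_sq_aux _
theorem sqB_sq (α β : ℝ) :
    sqB α β ^ 2 = (den α β : ℂ) ^ 4 - (starRingEnd ℂ) (zz α β) ^ 4 := csqrt_sq_aux _

/-- rescaling of the third component -/
theorem mk_secCone_eq {b : Param} {y0 y1 W X Y W' X' Y' : ℂ} (h : SecOK b y0 y1 W X Y)
    (h' : SecOK b y0 y1 W' X' Y') {c : ℂ} (hc : c ≠ 0) (hW : W' = c * W) (hX : X' = c * X)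
    (hY : Y' = c ^ 2 * Y) :
    Total.mk (secCone _ _ _ _ _ _ h) = Total.mk (secCone _ _ _ _ _ _ h') := by
  subst hW hX hY
  refine Quotient.sound ⟨rfl, ![1, 1, c], 1, ?_, Or.inl rfl, ?_⟩
  · intro i; fin_cases i <;> simp [hc]
  · intro i; fin_cases i <;> simp [secCone, Cone.W, Cone.X, Cone.Y]

theorem secCone_continuous {Z : Type*} [TopologicalSpace Z] {b : Z → Param}
    {y0 y1 W X Y : Z → ℂ} (hb : Continuous b) (h0 : Continuous y0) (h1 : Continuous y1)
    (hW : Continuous W) (hX : Continuous X) (hY : Continuous Y)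
    (h : ∀ z, SecOK (b z) (y0 z) (y1 z) (W z) (X z) (Y z)) :
    Continuous (fun z => secCone _ _ _ _ _ _ (h z)) := by
  refine Continuous.subtype_mk ?_ _
  refine hb.prodMk (Continuous.prodMk ?_ (Continuous.prodMk ?_ ?_))
  · refine continuous_pi fun i => ?_
    fin_cases i
    · exact continuous_const
    · exact continuous_const
    · exact hW
  · refine continuous_pi fun i => ?_
    fin_cases i
    · exact continuous_const
    · exact continuous_const
    · exact hX
  · refine continuous_pi fun i => ?_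
    fin_cases i
    · exact h0
    · exact h1
    · exact hY

/-- the representative on a face (`first = true`: `|x₂| ≤ 1`) is `secCone` of continuous data -/
theorem face1_ok {b : Param} {y0 y1 W X Y : ℂ} (h : SecOK b y0 y1 W X Y) (α β : ℝ) {ε : ℂ}
    (hε : ε ^ 2 = 1) :
    SecOK b y0 y1 (den α β) (zz α β) (ε * (I * sqA α β)) := by
  refine ⟨h.1, h.2.1, h.2.2.1, Or.inl (den_ne α β), ?_⟩
  rw [mul_pow, mul_pow, hε, I_sq, sqA_sq]; ring

theorem face2_ok {b : Param} {y0 y1 W X Y : ℂ} (h : SecOK b y0 y1 W X Y) (α β : ℝ) {ε : ℂ}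
    (hε : ε ^ 2 = 1) :
    SecOK b y0 y1 ((starRingEnd ℂ) (zz α β)) (den α β) (ε * sqB α β) := by
  refine ⟨h.1, h.2.1, h.2.2.1, Or.inr (den_ne α β), ?_⟩
  rw [mul_pow, hε, sqB_sq]; ring

theorem rr_zero_den {α β : ℝ} (h : rr α β = 0) : den α β = rho α β := by
  unfold den; rw [h, abs_zero, add_zero]

theorem e3_of_nonpos {α β : ℝ} (h : rr α β ≤ 0) :
    e3W α β = (den α β : ℂ) ∧ e3X α β = zz α β ∧ e3Y α β = tau α β * (I * sqA α β) := by
  have h1 : den α β = rho α β - rr α β := by unfold den; rw [abs_of_nonpos h]; ring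
  have hW : e3W α β = (den α β : ℂ) := by unfold e3W; rw [if_pos h, h1]
  have hX : e3X α β = zz α β := by unfold e3X; rw [if_pos h]
  refine ⟨hW, hX, ?_⟩
  unfold e3Y
  rw [if_pos h, hW, hX, mul_assoc]
  rfl

theorem e3_of_pos {α β : ℝ} (h : 0 < rr α β) :
    e3W α β = (starRingEnd ℂ) (zz α β) ∧ e3X α β = (den α β : ℂ) ∧
      e3Y α β = tau α β * sqB α β := by
  have h1 : den α β = rho α β + rr α β := by unfold den; rw [abs_of_pos h]
  have hW : e3W α β = (starRingEnd ℂ) (zz α β) := by unfold e3W; rw [if_neg (not_le.2 h)]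
  have hX : e3X α β = (den α β : ℂ) := by unfold e3X; rw [if_neg (not_le.2 h), h1]
  refine ⟨hW, hX, ?_⟩
  unfold e3Y
  rw [if_neg (not_le.2 h), hW, hX]
  rfl

theorem sqA_edge {α β : ℝ} (h : rr α β = 0) :
    sqA α β = csqrt ((rho α β : ℂ) ^ 4 - zz α β ^ 4) := by unfold sqA; rw [rr_zero_den h]
theorem sqB_edge {α β : ℝ} (h : rr α β = 0) :
    sqB α β = csqrt ((rho α β : ℂ) ^ 4 - (starRingEnd ℂ) (zz α β) ^ 4) := by
  unfold sqB; rw [rr_zero_den h]

theorem sqA_corner {α β : ℝ} (h : Real.sin α = 0) (h' : Real.sin β = 0) : sqA α β = 0 := by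
  have hr : rr α β = 0 := by unfold rr; rw [h, zero_mul]
  rw [sqA_edge hr, (csqrt_edgeA h).1, h']
  simp

theorem sqB_corner {α β : ℝ} (h : Real.sin α = 0) (h' : Real.sin β = 0) : sqB α β = 0 := by
  have hr : rr α β = 0 := by unfold rr; rw [h, zero_mul]
  rw [sqB_edge hr, (csqrt_edgeA h).2, h']
  simp

/-- face `sin α ≤ 0 ≤ sin β` -/
theorem face_mp {α β : ℝ} (h : Real.sin α ≤ 0) (h' : 0 ≤ Real.sin β) :
    ∃ c : ℂ, c ≠ 0 ∧ (den α β : ℂ) = c * e3W α β ∧ zz α β = c * e3X α β ∧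
      1 * (I * sqA α β) = c ^ 2 * e3Y α β := by
  have hr : rr α β ≤ 0 := mul_nonpos_of_nonpos_of_nonneg h h'
  obtain ⟨h1, h2, h3⟩ := e3_of_nonpos hr
  have ht : tau α β = 1 := by
    unfold tau
    rcases h'.eq_or_lt with h0 | h0
    · rw [if_neg (by rw [← h0]; exact lt_irrefl _), if_neg (by rw [← h0]; exact lt_irrefl _),
        if_neg (not_lt.2 h)]
    · rw [if_pos h0]
  exact ⟨1, one_ne_zero, by rw [h1, one_mul], by rw [h2, one_mul], by rw [h3, ht]; ring⟩

/-- face `sin β ≤ 0 ≤ sin α` -/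
theorem face_pm {α β : ℝ} (h : 0 ≤ Real.sin α) (h' : Real.sin β ≤ 0) :
    ∃ c : ℂ, c ≠ 0 ∧ (den α β : ℂ) = c * e3W α β ∧ zz α β = c * e3X α β ∧
      (-1) * (I * sqA α β) = c ^ 2 * e3Y α β := by
  have hr : rr α β ≤ 0 := mul_nonpos_of_nonneg_of_nonpos h h'
  obtain ⟨h1, h2, h3⟩ := e3_of_nonpos hr
  refine ⟨1, one_ne_zero, by rw [h1, one_mul], by rw [h2, one_mul], ?_⟩
  rw [h3, one_pow, one_mul]
  rcases h'.eq_or_lt with h0 | h0
  · rcases h.eq_or_lt with h4 | h4
    · rw [sqA_corner h4.symm h0]; simp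
    · have ht : tau α β = -1 := by
        unfold tau
        rw [h0, if_neg (lt_irrefl _), if_neg (lt_irrefl _), if_pos h4]
      rw [ht]
  · have ht : tau α β = -1 := by
      unfold tau
      rw [if_neg (not_lt.2 h'), if_pos h0]
    rw [ht]

/-- face `0 ≤ sin α, 0 ≤ sin β` -/
theorem face_pp {α β : ℝ} (h : 0 ≤ Real.sin α) (h' : 0 ≤ Real.sin β) :
    ∃ c : ℂ, c ≠ 0 ∧ (starRingEnd ℂ) (zz α β) = c * e3W α β ∧ (den α β : ℂ) = c * e3X α β ∧
      1 * sqB α β = c ^ 2 * e3Y α β := by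
  rcases (mul_nonneg h h').eq_or_lt with hr | hr
  · have hr' : rr α β = 0 := hr.symm
    obtain ⟨h1, h2, h3⟩ := e3_of_nonpos hr'.le
    rw [rr_zero_den hr'] at h1
    refine ⟨gl α β, gl_ne hr', by rw [h1, gl_rho], by rw [h2, gl_zz hr', rr_zero_den hr'], ?_⟩
    rw [h3]
    rcases h.eq_or_lt with h4 | h4
    · rcases h'.eq_or_lt with h5 | h5
      · rw [sqB_corner h4.symm h5.symm, sqA_corner h4.symm h5.symm]; simp
      · have ht : tau α β = 1 := by unfold tau; rw [if_pos h5]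
        rw [ht, sqB_edge hr', sqA_edge hr', edgeA_glue h4.symm]
        ring
    · have h5 : Real.sin β = 0 := by
        rcases mul_eq_zero.1 hr' with h6 | h6
        · exact absurd h6 h4.ne'
        · exact h6
      have ht : tau α β = -1 := by
        unfold tau
        rw [h5, if_neg (lt_irrefl _), if_neg (lt_irrefl _), if_pos h4]
      rw [ht, sqB_edge hr', sqA_edge hr', edgeB_glue h5]
      ring
  · have hr' : 0 < rr α β := hr
    obtain ⟨h1, h2, h3⟩ := e3_of_pos hr'
    have h5 : 0 < Real.sin β := by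
      rcases h'.eq_or_lt with h6 | h6
      · exfalso
        rw [← h6, mul_zero] at hr
        exact lt_irrefl _ hr
      · exact h6
    have ht : tau α β = 1 := by unfold tau; rw [if_pos h5]
    exact ⟨1, one_ne_zero, by rw [h1, one_mul], by rw [h2, one_mul], by rw [h3, ht]; ring⟩

/-- face `sin α ≤ 0, sin β ≤ 0` -/
theorem face_mm {α β : ℝ} (h : Real.sin α ≤ 0) (h' : Real.sin β ≤ 0) :
    ∃ c : ℂ, c ≠ 0 ∧ (starRingEnd ℂ) (zz α β) = c * e3W α β ∧ (den α β : ℂ) = c * e3X α β ∧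
      (-1) * sqB α β = c ^ 2 * e3Y α β := by
  rcases (mul_nonneg_of_nonpos_of_nonpos h h').eq_or_lt with hr | hr
  · have hr' : rr α β = 0 := hr.symm
    obtain ⟨h1, h2, h3⟩ := e3_of_nonpos hr'.le
    rw [rr_zero_den hr'] at h1
    refine ⟨gl α β, gl_ne hr', by rw [h1, gl_rho], by rw [h2, gl_zz hr', rr_zero_den hr'], ?_⟩
    rw [h3]
    rcases h.eq_or_lt with h4 | h4
    · rcases h'.eq_or_lt with h5 | h5
      · rw [sqB_corner h4 h5, sqA_corner h4 h5]; simp
      · have ht : tau α β = -1 := by unfold tau; rw [if_neg (not_lt.2 h'), if_pos h5]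
        rw [ht, sqB_edge hr', sqA_edge hr', edgeA_glue h4]
        ring
    · have h5 : Real.sin β = 0 := by
        rcases mul_eq_zero.1 hr' with h6 | h6
        · exact absurd h6 h4.ne
        · exact h6
      have ht : tau α β = 1 := by
        unfold tau
        rw [h5, if_neg (lt_irrefl _), if_neg (lt_irrefl _), if_neg (not_lt.2 h)]
      rw [ht, sqB_edge hr', sqA_edge hr', edgeB_glue h5]
      ring
  · have hr' : 0 < rr α β := hr
    obtain ⟨h1, h2, h3⟩ := e3_of_pos hr'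
    have h5 : Real.sin β < 0 := by
      rcases h'.eq_or_lt with h6 | h6
      · exfalso
        rw [h6, mul_zero] at hr
        exact lt_irrefl _ hr
      · exact h6
    have ht : tau α β = -1 := by unfold tau; rw [if_neg (not_lt.2 h'), if_pos h5]
    exact ⟨1, one_ne_zero, by rw [h1, one_mul], by rw [h2, one_mul],
      by rw [h3, ht, one_pow, one_mul]⟩

/-- The class of the point is continuous in all data (the representatives jump, the class does
not). -/
theorem sec_continuous {Z : Type*} [TopologicalSpace Z] {b : Z → Param} {y0 y1 : Z → ℂ}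
    {α β : Z → ℝ} (hb : Continuous b) (h0 : Continuous y0) (h1 : Continuous y1)
    (hα : Continuous α) (hβ : Continuous β)
    (h : ∀ z, SecOK (b z) (y0 z) (y1 z) (e3W (α z) (β z)) (e3X (α z) (β z)) (e3Y (α z) (β z))) :
    Continuous (fun z => Total.mk (secCone _ _ _ _ _ _ (h z))) := by
  have hαβ : Continuous (fun z => (α z, β z)) := hα.prodMk hβ
  have cz : Continuous (fun z => zz (α z) (β z)) :=
    Continuous.comp (g := fun p : ℝ × ℝ => zz p.1 p.2) (f := fun z => (α z, β z))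
      continuous_zz hαβ
  have cd : Continuous (fun z => (den (α z) (β z) : ℂ)) :=
    continuous_ofReal.comp (Continuous.comp (g := fun p : ℝ × ℝ => den p.1 p.2)
      (f := fun z => (α z, β z)) continuous_den hαβ)
  have cA : Continuous (fun z => sqA (α z) (β z)) :=
    Continuous.comp (g := fun p : ℝ × ℝ => sqA p.1 p.2) (f := fun z => (α z, β z))
      continuous_sqA hαβ
  have cB : Continuous (fun z => sqB (α z) (β z)) :=
    Continuous.comp (g := fun p : ℝ × ℝ => sqB p.1 p.2) (f := fun z => (α z, β z))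
      continuous_sqB hαβ
  have sα : Continuous (fun z => Real.sin (α z)) := Real.continuous_sin.comp hα
  have sβ : Continuous (fun z => Real.sin (β z)) := Real.continuous_sin.comp hβ
  have cl : ∀ f : Z → ℝ, Continuous f → IsClosed {z | 0 ≤ f z} := fun f hf =>
    isClosed_le continuous_const hf
  have cl' : ∀ f : Z → ℝ, Continuous f → IsClosed {z | f z ≤ 0} := fun f hf =>
    isClosed_le hf continuous_const
  have one1 : (1 : ℂ) ^ 2 = 1 := one_pow 2
  have mone : (-1 : ℂ) ^ 2 = 1 := by norm_num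
  have K : ∀ (s : Set Z) (W X Y : Z → ℂ) (_ : Continuous W) (_ : Continuous X) (_ : Continuous Y)
      (h' : ∀ z, SecOK (b z) (y0 z) (y1 z) (W z) (X z) (Y z))
      (_ : ∀ z ∈ s, ∃ c : ℂ, c ≠ 0 ∧ W z = c * e3W (α z) (β z) ∧ X z = c * e3X (α z) (β z) ∧
        Y z = c ^ 2 * e3Y (α z) (β z)),
      ContinuousOn (fun z => Total.mk (secCone _ _ _ _ _ _ (h z))) s := by
    intro s W X Y hW hX hY h' H
    have C : Continuous (fun z => Total.mk (secCone _ _ _ _ _ _ (h' z))) :=
      mk_continuous.comp (secCone_continuous hb h0 h1 hW hX hY h')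
    refine C.continuousOn.congr fun z hz => ?_
    obtain ⟨c, hc, e1, e2, e3⟩ := H z hz
    exact mk_secCone_eq (h z) (h' z) hc e1 e2 e3
  have k1 := K ({z | Real.sin (α z) ≤ 0} ∩ {z | 0 ≤ Real.sin (β z)}) _ _ _ cd cz
    (continuous_const.mul (continuous_const.mul cA)) (fun z => face1_ok (h z) (α z) (β z) one1)
    (fun z hz => face_mp hz.1 hz.2)
  have k2 := K ({z | 0 ≤ Real.sin (α z)} ∩ {z | Real.sin (β z) ≤ 0}) _ _ _ cd cz
    (continuous_const.mul (continuous_const.mul cA)) (fun z => face1_ok (h z) (α z) (β z) mone)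
    (fun z hz => face_pm hz.1 hz.2)
  have k3 := K ({z | 0 ≤ Real.sin (α z)} ∩ {z | 0 ≤ Real.sin (β z)}) _ _ _
    (continuous_conj.comp cz) cd (continuous_const.mul cB)
    (fun z => face2_ok (h z) (α z) (β z) one1) (fun z hz => face_pp hz.1 hz.2)
  have k4 := K ({z | Real.sin (α z) ≤ 0} ∩ {z | Real.sin (β z) ≤ 0}) _ _ _
    (continuous_conj.comp cz) cd (continuous_const.mul cB)
    (fun z => face2_ok (h z) (α z) (β z) mone) (fun z hz => face_mm hz.1 hz.2)
  have c1 := (cl' _ sα).inter (cl _ sβ)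
  have c2 := (cl _ sα).inter (cl' _ sβ)
  have c3 := (cl _ sα).inter (cl _ sβ)
  have c4 := (cl' _ sα).inter (cl' _ sβ)
  have k := ((k1.union_of_isClosed k2 c1 c2).union_of_isClosed
    (k3.union_of_isClosed k4 c3 c4) (c1.union c2) (c3.union c4))
  rw [← continuousOn_univ]
  refine k.mono ?_
  intro z _
  rcases le_total (Real.sin (α z)) 0 with ha | ha <;>
    rcases le_total (Real.sin (β z)) 0 with hb' | hb'
  · exact Or.inr (Or.inr ⟨ha, hb'⟩)
  · exact Or.inl (Or.inl ⟨ha, hb'⟩)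
  · exact Or.inl (Or.inr ⟨ha, hb'⟩)
  · exact Or.inr (Or.inl ⟨ha, hb'⟩)

/-! ### The two axis loops -/

/-- the loop `A` (`β = 0`) -/
theorem e3_loopA (α : ℝ) :
    e3W α 0 = (Real.sqrt ((Real.cos α ^ 2 + 1) / 2) : ℝ) ∧
    e3X α 0 = (((Real.cos α + 1) / 2 : ℝ) : ℂ) + (((Real.cos α - 1) / 2 : ℝ) : ℂ) * I ∧
    e3Y α 0 = ((Real.sin α / Real.sqrt 2 : ℝ) : ℂ) * (Real.cos α - I) := by
  have hr : rr α 0 = 0 := by unfold rr; rw [Real.sin_zero, mul_zero]
  have hrho : rho α 0 = Real.sqrt ((Real.cos α ^ 2 + 1) / 2) := by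
    unfold rho; rw [hr, norm_zz_sq, Real.cos_zero]; congr 1; ring
  obtain ⟨h1, h2, h3⟩ := e3_of_nonpos hr.le
  refine ⟨?_, ?_, ?_⟩
  · rw [h1, rr_zero_den hr, hrho]
  · rw [h2]; unfold zz; rw [Real.cos_zero]
  · rw [h3, sqA_edge hr, (csqrt_edgeB Real.sin_zero).1, Real.cos_zero]
    have hI : I ^ 2 = -1 := I_sq
    rcases lt_or_ge 0 (Real.sin α) with h | h
    · have ht : tau α 0 = -1 := by
        unfold tau
        rw [Real.sin_zero, if_neg (lt_irrefl _), if_neg (lt_irrefl _), if_pos h]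
      rw [ht, abs_of_pos h]
      push_cast
      linear_combination
        (-(Complex.sin α / (Real.sqrt 2 : ℝ) * Complex.cos α)) * hI
    · have ht : tau α 0 = 1 := by
        unfold tau
        rw [Real.sin_zero, if_neg (lt_irrefl _), if_neg (lt_irrefl _), if_neg (not_lt.2 h)]
      rw [ht, abs_of_nonpos h]
      push_cast
      linear_combination
        (-(Complex.sin α / (Real.sqrt 2 : ℝ) * Complex.cos α)) * hI

/-- the loop `B` (`α = 0`) -/
theorem e3_loopB (β : ℝ) :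
    e3W 0 β = (Real.sqrt ((Real.cos β ^ 2 + 1) / 2) : ℝ) ∧
    e3X 0 β = (((1 + Real.cos β) / 2 : ℝ) : ℂ) + (((1 - Real.cos β) / 2 : ℝ) : ℂ) * I ∧
    e3Y 0 β = ((Real.sin β / Real.sqrt 2 : ℝ) : ℂ) * (Real.cos β + I) := by
  have hr : rr 0 β = 0 := by unfold rr; rw [Real.sin_zero, zero_mul]
  have hrho : rho 0 β = Real.sqrt ((Real.cos β ^ 2 + 1) / 2) := by
    unfold rho; rw [hr, norm_zz_sq, Real.cos_zero]; congr 1; ring
  obtain ⟨h1, h2, h3⟩ := e3_of_nonpos hr.le
  refine ⟨?_, ?_, ?_⟩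
  · rw [h1, rr_zero_den hr, hrho]
  · rw [h2]; unfold zz; rw [Real.cos_zero]
  · rw [h3, sqA_edge hr, (csqrt_edgeA Real.sin_zero).1, Real.cos_zero]
    have hI : I ^ 2 = -1 := I_sq
    rcases lt_trichotomy 0 (Real.sin β) with h | h | h
    · have ht : tau 0 β = 1 := by unfold tau; rw [if_pos h]
      rw [ht, abs_of_pos h]
      push_cast
      linear_combination
        (-(Complex.sin β / (Real.sqrt 2 : ℝ) * Complex.cos β)) * hI
    · rw [← h]; simp
    · have ht : tau 0 β = -1 := by unfold tau; rw [if_neg (not_lt.2 h.le), if_pos h]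
      rw [ht, abs_of_neg h]
      push_cast
      linear_combination
        (-(Complex.sin β / (Real.sqrt 2 : ℝ) * Complex.cos β)) * hI

end TripleBurger
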