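import Pool.Agent.helper10.K3B.Def
import Pool.Agent.helper81.K3B.Torus

/-!
# The functions on the total space which define the two classes `x`, `y`
-/

namespace TripleBurger

open Complex

/-- principal square root -/
noncomputable def csqrt (z : ℂ) : ℂ := z ^ (1 / 2 : ℂ)

/-- The point `[W : X]` is off the two cuts `[r₁, r₂]`, `[r₃, r₄]`. -/
def OffCuts (r₁ r₂ r₃ r₄ W X : ℂ) : Prop :=
  (X - r₂ * W) / (X - r₁ * W) ∈ slitPlane ∧ (X - r₄ * W) / (X - r₃ * W) ∈ slitPlane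

/-- The branch of `√((X - r₁W)(X - r₂W)(X - r₃W)(X - r₄W))` off the cuts. -/
noncomputable def hfun (r₁ r₂ r₃ r₄ W X : ℂ) : ℂ :=
  (X - r₁ * W) * csqrt ((X - r₂ * W) / (X - r₁ * W)) *
    ((X - r₃ * W) * csqrt ((X - r₄ * W) / (X - r₃ * W)))

open Classical in
/-- The sign of the sheet (`0` on the cuts). -/
noncomputable def sheet (r₁ r₂ r₃ r₄ W X Y : ℂ) : ℚ :=
  if OffCuts r₁ r₂ r₃ r₄ W X then (if Y = hfun r₁ r₂ r₃ r₄ W X then 1 else -1) else 0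

/-- sheet sign of `E₀` for the cuts `[1, s]`, `[-1, s - e]` -/
noncomputable def eps0 (p : Cone) : ℚ :=
  sheet 1 (p.b 0) (-1) (p.b 0 - p.b 1) (p.W 0) (p.X 0) (p.Y 0)

/-- sheet sign of `E₁` for the cuts `[1, t]`, `[-1, t - u]` -/
noncomputable def eps1 (p : Cone) : ℚ :=
  sheet 1 (p.b 2) (-1) (p.b 2 - p.b 3) (p.W 1) (p.X 1) (p.Y 1)

/-- sheet sign of `E₂` for the cuts `[1, -i]`, `[i, -1]` -/
noncomputable def eps2 (p : Cone) : ℚ :=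
  sheet 1 (-I) I (-1) (p.W 2) (p.X 2) (p.Y 2)

/-- sheet sign of `E₂` for the cuts `[1, i]`, `[-1, -i]` -/
noncomputable def eps2' (p : Cone) : ℚ :=
  sheet 1 I (-1) (-I) (p.W 2) (p.X 2) (p.Y 2)

/-- `Re x₀ > Re s - lam Re e` (and `x₀ ≠ ∞`) -/
def Reg0 (lam : ℝ) (p : Cone) : Prop :=
  p.W 0 ≠ 0 ∧ (p.b 0).re - lam * (p.b 1).re < (p.X 0 / p.W 0).re

/-- `Re x₁ > Re t - Re u / 2` and `|x₁| < 2` -/
def Reg1 (p : Cone) : Prop :=
  p.W 1 ≠ 0 ∧ (p.b 2).re - (1 / 2) * (p.b 3).re < (p.X 1 / p.W 1).re ∧ ‖p.X 1 / p.W 1‖ < 2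

/-- `|x₂ - (1 - i)| < 5/4` -/
def Reg2 (p : Cone) : Prop := p.W 2 ≠ 0 ∧ ‖p.X 2 / p.W 2 - (1 - I)‖ < 5 / 4

/-- `|x₂ - (1 + i)| < 5/4` -/
def Reg2' (p : Cone) : Prop := p.W 2 ≠ 0 ∧ ‖p.X 2 / p.W 2 - (1 + I)‖ < 5 / 4

open Classical in
/-- indicator function with rational values -/
noncomputable def ind (P : Prop) : ℚ := if P then 1 else 0

/-- behaviour of `sheet` under rescaling and `±1` (PROVED in module Sheet) -/
def SheetInvariance : Prop :=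
  ∀ (r₁ r₂ r₃ r₄ W X Y c σ : ℂ), c ≠ 0 → (σ = 1 ∨ σ = -1) →
    Y ^ 2 = (X - r₁ * W) * (X - r₂ * W) * (X - r₃ * W) * (X - r₄ * W) →
    sheet r₁ r₂ r₃ r₄ (c * W) (c * X) (σ * (c ^ 2 * Y))
      = (if σ = 1 then 1 else -1) * sheet r₁ r₂ r₃ r₄ W X Y

theorem csqrt_sq_aux (z : ℂ) : csqrt z ^ 2 = z := by
  unfold csqrt
  rw [← Complex.cpow_nat_mul]
  norm_num

theorem csqrt_ne_zero_aux {z : ℂ} (h : z ≠ 0) : csqrt z ≠ 0 := by
  intro h0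
  apply h
  rw [← csqrt_sq_aux z, h0]
  ring

theorem OffCuts.ne {r₁ r₂ r₃ r₄ W X : ℂ} (h : OffCuts r₁ r₂ r₃ r₄ W X) :
    (X - r₁ * W ≠ 0 ∧ X - r₂ * W ≠ 0) ∧ X - r₃ * W ≠ 0 ∧ X - r₄ * W ≠ 0 := by
  have h1 := div_ne_zero_iff.1 (slitPlane_ne_zero h.1)
  have h2 := div_ne_zero_iff.1 (slitPlane_ne_zero h.2)
  exact ⟨⟨h1.2, h1.1⟩, h2.2, h2.1⟩

theorem hfun_sq_aux {r₁ r₂ r₃ r₄ W X : ℂ} (h : OffCuts r₁ r₂ r₃ r₄ W X) :
    hfun r₁ r₂ r₃ r₄ W X ^ 2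
      = (X - r₁ * W) * (X - r₂ * W) * (X - r₃ * W) * (X - r₄ * W) := by
  obtain ⟨⟨h1, h2⟩, h3, h4⟩ := h.ne
  unfold hfun
  rw [mul_pow, mul_pow, mul_pow, csqrt_sq_aux, csqrt_sq_aux]
  field_simp

theorem hfun_ne_zero_aux {r₁ r₂ r₃ r₄ W X : ℂ} (h : OffCuts r₁ r₂ r₃ r₄ W X) :
    hfun r₁ r₂ r₃ r₄ W X ≠ 0 := by
  obtain ⟨⟨h1, h2⟩, h3, h4⟩ := h.ne
  unfold hfun
  exact mul_ne_zero (mul_ne_zero h1 (csqrt_ne_zero_aux (div_ne_zero h2 h1)))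
    (mul_ne_zero h3 (csqrt_ne_zero_aux (div_ne_zero h4 h3)))

theorem ratio_rescale (r r' W X : ℂ) {c : ℂ} (hc : c ≠ 0) :
    (c * X - r * (c * W)) / (c * X - r' * (c * W)) = (X - r * W) / (X - r' * W) := by
  have h1 : c * X - r * (c * W) = c * (X - r * W) := by ring
  have h2 : c * X - r' * (c * W) = c * (X - r' * W) := by ring
  rw [h1, h2, mul_div_mul_left _ _ hc]

theorem offCuts_rescale (r₁ r₂ r₃ r₄ W X : ℂ) {c : ℂ} (hc : c ≠ 0) :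
    OffCuts r₁ r₂ r₃ r₄ (c * W) (c * X) ↔ OffCuts r₁ r₂ r₃ r₄ W X := by
  unfold OffCuts
  rw [ratio_rescale _ _ _ _ hc, ratio_rescale _ _ _ _ hc]

theorem hfun_rescale (r₁ r₂ r₃ r₄ W X : ℂ) {c : ℂ} (hc : c ≠ 0) :
    hfun r₁ r₂ r₃ r₄ (c * W) (c * X) = c ^ 2 * hfun r₁ r₂ r₃ r₄ W X := by
  unfold hfun
  rw [ratio_rescale _ _ _ _ hc, ratio_rescale _ _ _ _ hc]
  ring

theorem sheetInvariance : SheetInvariance := by
  intro r₁ r₂ r₃ r₄ W X Y c σ hc hσ hY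
  unfold sheet
  rw [offCuts_rescale _ _ _ _ _ _ hc]
  by_cases h : OffCuts r₁ r₂ r₃ r₄ W X
  · rw [if_pos h, if_pos h, hfun_rescale _ _ _ _ _ _ hc]
    obtain ⟨u, hu⟩ : ∃ u, u = hfun r₁ r₂ r₃ r₄ W X := ⟨_, rfl⟩
    have hu0 : u ≠ 0 := by rw [hu]; exact hfun_ne_zero_aux h
    have hu2 : u ^ 2 = Y ^ 2 := by rw [hu, hfun_sq_aux h, hY]
    rw [← hu]
    have hc2 : c ^ 2 ≠ 0 := pow_ne_zero 2 hc
    have hor : Y = u ∨ Y = -u := sq_eq_sq_iff_eq_or_eq_neg.1 hu2.symm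
    have hne : u ≠ -u := by
      intro h0
      apply hu0
      have : (2 : ℂ) * u = 0 := by linear_combination h0
      exact (mul_eq_zero.1 this).resolve_left two_ne_zero
    have hn1 : (-1 : ℂ) ≠ 1 := by norm_num
    rcases hσ with rfl | rfl
    · rw [one_mul]
      have h1 : c ^ 2 * Y = c ^ 2 * u ↔ Y = u := mul_right_inj' hc2
      simp only [h1]
      simp
    · have h1 : -1 * (c ^ 2 * Y) = c ^ 2 * u ↔ Y = -u := by
        constructor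
        · intro h0
          have : c ^ 2 * (Y + u) = 0 := by linear_combination -h0
          exact eq_neg_of_add_eq_zero_left ((mul_eq_zero.1 this).resolve_left hc2)
        · rintro rfl
          ring
      simp only [h1]
      rcases hor with h2 | h2
      · rw [h2, if_neg hne, if_neg hn1, if_pos rfl]
        norm_num
      · rw [h2, if_pos rfl, if_neg hn1, if_neg (fun h0 => hne h0.symm)]
        norm_num
  · rw [if_neg h, if_neg h, mul_zero]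

end TripleBurger
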