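import Pool.Agent.helper10.K3B.Rad
import Pool.Agent.helper84.K3B.HomGen

/-!
# K3B module HOM: in one fibre, the loops `A_b`, `B_b` are freely homotopic to their inverses

General statement: `fhom_reverse` (Pool/Agent/helper84/K3B/HomGen.lean).  Here: the explicit
formulas of the torus map on the two axes.
-/

namespace TripleBurger

open Complex K3B

/-- `G` is a free homotopy from the loop `g` to its reverse inside the fibre over `b` -/
def RevHom (b : Param) (g : ℝ → Total) : Prop :=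
  ∃ G : ℝ → ℝ → Total,
    ContinuousOn (fun p : ℝ × ℝ => G p.1 p.2) (Set.Icc 0 1 ×ˢ Set.univ) ∧
    (∀ τ ∈ Set.Icc (0 : ℝ) 1, ∀ t, G τ (t + 1) = G τ t) ∧
    (∀ t, G 0 t = g t) ∧ (∀ t, G 1 t = g (-t)) ∧
    (∀ τ ∈ Set.Icc (0 : ℝ) 1, ∀ t, (G τ t).proj = b)

theorem zz_norm_sq (α β : ℝ) : ‖zz α β‖ ^ 2 =
    ((Real.cos α + Real.cos β) / 2) ^ 2 + ((Real.cos α - Real.cos β) / 2) ^ 2 := by
  rw [← Complex.normSq_eq_norm_sq, Complex.normSq_apply, zz_re, zz_im]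
  ring

theorem zz_continuous : Continuous fun p : ℝ × ℝ => zz p.1 p.2 := by
  unfold zz
  fun_prop

theorem rho_axis {α β : ℝ} (h : rr α β = 0) : rho α β = ‖zz α β‖ := by
  unfold rho
  rw [h]
  rw [zero_pow two_ne_zero, add_zero, Real.sqrt_sq (norm_nonneg _)]

theorem e3W_axis {α β : ℝ} (h : rr α β = 0) : e3W α β = ((‖zz α β‖ : ℝ) : ℂ) := by
  unfold e3W
  rw [if_pos h.le, h, sub_zero, rho_axis h]

theorem e3X_axis {α β : ℝ} (h : rr α β = 0) : e3X α β = zz α β := by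
  unfold e3X
  rw [if_pos h.le]

theorem e3Y_axis {α β : ℝ} (h : rr α β = 0) :
    e3Y α β = tau α β * I * csqrt (((‖zz α β‖ : ℝ) : ℂ) ^ 4 - zz α β ^ 4) := by
  unfold e3Y
  rw [if_pos h.le, e3W_axis h, e3X_axis h]

theorem rr_Ah (α : ℝ) : rr α 0 = 0 := by
  unfold rr
  rw [Real.sin_zero, mul_zero]

theorem rr_Bh (β : ℝ) : rr 0 β = 0 := by
  unfold rr
  rw [Real.sin_zero, zero_mul]

theorem pow4_norm (α β : ℝ) : ((‖zz α β‖ : ℝ) : ℂ) ^ 4 =
    ((((Real.cos α + Real.cos β) / 2) ^ 2 + ((Real.cos α - Real.cos β) / 2) ^ 2 : ℝ) : ℂ) ^ 2 := by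
  rw [← zz_norm_sq]
  push_cast
  ring

theorem diff_A (α : ℝ) : ((‖zz α 0‖ : ℝ) : ℂ) ^ 4 - zz α 0 ^ 4 =
    ((Real.sin α ^ 2 : ℝ) : ℂ) * (((Real.sin α ^ 2 / 2 : ℝ) : ℂ) + (Real.cos α : ℂ) * I) := by
  have hs : Real.sin α ^ 2 = 1 - Real.cos α ^ 2 := Real.sin_sq α
  rw [pow4_norm, hs, Real.cos_zero]
  unfold zz
  rw [Real.cos_zero]
  obtain ⟨c, hc⟩ : ∃ c : ℝ, c = Real.cos α := ⟨_, rfl⟩
  rw [← hc]
  have h2 : (I : ℂ) ^ 2 = -1 := I_sq
  have h3 : (I : ℂ) ^ 3 = -I := by rw [pow_succ, h2]; ring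
  have h4 : (I : ℂ) ^ 4 = 1 := by rw [pow_succ, h3]; linear_combination -h2
  push_cast
  ring_nf
  simp only [h2, h3, h4]
  ring

theorem diff_B (β : ℝ) : ((‖zz 0 β‖ : ℝ) : ℂ) ^ 4 - zz 0 β ^ 4 =
    ((Real.sin β ^ 2 : ℝ) : ℂ) * (((Real.sin β ^ 2 / 2 : ℝ) : ℂ) - (Real.cos β : ℂ) * I) := by
  have hs : Real.sin β ^ 2 = 1 - Real.cos β ^ 2 := Real.sin_sq β
  rw [pow4_norm, hs, Real.cos_zero]
  unfold zz
  rw [Real.cos_zero]
  obtain ⟨c, hc⟩ : ∃ c : ℝ, c = Real.cos β := ⟨_, rfl⟩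
  rw [← hc]
  have h2 : (I : ℂ) ^ 2 = -1 := I_sq
  have h3 : (I : ℂ) ^ 3 = -I := by rw [pow_succ, h2]; ring
  have h4 : (I : ℂ) ^ 4 = 1 := by rw [pow_succ, h3]; linear_combination -h2
  push_cast
  ring_nf
  simp only [h2, h3, h4]
  ring

theorem sqrt_sin_sq (x : ℝ) : Real.sqrt (Real.sin x ^ 2) = |Real.sin x| := Real.sqrt_sq_eq_abs _

theorem tau_A (α : ℝ) : tau α 0 * ((|Real.sin α| : ℝ) : ℂ) = -((Real.sin α : ℝ) : ℂ) := by
  unfold tau
  rw [Real.sin_zero, if_neg (lt_irrefl _), if_neg (lt_irrefl _)]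
  split_ifs with h
  · rw [abs_of_pos h]; ring
  · rw [abs_of_nonpos (not_lt.1 h)]
    push_cast
    ring

theorem tau_B (β : ℝ) : tau 0 β * ((|Real.sin β| : ℝ) : ℂ) = ((Real.sin β : ℝ) : ℂ) := by
  unfold tau
  split_ifs with h h' h''
  · rw [abs_of_pos h]; ring
  · rw [abs_of_neg h']
    push_cast
    ring
  · rw [Real.sin_zero] at h''
    exact absurd h'' (lt_irrefl _)
  · have : Real.sin β = 0 := le_antisymm (not_lt.1 h) (not_lt.1 h')
    rw [this]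
    simp

theorem e3Y_Ah (α : ℝ) : e3Y α 0 = -((Real.sin α : ℝ) : ℂ) * I *
    csqrt (((Real.sin α ^ 2 / 2 : ℝ) : ℂ) + (Real.cos α : ℂ) * I) := by
  rw [e3Y_axis (rr_Ah α), diff_A]
  have h := Pool.Agent.helper84.K3B.csqrt_real_mul (sq_nonneg (Real.sin α))
    (((Real.sin α ^ 2 / 2 : ℝ) : ℂ) + (Real.cos α : ℂ) * I)
  have h' : csqrt (((Real.sin α ^ 2 : ℝ) : ℂ) *
      (((Real.sin α ^ 2 / 2 : ℝ) : ℂ) + (Real.cos α : ℂ) * I)) =
      ((Real.sqrt (Real.sin α ^ 2) : ℝ) : ℂ) *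
      csqrt (((Real.sin α ^ 2 / 2 : ℝ) : ℂ) + (Real.cos α : ℂ) * I) := h
  rw [h', sqrt_sin_sq]
  have h2 := tau_A α
  linear_combination (I * csqrt (((Real.sin α ^ 2 / 2 : ℝ) : ℂ) + (Real.cos α : ℂ) * I)) * h2

theorem e3Y_Bh (β : ℝ) : e3Y 0 β = ((Real.sin β : ℝ) : ℂ) * I *
    csqrt (((Real.sin β ^ 2 / 2 : ℝ) : ℂ) - (Real.cos β : ℂ) * I) := by
  rw [e3Y_axis (rr_Bh β), diff_B]
  have h := Pool.Agent.helper84.K3B.csqrt_real_mul (sq_nonneg (Real.sin β))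
    (((Real.sin β ^ 2 / 2 : ℝ) : ℂ) - (Real.cos β : ℂ) * I)
  have h' : csqrt (((Real.sin β ^ 2 : ℝ) : ℂ) *
      (((Real.sin β ^ 2 / 2 : ℝ) : ℂ) - (Real.cos β : ℂ) * I)) =
      ((Real.sqrt (Real.sin β ^ 2) : ℝ) : ℂ) *
      csqrt (((Real.sin β ^ 2 / 2 : ℝ) : ℂ) - (Real.cos β : ℂ) * I) := h
  rw [h', sqrt_sin_sq]
  have h2 := tau_B β
  linear_combination (I * csqrt (((Real.sin β ^ 2 / 2 : ℝ) : ℂ) - (Real.cos β : ℂ) * I)) * h2

theorem slit_A (x : ℝ) : ((Real.sin x ^ 2 / 2 : ℝ) : ℂ) + (Real.cos x : ℂ) * I ∈ slitPlane := by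
  rw [mem_slitPlane_iff]
  have e1 : (((Real.sin x ^ 2 / 2 : ℝ) : ℂ) + (Real.cos x : ℂ) * I).re = Real.sin x ^ 2 / 2 := by
    rw [add_re, ofReal_re, re_ofReal_mul, I_re, mul_zero, add_zero]
  have e2 : (((Real.sin x ^ 2 / 2 : ℝ) : ℂ) + (Real.cos x : ℂ) * I).im = Real.cos x := by
    rw [add_im, ofReal_im, im_ofReal_mul, I_im, mul_one, zero_add]
  rw [e1, e2]
  by_cases h : Real.cos x = 0
  · left
    have := Real.sin_sq_add_cos_sq x
    rw [h] at this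
    nlinarith
  · exact Or.inr h

theorem slit_B (x : ℝ) : ((Real.sin x ^ 2 / 2 : ℝ) : ℂ) - (Real.cos x : ℂ) * I ∈ slitPlane := by
  rw [mem_slitPlane_iff]
  have e1 : (((Real.sin x ^ 2 / 2 : ℝ) : ℂ) - (Real.cos x : ℂ) * I).re = Real.sin x ^ 2 / 2 := by
    rw [sub_re, ofReal_re, re_ofReal_mul, I_re, mul_zero, sub_zero]
  have e2 : (((Real.sin x ^ 2 / 2 : ℝ) : ℂ) - (Real.cos x : ℂ) * I).im = -Real.cos x := by
    rw [sub_im, ofReal_im, im_ofReal_mul, I_im, mul_one, zero_sub]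
  rw [e1, e2]
  by_cases h : Real.cos x = 0
  · left
    have := Real.sin_sq_add_cos_sq x
    rw [h] at this
    nlinarith
  · exact Or.inr (neg_ne_zero.2 h)

theorem zz_A_ne (α : ℝ) : zz α 0 ≠ 0 := by
  intro h
  have h1 := zz_re α 0
  have h2 := zz_im α 0
  rw [h, zero_re, Real.cos_zero] at h1
  rw [h, zero_im, Real.cos_zero] at h2
  linarith

theorem zz_B_ne (β : ℝ) : zz 0 β ≠ 0 := by
  intro h
  have h1 := zz_re 0 β
  have h2 := zz_im 0 β
  rw [h, zero_re, Real.cos_zero] at h1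
  rw [h, zero_im, Real.cos_zero] at h2
  linarith

theorem csqrt_cont {f : ℝ → ℂ} (hf : Continuous f) (h : ∀ a, f a ∈ slitPlane) :
    Continuous fun a => csqrt (f a) :=
  continuous_iff_continuousAt.2 fun a => (continuousAt_cpow_const (h a)).comp hf.continuousAt

theorem e3Y_A_continuous : Continuous fun α : ℝ => e3Y α 0 := by
  simp only [e3Y_Ah]
  refine Continuous.mul (by fun_prop) (csqrt_cont ?_ slit_A)
  fun_prop

theorem e3Y_B_continuous : Continuous fun β : ℝ => e3Y 0 β := by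
  simp only [e3Y_Bh]
  refine Continuous.mul (by fun_prop) (csqrt_cont ?_ slit_B)
  fun_prop

theorem e3W_A_continuous : Continuous fun α : ℝ => e3W α 0 := by
  have h : (fun α : ℝ => e3W α 0) = fun α : ℝ => ((‖zz α 0‖ : ℝ) : ℂ) :=
    funext fun α => e3W_axis (rr_Ah α)
  rw [h]
  exact Complex.continuous_ofReal.comp
    (zz_continuous.comp (continuous_id.prodMk continuous_const)).norm

theorem e3W_B_continuous : Continuous fun β : ℝ => e3W 0 β := by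
  have h : (fun β : ℝ => e3W 0 β) = fun β : ℝ => ((‖zz 0 β‖ : ℝ) : ℂ) :=
    funext fun β => e3W_axis (rr_Bh β)
  rw [h]
  exact Complex.continuous_ofReal.comp
    (zz_continuous.comp (continuous_const.prodMk continuous_id)).norm

theorem e3X_A_continuous : Continuous fun α : ℝ => e3X α 0 := by
  have h : (fun α : ℝ => e3X α 0) = fun α : ℝ => zz α 0 := funext fun α => e3X_axis (rr_Ah α)
  rw [h]
  exact zz_continuous.comp (continuous_id.prodMk continuous_const)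

theorem e3X_B_continuous : Continuous fun β : ℝ => e3X 0 β := by
  have h : (fun β : ℝ => e3X 0 β) = fun β : ℝ => zz 0 β := funext fun β => e3X_axis (rr_Bh β)
  rw [h]
  exact zz_continuous.comp (continuous_const.prodMk continuous_id)

theorem zz_two_pi_A (t : ℝ) : zz (2 * Real.pi * (t + 1)) 0 = zz (2 * Real.pi * t) 0 := by
  unfold zz
  have : 2 * Real.pi * (t + 1) = 2 * Real.pi * t + 2 * Real.pi := by ring
  rw [this, Real.cos_add_two_pi]

theorem zz_two_pi_B (t : ℝ) : zz 0 (2 * Real.pi * (t + 1)) = zz 0 (2 * Real.pi * t) := by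
  unfold zz
  have : 2 * Real.pi * (t + 1) = 2 * Real.pi * t + 2 * Real.pi := by ring
  rw [this, Real.cos_add_two_pi]

theorem zz_neg_A (t : ℝ) : zz (2 * Real.pi * (-t)) 0 = zz (2 * Real.pi * t) 0 := by
  unfold zz
  have : 2 * Real.pi * (-t) = -(2 * Real.pi * t) := by ring
  rw [this, Real.cos_neg]

theorem zz_neg_B (t : ℝ) : zz 0 (2 * Real.pi * (-t)) = zz 0 (2 * Real.pi * t) := by
  unfold zz
  have : 2 * Real.pi * (-t) = -(2 * Real.pi * t) := by ring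
  rw [this, Real.cos_neg]

theorem quot_im {ω z : ℂ} (hz : z ≠ 0) (h : 0 < (ω * z).im) :
    0 < (ω * (z / ((‖z‖ : ℝ) : ℂ))).im := by
  have hn : 0 < ‖z‖ := norm_pos_iff.2 hz
  have e : ω * (z / ((‖z‖ : ℝ) : ℂ)) = ((‖z‖⁻¹ : ℝ) : ℂ) * (ω * z) := by
    push_cast
    rw [div_eq_inv_mul]
    ring
  rw [e, Complex.im_ofReal_mul]
  positivity

theorem revHom_of_fhom {b : Param} {g : ℝ → Total} (h : FHom b g (fun t => g (-t))) :
    RevHom b g := by
  obtain ⟨G, c, p, h0, h1, hb⟩ := h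
  exact ⟨G, c.continuousOn, fun τ _ t => p τ t, h0, h1, fun τ _ t => hb τ t⟩

theorem revHom_A {F : MvPolynomial (Fin 5) ℂ} {ρ : Fin 5 → ℝ} (hρ : Adm F ρ) (v2 v3 : ℝ) :
    RevHom (bT ρ (2 * Real.pi * v2) (2 * Real.pi * v3)) (fun t => Phi hρ ![t, 0, v2, v3]) := by
  have z0 : (2 * Real.pi * 0 : ℝ) = 0 := mul_zero _
  have cl2 : Continuous fun t : ℝ => 2 * Real.pi * t := continuous_const.mul continuous_id
  refine revHom_of_fhom ?_
  refine fhom_reverse hρ (2 * Real.pi * v2) (2 * Real.pi * v3)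
    (w := fun t => e3W (2 * Real.pi * t) (2 * Real.pi * 0))
    (X := fun t => e3X (2 * Real.pi * t) (2 * Real.pi * 0))
    (Y := fun t => e3Y (2 * Real.pi * t) (2 * Real.pi * 0)) ?_ ?_ ?_ ?_ ?_ ?_ ?_ ?_ ?_ ?_ ?_
    (-1 + I) ?_ (fun t => phi_ok hρ (2 * Real.pi * v2) (2 * Real.pi * v3) (2 * Real.pi * t)
      (2 * Real.pi * 0))
  · rw [z0]; exact e3W_A_continuous.comp cl2
  · rw [z0]; exact e3X_A_continuous.comp cl2
  · rw [z0]; exact e3Y_A_continuous.comp cl2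
  · intro t; simp only [z0]; rw [e3W_axis (rr_Ah _), e3W_axis (rr_Ah _), zz_two_pi_A]
  · intro t; simp only [z0]; rw [e3X_axis (rr_Ah _), e3X_axis (rr_Ah _), zz_two_pi_A]
  · intro t
    simp only [z0]
    have : 2 * Real.pi * (t + 1) = 2 * Real.pi * t + 2 * Real.pi := by ring
    rw [e3Y_Ah, e3Y_Ah, this, Real.cos_add_two_pi, Real.sin_add_two_pi]
  · intro t
    simp only [z0]
    rw [e3W_axis (rr_Ah _), Complex.ofReal_ne_zero, norm_ne_zero_iff]
    exact zz_A_ne _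
  · intro t
    simp only [z0]
    rw [e3W_axis (rr_Ah _), e3X_axis (rr_Ah _), Complex.norm_real, norm_norm]
  · intro t; simp only [z0]; rw [e3W_axis (rr_Ah _), e3W_axis (rr_Ah _), zz_neg_A]
  · intro t; simp only [z0]; rw [e3X_axis (rr_Ah _), e3X_axis (rr_Ah _), zz_neg_A]
  · intro t
    simp only [z0]
    have : 2 * Real.pi * (-t) = -(2 * Real.pi * t) := by ring
    rw [e3Y_Ah, e3Y_Ah, this, Real.cos_neg, Real.sin_neg, neg_sq]
    push_cast
    ring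
  · intro t
    simp only [z0]
    rw [e3W_axis (rr_Ah _), e3X_axis (rr_Ah _)]
    refine quot_im (zz_A_ne _) ?_
    rw [mul_im, zz_re, zz_im, Real.cos_zero]
    simp only [add_re, add_im, neg_re, neg_im, one_re, one_im, I_re, I_im]
    linarith

theorem revHom_B {F : MvPolynomial (Fin 5) ℂ} {ρ : Fin 5 → ℝ} (hρ : Adm F ρ) (v2 v3 : ℝ) :
    RevHom (bT ρ (2 * Real.pi * v2) (2 * Real.pi * v3)) (fun t => Phi hρ ![0, t, v2, v3]) := by
  have z0 : (2 * Real.pi * 0 : ℝ) = 0 := mul_zero _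
  have cl2 : Continuous fun t : ℝ => 2 * Real.pi * t := continuous_const.mul continuous_id
  refine revHom_of_fhom ?_
  refine fhom_reverse hρ (2 * Real.pi * v2) (2 * Real.pi * v3)
    (w := fun t => e3W (2 * Real.pi * 0) (2 * Real.pi * t))
    (X := fun t => e3X (2 * Real.pi * 0) (2 * Real.pi * t))
    (Y := fun t => e3Y (2 * Real.pi * 0) (2 * Real.pi * t)) ?_ ?_ ?_ ?_ ?_ ?_ ?_ ?_ ?_ ?_ ?_
    (1 + I) ?_ (fun t => phi_ok hρ (2 * Real.pi * v2) (2 * Real.pi * v3) (2 * Real.pi * 0)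
      (2 * Real.pi * t))
  · rw [z0]; exact e3W_B_continuous.comp cl2
  · rw [z0]; exact e3X_B_continuous.comp cl2
  · rw [z0]; exact e3Y_B_continuous.comp cl2
  · intro t; simp only [z0]; rw [e3W_axis (rr_Bh _), e3W_axis (rr_Bh _), zz_two_pi_B]
  · intro t; simp only [z0]; rw [e3X_axis (rr_Bh _), e3X_axis (rr_Bh _), zz_two_pi_B]
  · intro t
    simp only [z0]
    have : 2 * Real.pi * (t + 1) = 2 * Real.pi * t + 2 * Real.pi := by ring
    rw [e3Y_Bh, e3Y_Bh, this, Real.cos_add_two_pi, Real.sin_add_two_pi]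
  · intro t
    simp only [z0]
    rw [e3W_axis (rr_Bh _), Complex.ofReal_ne_zero, norm_ne_zero_iff]
    exact zz_B_ne _
  · intro t
    simp only [z0]
    rw [e3W_axis (rr_Bh _), e3X_axis (rr_Bh _), Complex.norm_real, norm_norm]
  · intro t; simp only [z0]; rw [e3W_axis (rr_Bh _), e3W_axis (rr_Bh _), zz_neg_B]
  · intro t; simp only [z0]; rw [e3X_axis (rr_Bh _), e3X_axis (rr_Bh _), zz_neg_B]
  · intro t
    simp only [z0]
    have : 2 * Real.pi * (-t) = -(2 * Real.pi * t) := by ring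
    rw [e3Y_Bh, e3Y_Bh, this, Real.cos_neg, Real.sin_neg, neg_sq]
    push_cast
    ring
  · intro t
    simp only [z0]
    rw [e3W_axis (rr_Bh _), e3X_axis (rr_Bh _)]
    refine quot_im (zz_B_ne _) ?_
    rw [mul_im, zz_re, zz_im, Real.cos_zero]
    simp only [add_re, add_im, one_re, one_im, I_re, I_im]
    linarith

end TripleBurger
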