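import Pool.Agent.helper10.K3B.KeyA

/-!
# K3B module KEY (second part)
-/

namespace TripleBurger

open Complex K3B Topology

variable {F : MvPolynomial (Fin 5) ℂ} {ρ : Fin 5 → ℝ} (hρ : Adm F ρ)

theorem cont_left {X : Type*} [TopologicalSpace X] (G : ℝ → ℝ → X)
    (hG : Continuous (fun z : ℝ × ℝ => G z.1 z.2)) (y : ℝ) : Continuous (fun x => G x y) :=
  hG.comp (continuous_id.prodMk continuous_const)

theorem cont_right {X : Type*} [TopologicalSpace X] (G : ℝ → ℝ → X)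
    (hG : Continuous (fun z : ℝ × ℝ => G z.1 z.2)) (x : ℝ) : Continuous (fun y => G x y) :=
  hG.comp (continuous_const.prodMk continuous_id)

theorem vec_zero (j : Fin 4) (hj : (0 : Fin 4) ≠ j) (hj1 : j ≠ 1) (x y : ℝ) :
    (fun l : Fin 4 => if l = 0 then x else if l = j then y else 0)
      = ![x, 0, if j = 2 then y else 0, if j = 3 then y else 0] := by
  have h : j = 2 ∨ j = 3 := by
    revert hj hj1; revert j; decide
  rcases h with rfl | rfl <;> · funext l; fin_cases l <;> simp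

theorem vec_one (j : Fin 4) (hj : (1 : Fin 4) ≠ j) (hj0 : j ≠ 0) (x y : ℝ) :
    (fun l : Fin 4 => if l = 1 then x else if l = j then y else 0)
      = ![0, x, if j = 2 then y else 0, if j = 3 then y else 0] := by
  have h : j = 2 ∨ j = 3 := by
    revert hj hj0; revert j; decide
  rcases h with rfl | rfl <;> · funext l; fin_cases l <;> simp

/-! ### the loops of `E₂` -/

theorem loopA_slice (j : Fin 4) (hj : (0 : Fin 4) ≠ j) (hj1 : j ≠ 1) (y : ℝ) (ψ : SU F → SU F → ℚ)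
    (hψ : ∃ U ∈ 𝓝 (pU (slice (PhiU hρ) 0 j 0 0 y)), EqOnNear (pU ⁻¹' U) (fun _ _ _ => 0) ψ) :
    Ev (fun m => per1 m (fun x => slice (PhiU hρ) 0 j 0 x y) ψ = 0) := by
  have hval : ∀ x, (slice (PhiU hρ) 0 j 0 x y).1
      = Phi hρ ![x, 0, if j = 2 then y else 0, if j = 3 then y else 0] := by
    intro x
    rw [slicePhi_val hρ 0 j hj, vec_zero j hj hj1]
  have hb' : (pU (slice (PhiU hρ) 0 j 0 0 y)).1
      = bT ρ (2 * Real.pi * (if j = 2 then y else 0)) (2 * Real.pi * (if j = 3 then y else 0)) := by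
    show (slice (PhiU hρ) 0 j 0 0 y).1.proj = _
    rw [hval 0, Phi_proj]
    simp
  have hcont := cont_left _ (slice_continuous hρ 0 j) y
  refine loop_period (pU (slice (PhiU hρ) 0 j 0 0 y)) hcont ?_ ψ hψ
  rw [hb']
  have hfun : (fun t => (slice (PhiU hρ) 0 j 0 t y).1)
      = (fun t => Phi hρ ![t, 0, if j = 2 then y else 0, if j = 3 then y else 0]) := funext hval
  rw [hfun]
  exact revHom_A hρ (if j = 2 then y else 0) (if j = 3 then y else 0)

theorem loopB_slice (j : Fin 4) (hj : (1 : Fin 4) ≠ j) (hj0 : j ≠ 0) (y : ℝ) (ψ : SU F → SU F → ℚ)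
    (hψ : ∃ U ∈ 𝓝 (pU (slice (PhiU hρ) 1 j 0 0 y)), EqOnNear (pU ⁻¹' U) (fun _ _ _ => 0) ψ) :
    Ev (fun m => per1 m (fun x => slice (PhiU hρ) 1 j 0 x y) ψ = 0) := by
  have hval : ∀ x, (slice (PhiU hρ) 1 j 0 x y).1
      = Phi hρ ![0, x, if j = 2 then y else 0, if j = 3 then y else 0] := by
    intro x
    rw [slicePhi_val hρ 1 j hj, vec_one j hj hj0]
  have hb' : (pU (slice (PhiU hρ) 1 j 0 0 y)).1
      = bT ρ (2 * Real.pi * (if j = 2 then y else 0)) (2 * Real.pi * (if j = 3 then y else 0)) := by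
    show (slice (PhiU hρ) 1 j 0 0 y).1.proj = _
    rw [hval 0, Phi_proj]
    simp
  have hcont := cont_left _ (slice_continuous hρ 1 j) y
  refine loop_period (pU (slice (PhiU hρ) 1 j 0 0 y)) hcont ?_ ψ hψ
  rw [hb']
  have hfun : (fun t => (slice (PhiU hρ) 1 j 0 t y).1)
      = (fun t => Phi hρ ![0, t, if j = 2 then y else 0, if j = 3 then y else 0]) := funext hval
  rw [hfun]
  exact revHom_B hρ (if j = 2 then y else 0) (if j = 3 then y else 0)

theorem pU_slice (i j : Fin 4) (hij : i ≠ j) (hi : i = 0 ∨ i = 1) (x y : ℝ) :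
    pU (slice (PhiU hρ) i j 0 x y) = pU (slice (PhiU hρ) i j 0 0 y) := by
  apply Subtype.ext
  show (slice (PhiU hρ) i j 0 x y).1.proj = (slice (PhiU hρ) i j 0 0 y).1.proj
  rw [slicePhi_val hρ i j hij, slicePhi_val hρ i j hij, Phi_proj, Phi_proj]
  rcases hi with rfl | rfl <;> simp

/-- **periods of a locally vanishing cochain** over loop of `E₂` × circle of the base -/
theorem k_mixed (i j : Fin 4) (hij : i ≠ j) (hi : i = 0 ∨ i = 1) (hj : j = 2 ∨ j = 3)
    (k : SU F → SU F → SU F → ℚ) (hk : LocVan k) :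
    Ev (fun m => per2 m (slice (PhiU hρ) i j 0) k = 0) := by
  have hβ := pU_continuous.comp (cont_right _ (slice_continuous hρ i j) 0)
  have h1 : ∀ (y : ℝ) (ψ : SU F → SU F → ℚ), (∃ U ∈ 𝓝 (pU (slice (PhiU hρ) i j 0 0 y)),
      EqOnNear (pU ⁻¹' U) (fun _ _ _ => 0) ψ) →
      Ev (fun m => per1 m (fun x => slice (PhiU hρ) i j 0 x y) ψ = 0) := by
    intro y ψ hψ
    have hj0 : j ≠ 0 := by rcases hj with rfl | rfl <;> decide
    have hj1 : j ≠ 1 := by rcases hj with rfl | rfl <;> decide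
    rcases hi with rfl | rfl
    · exact loopA_slice hρ j hij hj1 y ψ hψ
    · exact loopB_slice hρ j hij hj0 y ψ hψ
  have hps := pU_slice hρ i j hij hi
  have hsc := slice_continuous hρ i j
  have hsl := slice_per_left hρ i j
  have hsr := slice_per_right hρ i j
  clear hi hj hij
  generalize slice (PhiU hρ) i j 0 = G at *
  exact mixed_zero (p := pU) (β := fun y => pU (G 0 y)) hβ G hsc hsl hsr hps k hk h1

theorem k_fibre (k : SU F → SU F → SU F → ℚ) (hk : LocVan k) :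
    Ev (fun m => per2 m (slice (PhiU hρ) 0 1 0) k = 0) := by
  refine fibre_zero (p := pU) (pU (slice (PhiU hρ) 0 1 0 0 0)) _
    (slice_continuous hρ 0 1) (slice_per_left hρ 0 1) (slice_per_right hρ 0 1)
    (fun x y => ?_) k hk
  apply Subtype.ext
  show (slice (PhiU hρ) 0 1 0 x y).1.proj = (slice (PhiU hρ) 0 1 0 0 0).1.proj
  rw [slicePhi_val hρ 0 1 (by decide), slicePhi_val hρ 0 1 (by decide), Phi_proj, Phi_proj]
  simp

/-! ### the key theorem -/

theorem key_nonzero (hρ : Adm F ρ) (k k' : SU F → SU F → SU F → ℚ) (hx : K3B.LZ3 (d2 (xU F)))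
    (hy : K3B.LZ3 (d2 (yU F)))
    (hk : K3B.LZ3 (d2 k)) (hk' : K3B.LZ3 (d2 k')) (hkv : LocVan k) (hkv' : LocVan k')
    (w : SU F → SU F → SU F → SU F → ℚ) :
    ¬ K3B.LZ4 (fun p q r s t =>
      cup22 (fun p q r => xU F p q r + k p q r) (fun p q r => yU F p q r + k' p q r) p q r s t
        - d3 w p q r s t) := by
  have add3 : ∀ c c' : SU F → SU F → SU F → ℚ, K3B.LZ3 (d2 c) → K3B.LZ3 (d2 c') →
      K3B.LZ3 (d2 (fun p q r => c p q r + c' p q r)) := by
    intro c c' h h' P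
    obtain ⟨U, hU, h1⟩ := h P
    obtain ⟨U', hU', h2⟩ := h' P
    refine ⟨U ∩ U', Filter.inter_mem hU hU', fun p hp q hq r hr s hs => ?_⟩
    have a := h1 p hp.1 q hq.1 r hr.1 s hs.1
    have b := h2 p hp.2 q hq.2 r hr.2 s hs.2
    unfold d2 at a b ⊢
    linarith
  refine cup_not_coboundary (PhiU hρ) (PhiU_continuous hρ) (PhiU_per4 hρ) _ _
    (add3 _ _ hx hk) (add3 _ _ hy hk') ?_ w
  intro M hM
  obtain ⟨N1, _, w1⟩ := wind_ep2
  obtain ⟨N2, _, w2⟩ := wind_ep2'
  obtain ⟨N3, _, w3⟩ := wind_ep0 hρ 0 (lam := 1 / 3) (by norm_num) (by norm_num)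
  obtain ⟨N4, _, w4⟩ := wind_ep1 hρ 0
  have ev := (k_fibre hρ k hkv).and ((k_mixed hρ 0 2 (by decide) (by simp) (by simp) k hkv).and
    ((k_mixed hρ 0 3 (by decide) (by simp) (by simp) k hkv).and
    ((k_mixed hρ 1 2 (by decide) (by simp) (by simp) k hkv).and
    ((k_mixed hρ 1 3 (by decide) (by simp) (by simp) k hkv).and
    ((k_fibre hρ k' hkv').and
    ((k_mixed hρ 0 3 (by decide) (by simp) (by simp) k' hkv').and
    (((Ev.of_ge N1 w1).and (Ev.of_ge N2 w2)).and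
      ((Ev.of_ge N3 w3).and (Ev.of_ge N4 w4)))))))))
  obtain ⟨M', hM', h⟩ := ev
  refine ⟨M * M', Nat.mul_pos hM hM', dvd_mul_right _ _, ?_⟩
  obtain ⟨a01, a02, a03, a12, a13, b01, b03, ⟨n1, n2⟩, n3, n4⟩ :=
    h (M * M') (Nat.mul_pos hM hM') (dvd_mul_left _ _)
  simp only [per2_add]
  rw [a01, a02, a03, a12, a13, b01, b03, xU_01, xU_02, xU_03, xU_12, xU_13, yU_01, yU_03]
  simp only [add_zero, zero_mul, mul_zero, sub_zero, zero_add, neg_mul_neg]
  exact mul_ne_zero (mul_ne_zero n1 n3) (mul_ne_zero n2 n4)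

end TripleBurger
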