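import Pool.Agent.helper10.K3B.Fun

/-!
# K3B module SHEET: properties of the sheet function
(`sheetInvariance` itself is in `Fun.lean`)
-/

namespace TripleBurger

open Complex

theorem csqrt_sq (z : ℂ) : csqrt z ^ 2 = z := csqrt_sq_aux z

theorem hfun_sq {r₁ r₂ r₃ r₄ W X : ℂ} (h : OffCuts r₁ r₂ r₃ r₄ W X) :
    hfun r₁ r₂ r₃ r₄ W X ^ 2
      = (X - r₁ * W) * (X - r₂ * W) * (X - r₃ * W) * (X - r₄ * W) := hfun_sq_aux h

theorem hfun_ne_zero {r₁ r₂ r₃ r₄ W X : ℂ} (h : OffCuts r₁ r₂ r₃ r₄ W X) :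
    hfun r₁ r₂ r₃ r₄ W X ≠ 0 := hfun_ne_zero_aux h

theorem continuousAt_csqrt {z : ℂ} (hz : z ∈ slitPlane) : ContinuousAt csqrt z :=
  continuousAt_cpow_const hz

/-- on a point over the complement of the cuts `Y = ± hfun` -/
theorem eq_or_eq_neg_hfun {r₁ r₂ r₃ r₄ W X Y : ℂ} (h : OffCuts r₁ r₂ r₃ r₄ W X)
    (hY : Y ^ 2 = (X - r₁ * W) * (X - r₂ * W) * (X - r₃ * W) * (X - r₄ * W)) :
    Y = hfun r₁ r₂ r₃ r₄ W X ∨ Y = - hfun r₁ r₂ r₃ r₄ W X := by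
  refine sq_eq_sq_iff_eq_or_eq_neg.1 ?_
  rw [hY, hfun_sq h]

/-- the sheet sign off the cuts, as a complex number, is `Y / hfun` -/
theorem sheet_eq_div {r₁ r₂ r₃ r₄ W X Y : ℂ} (h : OffCuts r₁ r₂ r₃ r₄ W X)
    (hY : Y ^ 2 = (X - r₁ * W) * (X - r₂ * W) * (X - r₃ * W) * (X - r₄ * W)) :
    ((sheet r₁ r₂ r₃ r₄ W X Y : ℚ) : ℂ) = Y / hfun r₁ r₂ r₃ r₄ W X := by
  have h0 := hfun_ne_zero h
  have hne : - hfun r₁ r₂ r₃ r₄ W X ≠ hfun r₁ r₂ r₃ r₄ W X := by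
    intro h1
    apply h0
    have : (2 : ℂ) * hfun r₁ r₂ r₃ r₄ W X = 0 := by linear_combination -h1
    exact (mul_eq_zero.1 this).resolve_left two_ne_zero
  unfold sheet
  rw [if_pos h]
  rcases eq_or_eq_neg_hfun h hY with h1 | h1
  · rw [if_pos h1, h1, div_self h0]
    norm_num
  · rw [h1, if_neg hne, neg_div, div_self h0]
    norm_num

/-- the sheet sign is locally constant off the cuts, in all variables (including the branch
points) -/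
theorem sheet_locConst {Z : Type*} [TopologicalSpace Z] {r₁ r₂ r₃ r₄ W X Y : Z → ℂ}
    (h1 : Continuous r₁) (h2 : Continuous r₂) (h3 : Continuous r₃) (h4 : Continuous r₄)
    (hW : Continuous W) (hX : Continuous X) (hY : Continuous Y)
    (hsq : ∀ z, Y z ^ 2 = (X z - r₁ z * W z) * (X z - r₂ z * W z) *
      (X z - r₃ z * W z) * (X z - r₄ z * W z))
    (z₀ : Z) (h0 : OffCuts (r₁ z₀) (r₂ z₀) (r₃ z₀) (r₄ z₀) (W z₀) (X z₀)) :
    ∃ V : Set Z, IsOpen V ∧ z₀ ∈ V ∧ ∀ z ∈ V,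
      OffCuts (r₁ z) (r₂ z) (r₃ z) (r₄ z) (W z) (X z) ∧
      sheet (r₁ z) (r₂ z) (r₃ z) (r₄ z) (W z) (X z) (Y z)
        = sheet (r₁ z₀) (r₂ z₀) (r₃ z₀) (r₄ z₀) (W z₀) (X z₀) (Y z₀) := by
  obtain ⟨⟨n1, n2⟩, n3, n4⟩ := h0.ne
  have c1 : ContinuousAt (fun z => X z - r₁ z * W z) z₀ := (hX.sub (h1.mul hW)).continuousAt
  have c2 : ContinuousAt (fun z => X z - r₂ z * W z) z₀ := (hX.sub (h2.mul hW)).continuousAt
  have c3 : ContinuousAt (fun z => X z - r₃ z * W z) z₀ := (hX.sub (h3.mul hW)).continuousAt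
  have c4 : ContinuousAt (fun z => X z - r₄ z * W z) z₀ := (hX.sub (h4.mul hW)).continuousAt
  have d1 : ContinuousAt (fun z => (X z - r₂ z * W z) / (X z - r₁ z * W z)) z₀ := c2.div c1 n1
  have d2 : ContinuousAt (fun z => (X z - r₄ z * W z) / (X z - r₃ z * W z)) z₀ := c4.div c3 n3
  have e1 : ∀ᶠ z in nhds z₀, (X z - r₂ z * W z) / (X z - r₁ z * W z) ∈ slitPlane :=
    d1.eventually_mem (isOpen_slitPlane.mem_nhds h0.1)
  have e2 : ∀ᶠ z in nhds z₀, (X z - r₄ z * W z) / (X z - r₃ z * W z) ∈ slitPlane :=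
    d2.eventually_mem (isOpen_slitPlane.mem_nhds h0.2)
  have ch : ContinuousAt (fun z => hfun (r₁ z) (r₂ z) (r₃ z) (r₄ z) (W z) (X z)) z₀ := by
    unfold hfun
    exact (c1.mul (ContinuousAt.comp (g := csqrt) (continuousAt_csqrt h0.1) d1)).mul
      (c3.mul (ContinuousAt.comp (g := csqrt) (continuousAt_csqrt h0.2) d2))
  have cq : ContinuousAt (fun z => Y z / hfun (r₁ z) (r₂ z) (r₃ z) (r₄ z) (W z) (X z)) z₀ :=
    hY.continuousAt.div ch (hfun_ne_zero h0)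
  have e3 := Metric.tendsto_nhds.1 cq 1 one_pos
  obtain ⟨V, hV, hVo, hz⟩ := eventually_nhds_iff.1 (e1.and (e2.and e3))
  refine ⟨V, hVo, hz, fun z hzV => ?_⟩
  obtain ⟨k1, k2, k3⟩ := hV z hzV
  have hoff : OffCuts (r₁ z) (r₂ z) (r₃ z) (r₄ z) (W z) (X z) := ⟨k1, k2⟩
  refine ⟨hoff, ?_⟩
  beta_reduce at k3
  rw [← sheet_eq_div hoff (hsq z), ← sheet_eq_div h0 (hsq z₀)] at k3
  have hval : ∀ {a b c d w x y : ℂ}, OffCuts a b c d w x →
      sheet a b c d w x y = 1 ∨ sheet a b c d w x y = -1 := by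
    intro a b c d w x y hh
    unfold sheet
    rw [if_pos hh]
    split_ifs
    · exact Or.inl rfl
    · exact Or.inr rfl
  rcases hval (y := Y z) hoff with p1 | p1 <;> rcases hval (y := Y z₀) h0 with p2 | p2
  · rw [p1, p2]
  · exfalso
    rw [p1, p2, dist_eq_norm] at k3
    norm_num at k3
  · exfalso
    rw [p1, p2, dist_eq_norm] at k3
    norm_num at k3
  · rw [p1, p2]

end TripleBurger
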