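import Pool.Agent.helper10.K3B.WindDef
import Pool.Agent.helper10.K3B.Sheet

/-!
# K3B module WIND: the four one-dimensional sums

`wsum e i m = ∑_{j<m} e(j/m) (i((j+1)/m) - i(j/m))`.
-/

namespace TripleBurger

open Complex K3B

/-- winding sum of the pair (sheet sign `e`, indicator `i`) over the grid of the circle -/
noncomputable def wsum (e i : ℝ → ℚ) (m : ℕ) : ℚ :=
  ∑ j ∈ Finset.range m, e ((j : ℝ) / m) * (i (((j : ℝ) + 1) / m) - i ((j : ℝ) / m))

/-- general lemma: `i = A` on `(-c, c)`, `i = B` on `(c, 1 - c)`, `i` 1-periodic,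
`e = η` near `c`, `e = -η` near `-c` (mod 1). -/
theorem wsum_two_jumps (e i : ℝ → ℚ) (c : ℝ) (hc0 : 0 < c) (hc1 : c < 1 / 2) (A B η : ℚ)
    (hi : ∀ t, i (t + 1) = i t) (he : ∀ t, e (t + 1) = e t)
    (hA : ∀ t, |t| < c → i t = A) (hB : ∀ t, c < t → t < 1 - c → i t = B)
    (d : ℝ) (hd : 0 < d) (hη : ∀ t, |t - c| < d → e t = η) (hη' : ∀ t, |t + c| < d → e t = -η) :
    ∃ N0 : ℕ, 0 < N0 ∧ ∀ m ≥ N0, wsum e i m = 2 * η * (B - A) := by
  obtain ⟨N, hN⟩ := exists_nat_gt (1 / min d (1 / 2 - c))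
  have hmin : 0 < min d (1 / 2 - c) := lt_min hd (by linarith)
  refine ⟨N + 1, Nat.succ_pos _, fun m hm => ?_⟩
  have hmN : (N : ℝ) < m := by exact_mod_cast hm
  have hm0 : (0 : ℝ) < m := lt_of_le_of_lt (Nat.cast_nonneg _) hmN
  have hm0' : 0 < m := by exact_mod_cast hm0
  have h1m : 1 / (m : ℝ) < min d (1 / 2 - c) := by
    rw [div_lt_iff₀ hmin] at hN
    rw [div_lt_iff₀ hm0]
    nlinarith
  have h1d : 1 / (m : ℝ) < d := lt_of_lt_of_le h1m (min_le_left _ _)
  have h1c : 1 / (m : ℝ) < 1 / 2 - c := lt_of_lt_of_le h1m (min_le_right _ _)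
  -- the middle index
  set p : ℕ := m / 2 with hp
  have hpm : p ≤ m := Nat.div_le_self _ _
  have hp2 : (p : ℝ) / m ≤ 1 / 2 := by
    rw [div_le_div_iff₀ hm0 two_pos]
    have : p * 2 ≤ m := Nat.div_mul_le_self m 2
    have : ((p * 2 : ℕ) : ℝ) ≤ m := by exact_mod_cast this
    push_cast at this
    linarith
  have hp3 : 1 / 2 - 1 / (m : ℝ) ≤ (p : ℝ) / m := by
    have h3 : m ≤ p * 2 + 1 := by omega
    have h4 : (m : ℝ) ≤ p * 2 + 1 := by exact_mod_cast h3
    rw [sub_le_iff_le_add, ← add_div, div_le_div_iff₀ two_pos hm0]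
    linarith
  have hpc : c < (p : ℝ) / m := by linarith
  have hip : i ((p : ℝ) / m) = B := hB _ hpc (by linarith)
  have hi0 : i ((0 : ℝ) / m) = A := by
    rw [zero_div]; exact hA 0 (by simpa using hc0)
  have hi1 : i ((m : ℝ) / m) = A := by
    rw [div_self hm0.ne', ← zero_add (1 : ℝ), hi]; exact hA 0 (by simpa using hc0)
  have hstep : ∀ j : ℕ, ((j : ℝ) + 1) / m = (j : ℝ) / m + 1 / m := fun j => add_div _ _ _
  have key1 : ∀ j ∈ Finset.range p,
      e ((j : ℝ) / m) * (i (((j : ℝ) + 1) / m) - i ((j : ℝ) / m))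
        = η * (i (((j + 1 : ℕ) : ℝ) / m) - i ((j : ℝ) / m)) := by
    intro j hj
    rw [Finset.mem_range] at hj
    push_cast
    by_cases hnear : |(j : ℝ) / m - c| < d
    · rw [hη _ hnear]
    · have hzero : i (((j : ℝ) + 1) / m) = i ((j : ℝ) / m) := by
        have hj0 : 0 ≤ (j : ℝ) / m := by positivity
        have hjp : ((j : ℝ) + 1) / m ≤ (p : ℝ) / m := by
          have : ((j + 1 : ℕ) : ℝ) ≤ p := by exact_mod_cast hj
          push_cast at this
          gcongr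
        rw [not_lt, le_abs] at hnear
        rw [hstep] at hjp ⊢
        have hpos : 0 < 1 / (m : ℝ) := by positivity
        rcases hnear with h | h
        · rw [hB _ (by linarith) (by linarith), hB _ (by linarith) (by linarith)]
        · rw [hA _ (by rw [abs_lt]; constructor <;> linarith),
            hA _ (by rw [abs_lt]; constructor <;> linarith)]
      rw [hzero]; ring
  have key2 : ∀ j ∈ Finset.Ico p m,
      e ((j : ℝ) / m) * (i (((j : ℝ) + 1) / m) - i ((j : ℝ) / m))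
        = (-η) * (i (((j + 1 : ℕ) : ℝ) / m) - i ((j : ℝ) / m)) := by
    intro j hj
    rw [Finset.mem_Ico] at hj
    push_cast
    by_cases hnear : |(j : ℝ) / m - 1 + c| < d
    · have h1 : e ((j : ℝ) / m) = -η := by
        have h2 := he ((j : ℝ) / m - 1)
        rw [sub_add_cancel] at h2
        rw [h2]
        exact hη' _ hnear
      rw [h1]
    · have hzero : i (((j : ℝ) + 1) / m) = i ((j : ℝ) / m) := by
        have hpj : (p : ℝ) / m ≤ (j : ℝ) / m := by
          have : (p : ℝ) ≤ j := by exact_mod_cast hj.1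
          gcongr
        have hjm : ((j : ℝ) + 1) / m ≤ 1 := by
          rw [div_le_one hm0]
          exact_mod_cast hj.2
        rw [not_lt, le_abs] at hnear
        rw [hstep] at hjm ⊢
        have hpos : 0 < 1 / (m : ℝ) := by positivity
        rcases hnear with h | h
        · have e1 : i ((j : ℝ) / m) = A := by
            have h2 := hi ((j : ℝ) / m - 1)
            rw [sub_add_cancel] at h2
            rw [h2]
            exact hA _ (by rw [abs_lt]; constructor <;> linarith)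
          have e2 : i ((j : ℝ) / m + 1 / m) = A := by
            have h2 := hi ((j : ℝ) / m + 1 / m - 1)
            rw [sub_add_cancel] at h2
            rw [h2]
            exact hA _ (by rw [abs_lt]; constructor <;> linarith)
          rw [e1, e2]
        · rw [hB _ (by linarith) (by linarith), hB _ (by linarith) (by linarith)]
      rw [hzero]; ring
  unfold wsum
  rw [← Finset.sum_range_add_sum_Ico _ hpm, Finset.sum_congr rfl key1, Finset.sum_congr rfl key2,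
    ← Finset.mul_sum, ← Finset.mul_sum]
  have t1 : ∑ j ∈ Finset.range p, (i (((j + 1 : ℕ) : ℝ) / m) - i ((j : ℝ) / m)) = B - A := by
    rw [Finset.sum_range_sub (fun j : ℕ => i ((j : ℝ) / m)) p, hip]
    simp only [Nat.cast_zero]
    rw [hi0]
  have t2 : ∑ j ∈ Finset.Ico p m, (i (((j + 1 : ℕ) : ℝ) / m) - i ((j : ℝ) / m)) = A - B := by
    rw [Finset.sum_Ico_eq_sub _ hpm, Finset.sum_range_sub (fun j : ℕ => i ((j : ℝ) / m)) m, t1, hi1]
    simp only [Nat.cast_zero]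
    rw [hi0]
    ring
  rw [t1, t2]
  ring

/-! ### the sheet over `x = 0` -/

theorem csqrt_re_pos {z : ℂ} (hz : z ∈ slitPlane) : 0 < (csqrt z).re := by
  have hz0 : z ≠ 0 := slitPlane_ne_zero hz
  have harg : z.arg ≠ Real.pi := (mem_slitPlane_iff_arg.1 hz).1
  have h1 : -Real.pi < z.arg := neg_pi_lt_arg z
  have h2 : z.arg < Real.pi := lt_of_le_of_ne (arg_le_pi z) harg
  unfold csqrt
  rw [cpow_def_of_ne_zero hz0, exp_re]
  have him : (log z * (1 / 2 : ℂ)).im = z.arg / 2 := by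
    have : (log z * (1 / 2 : ℂ)) = ((1 / 2 : ℝ) : ℂ) * log z := by push_cast; ring
    rw [this, im_ofReal_mul, log_im]; ring
  rw [him]
  exact mul_pos (Real.exp_pos _) (Real.cos_pos_of_mem_Ioo ⟨by linarith, by linarith⟩)


theorem sq_im (z : ℂ) : (z ^ 2).im = 2 * z.re * z.im := by
  rw [pow_two, mul_im]; ring

theorem one_sub_div_im (s : ℂ) (e : ℝ) : (1 - (e : ℂ) / s).im = e * s.im / normSq s := by
  rw [sub_im, one_im, div_im, ofReal_re, ofReal_im]; ring

/-- the relation between the three square roots -/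
theorem three_roots (s : ℂ) (e : ℝ) (hs : s ≠ 0) :
    csqrt ((e : ℂ) - s) = I * csqrt s * csqrt (1 - e / s) ∨
      csqrt ((e : ℂ) - s) = -(I * csqrt s * csqrt (1 - e / s)) := by
  refine sq_eq_sq_iff_eq_or_eq_neg.1 ?_
  rw [mul_pow, mul_pow, csqrt_sq, csqrt_sq, csqrt_sq, I_sq]
  field_simp
  ring

theorem mem_slitPlane_of_im {z : ℂ} (h : z.im ≠ 0) : z ∈ slitPlane :=
  mem_slitPlane_iff.2 (Or.inr h)

theorem offCuts_zero {s : ℂ} {e : ℝ} (hs : s.im ≠ 0) :
    OffCuts 1 s (-1) (s - e) 1 0 := by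
  constructor
  · have : ((0 : ℂ) - s * 1) / (0 - 1 * 1) = s := by ring
    rw [this]; exact mem_slitPlane_of_im hs
  · have : ((0 : ℂ) - (s - e) * 1) / (0 - -1 * 1) = (e : ℂ) - s := by ring
    rw [this]
    apply mem_slitPlane_of_im
    rw [sub_im, ofReal_im, zero_sub]
    exact neg_ne_zero.2 hs

theorem hfun_zero (s : ℂ) (e : ℝ) :
    hfun 1 s (-1) (s - e) 1 0 = -(csqrt s * csqrt ((e : ℂ) - s)) := by
  unfold hfun
  have h1 : ((0 : ℂ) - s * 1) / (0 - 1 * 1) = s := by ring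
  have h2 : ((0 : ℂ) - (s - e) * 1) / (0 - -1 * 1) = (e : ℂ) - s := by ring
  rw [h1, h2]
  ring

theorem sheet_zero_pos {s : ℂ} {e : ℝ} (he : 0 < e) (hs : 0 < s.im) :
    sheet 1 s (-1) (s - e) 1 0 (I * s * csqrt (1 - e / s)) = 1 := by
  have hs0 : s ≠ 0 := fun h => by rw [h] at hs; simp at hs
  have hoff := offCuts_zero (e := e) hs.ne'
  unfold sheet
  rw [if_pos hoff, hfun_zero, if_pos]
  have hm : 0 < (1 - (e : ℂ) / s).im := by
    rw [one_sub_div_im]; have := normSq_pos.2 hs0; positivity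
  have hp1 : 0 < (csqrt s).re := csqrt_re_pos (mem_slitPlane_of_im hs.ne')
  have hm1 : 0 < (csqrt (1 - e / s)).re := csqrt_re_pos (mem_slitPlane_of_im hm.ne')
  have hq1 : 0 < (csqrt ((e : ℂ) - s)).re := csqrt_re_pos (mem_slitPlane_of_im (by
    rw [sub_im, ofReal_im, zero_sub]; exact neg_ne_zero.2 hs.ne'))
  have hp2 : 0 < (csqrt s).im := by
    have h := sq_im (csqrt s)
    rw [csqrt_sq] at h
    rw [h] at hs
    by_contra hcon
    nlinarith
  have hm2 : 0 < (csqrt (1 - e / s)).im := by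
    have h := sq_im (csqrt (1 - e / s))
    rw [csqrt_sq] at h
    rw [h] at hm
    by_contra hcon
    nlinarith
  have hps : csqrt s * csqrt s = s := by rw [← pow_two, csqrt_sq]
  rcases three_roots s e hs0 with h | h
  · exfalso
    rw [h] at hq1
    have : (I * csqrt s * csqrt (1 - e / s)).re
        = -((csqrt s).re * (csqrt (1 - e / s)).im + (csqrt s).im * (csqrt (1 - e / s)).re) := by
      rw [mul_assoc, I_mul_re, mul_im]
    rw [this] at hq1
    nlinarith [mul_pos hp1 hm2, mul_pos hp2 hm1]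
  · rw [h]
    calc I * s * csqrt (1 - e / s) = I * (csqrt s * csqrt s) * csqrt (1 - e / s) := by rw [hps]
      _ = _ := by ring

theorem sheet_zero_neg {s : ℂ} {e : ℝ} (he : 0 < e) (hs : s.im < 0) :
    sheet 1 s (-1) (s - e) 1 0 (I * s * csqrt (1 - e / s)) = -1 := by
  have hs0 : s ≠ 0 := fun h => by rw [h] at hs; simp at hs
  have hoff := offCuts_zero (e := e) hs.ne
  have hm : (1 - (e : ℂ) / s).im < 0 := by
    rw [one_sub_div_im]
    have := normSq_pos.2 hs0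
    exact div_neg_of_neg_of_pos (mul_neg_of_pos_of_neg he hs) this
  have hp1 : 0 < (csqrt s).re := csqrt_re_pos (mem_slitPlane_of_im hs.ne)
  have hm1 : 0 < (csqrt (1 - e / s)).re := csqrt_re_pos (mem_slitPlane_of_im hm.ne)
  have hq1 : 0 < (csqrt ((e : ℂ) - s)).re := csqrt_re_pos (mem_slitPlane_of_im (by
    rw [sub_im, ofReal_im, zero_sub]; exact neg_ne_zero.2 hs.ne))
  have hp2 : (csqrt s).im < 0 := by
    have h := sq_im (csqrt s)
    rw [csqrt_sq] at h
    rw [h] at hs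
    by_contra hcon
    nlinarith
  have hm2 : (csqrt (1 - e / s)).im < 0 := by
    have h := sq_im (csqrt (1 - e / s))
    rw [csqrt_sq] at h
    rw [h] at hm
    by_contra hcon
    nlinarith
  have hps : csqrt s * csqrt s = s := by rw [← pow_two, csqrt_sq]
  have hm0 : csqrt (1 - e / s) ≠ 0 := fun h => by rw [h] at hm1; simp at hm1
  unfold sheet
  rw [if_pos hoff, hfun_zero, if_neg]
  rcases three_roots s e hs0 with h | h
  · rw [h]
    intro h1
    have h2 : I * s * csqrt (1 - e / s) = -(I * s * csqrt (1 - e / s)) := by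
      calc I * s * csqrt (1 - e / s) = _ := h1
        _ = -(I * (csqrt s * csqrt s) * csqrt (1 - e / s)) := by ring
        _ = _ := by rw [hps]
    have h3 : (2 : ℂ) * (I * s * csqrt (1 - e / s)) = 0 := by linear_combination h2
    have h4 := (mul_eq_zero.1 h3).resolve_left two_ne_zero
    exact mul_ne_zero (mul_ne_zero I_ne_zero hs0) hm0 h4
  · exfalso
    rw [h] at hq1
    have : (-(I * csqrt s * csqrt (1 - e / s))).re
        = ((csqrt s).re * (csqrt (1 - e / s)).im + (csqrt s).im * (csqrt (1 - e / s)).re) := by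
      rw [neg_re, mul_assoc, I_mul_re, mul_im]; ring
    rw [this] at hq1
    nlinarith [mul_pos hp1 (neg_pos.2 hm2), mul_pos (neg_pos.2 hp2) hm1]


/-! ### elementary facts on the cosine -/

theorem cos_gt_of_abs_lt {θ t : ℝ} (hπ : θ ≤ Real.pi) (ht : |t| < θ / (2 * Real.pi)) :
    Real.cos θ < Real.cos (2 * Real.pi * t) := by
  have hpi := Real.pi_pos
  rw [← Real.cos_abs (2 * Real.pi * t)]
  apply Real.cos_lt_cos_of_nonneg_of_le_pi (abs_nonneg _) hπ
  rw [abs_mul, abs_of_pos (by positivity : (0 : ℝ) < 2 * Real.pi)]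
  rw [lt_div_iff₀ (by positivity)] at ht
  linarith

theorem cos_lt_of_mem {θ t : ℝ} (h0 : 0 ≤ θ) (h1 : θ / (2 * Real.pi) < t)
    (h2 : t < 1 - θ / (2 * Real.pi)) : Real.cos (2 * Real.pi * t) < Real.cos θ := by
  have hpi := Real.pi_pos
  have h2p : (0 : ℝ) < 2 * Real.pi := by positivity
  rcases le_total t (1 / 2) with h | h
  · apply Real.cos_lt_cos_of_nonneg_of_le_pi h0
    · nlinarith
    · rw [div_lt_iff₀ h2p] at h1
      linarith
  · have h3 : Real.cos (2 * Real.pi * t) = Real.cos (2 * Real.pi * (1 - t)) := by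
      rw [← Real.cos_neg, ← Real.cos_add_two_pi]
      congr 1; ring
    rw [h3]
    apply Real.cos_lt_cos_of_nonneg_of_le_pi h0
    · nlinarith
    · have h4 : θ / (2 * Real.pi) < 1 - t := by linarith
      rw [div_lt_iff₀ h2p] at h4
      linarith

theorem sin_pos_of_mem {t : ℝ} (h0 : 0 < t) (h1 : t < 1 / 2) : 0 < Real.sin (2 * Real.pi * t) := by
  have hpi := Real.pi_pos
  apply Real.sin_pos_of_pos_of_lt_pi
  · positivity
  · nlinarith

theorem sin_neg_of_mem {t : ℝ} (h0 : t < 0) (h1 : -(1 / 2) < t) :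
    Real.sin (2 * Real.pi * t) < 0 := by
  have h := sin_pos_of_mem (t := -t) (by linarith) (by linarith)
  rw [mul_neg, Real.sin_neg] at h
  linarith

theorem div_two_pi_lt {θ : ℝ} (h : θ < Real.pi) : θ / (2 * Real.pi) < 1 / 2 := by
  have hpi := Real.pi_pos
  rw [div_lt_div_iff₀ (by positivity) two_pos]
  linarith

/-! ### winding of `ep0`, `ep1` -/

/-- common form of the two statements -/
theorem wind_circle (r : ℝ) (hr : 0 < r) (e : ℝ) (he : 0 < e) (k : ℝ) (hk0 : 0 < k)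
    (hk1 : k < r) (E J : ℝ → ℚ)
    (hE : ∀ t, E t = sheet 1 ((r : ℂ) * exp ((2 * Real.pi * t : ℝ) * I)) (-1)
      ((r : ℂ) * exp ((2 * Real.pi * t : ℝ) * I) - e) 1 0
      (I * ((r : ℂ) * exp ((2 * Real.pi * t : ℝ) * I)) *
        csqrt (1 - e / ((r : ℂ) * exp ((2 * Real.pi * t : ℝ) * I)))))
    (hJ : ∀ t, J t = ind (r * Real.cos (2 * Real.pi * t) - k < 0)) :
    ∃ N0 : ℕ, 0 < N0 ∧ ∀ m ≥ N0, wsum E J m ≠ 0 := by
  have hpi := Real.pi_pos
  have h2p : (0 : ℝ) < 2 * Real.pi := by positivity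
  set θ := Real.arccos (k / r) with hθ
  have hkr0 : 0 < k / r := by positivity
  have hkr1 : k / r < 1 := by rw [div_lt_one hr]; exact hk1
  have hcos : Real.cos θ = k / r := Real.cos_arccos (by linarith) hkr1.le
  have hθ0 : 0 < θ := Real.arccos_pos.2 hkr1
  have hθ1 : θ < Real.pi := by
    have : θ < Real.pi / 2 := Real.arccos_lt_pi_div_two.2 hkr0
    linarith
  set c := θ / (2 * Real.pi) with hc
  have hc0 : 0 < c := by positivity
  have hc1 : c < 1 / 2 := div_two_pi_lt hθ1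
  have him : ∀ t : ℝ, ((r : ℂ) * exp ((2 * Real.pi * t : ℝ) * I)).im
      = r * Real.sin (2 * Real.pi * t) := by
    intro t
    rw [im_ofReal_mul, exp_ofReal_mul_I_im]
  have hper : ∀ t : ℝ, exp ((2 * Real.pi * (t + 1) : ℝ) * I) = exp ((2 * Real.pi * t : ℝ) * I) := by
    intro t
    have : ((2 * Real.pi * (t + 1) : ℝ) : ℂ) * I = ((2 * Real.pi * t : ℝ) : ℂ) * I
        + 2 * Real.pi * I := by push_cast; ring
    rw [this, exp_add, exp_two_pi_mul_I, mul_one]
  obtain ⟨N0, hN0, h⟩ := wsum_two_jumps E J c hc0 hc1 0 1 1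
    (by
      intro t
      rw [hJ, hJ]
      have : Real.cos (2 * Real.pi * (t + 1)) = Real.cos (2 * Real.pi * t) := by
        rw [← Real.cos_add_two_pi (2 * Real.pi * t)]; congr 1; ring
      rw [this])
    (by intro t; rw [hE, hE, hper])
    (by
      intro t ht
      rw [hJ]
      have h1 := cos_gt_of_abs_lt hθ1.le ht
      rw [hcos, div_lt_iff₀ hr] at h1
      unfold ind
      rw [if_neg]
      linarith)
    (by
      intro t ht1 ht2
      rw [hJ]
      have h1 := cos_lt_of_mem hθ0.le ht1 ht2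
      rw [hcos, lt_div_iff₀ hr] at h1
      unfold ind
      rw [if_pos]
      linarith)
    (min c (1 / 2 - c)) (lt_min hc0 (by linarith))
    (by
      intro t ht
      rw [abs_lt] at ht
      have h1 := min_le_left c (1 / 2 - c)
      have h2 := min_le_right c (1 / 2 - c)
      rw [hE]
      apply sheet_zero_pos he
      rw [him]
      exact mul_pos hr (sin_pos_of_mem (by linarith) (by linarith)))
    (by
      intro t ht
      rw [abs_lt] at ht
      have h1 := min_le_left c (1 / 2 - c)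
      have h2 := min_le_right c (1 / 2 - c)
      rw [hE]
      apply sheet_zero_neg he
      rw [him]
      exact mul_neg_of_pos_of_neg hr (sin_neg_of_mem (by linarith) (by linarith)))
  refine ⟨N0, hN0, fun m hm => ?_⟩
  rw [h m hm]
  norm_num

/-- turning `s` -/
theorem wind_ep0 {F : MvPolynomial (Fin 5) ℂ} {ρ : Fin 5 → ℝ} (hρ : Adm F ρ) (θ₂ : ℝ)
    {lam : ℝ} (h0 : 0 < lam) (h1 : lam < 1) : ∃ N0 : ℕ, 0 < N0 ∧ ∀ m ≥ N0,
    wsum (fun t => ep0 (bT ρ (2 * Real.pi * t) θ₂))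
      (fun t => in0 lam (bT ρ (2 * Real.pi * t) θ₂)) m ≠ 0 := by
  have hr0 := hρ.pos 0
  have hr1 := hρ.pos 1
  have hlt := hρ.h1
  refine wind_circle (ρ 0) hr0 (ρ 1) hr1 (lam * ρ 1) (by positivity) (by nlinarith) _ _ ?_ ?_
  · intro t; rfl
  · intro t
    unfold in0
    congr 1
    have e1 : (bT ρ (2 * Real.pi * t) θ₂ 0).re = ρ 0 * Real.cos (2 * Real.pi * t) := by
      show ((ρ 0 : ℂ) * exp ((2 * Real.pi * t : ℝ) * I)).re = _
      rw [re_ofReal_mul, exp_ofReal_mul_I_re]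
    have e2 : (bT ρ (2 * Real.pi * t) θ₂ 1).re = ρ 1 := rfl
    rw [e1, e2]

/-- turning `t` -/
theorem wind_ep1 {F : MvPolynomial (Fin 5) ℂ} {ρ : Fin 5 → ℝ} (hρ : Adm F ρ) (θ₁ : ℝ) :
    ∃ N0 : ℕ, 0 < N0 ∧ ∀ m ≥ N0,
    wsum (fun t => ep1 (bT ρ θ₁ (2 * Real.pi * t)))
      (fun t => in1 (bT ρ θ₁ (2 * Real.pi * t))) m ≠ 0 := by
  have hr0 := hρ.pos 2
  have hr1 := hρ.pos 3
  have hlt := hρ.h3
  refine wind_circle (ρ 2) hr0 (ρ 3) hr1 (1 / 2 * ρ 3) (by positivity) (by nlinarith) _ _ ?_ ?_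
  · intro t; rfl
  · intro t
    unfold in1
    congr 1
    have e1 : (bT ρ θ₁ (2 * Real.pi * t) 2).re = ρ 2 * Real.cos (2 * Real.pi * t) := by
      show ((ρ 2 : ℂ) * exp ((2 * Real.pi * t : ℝ) * I)).re = _
      rw [re_ofReal_mul, exp_ofReal_mul_I_re]
    have e2 : (bT ρ θ₁ (2 * Real.pi * t) 3).re = ρ 3 := rfl
    rw [e1, e2]

/-! ### the axis loops of the torus of `E₂` -/

/-- `√((1 + x²)/2)` -/
noncomputable def wx (x : ℝ) : ℝ := Real.sqrt ((1 + x ^ 2) / 2)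

theorem wx_pos (x : ℝ) : 0 < wx x := Real.sqrt_pos.2 (by positivity)

theorem wx_sq (x : ℝ) : wx x ^ 2 = (1 + x ^ 2) / 2 := Real.sq_sqrt (by positivity)

theorem wx_continuous : Continuous wx := by
  unfold wx; fun_prop

theorem lt_wx {x : ℝ} (h : |x| < 1) : |x| < wx x := by
  apply lt_of_pow_lt_pow_left₀ 2 (wx_pos x).le
  rw [wx_sq, sq_abs]
  have : x ^ 2 < 1 := by
    rw [← sq_abs]; nlinarith [abs_nonneg x]
  linarith

/-- the point `X` of the `B`-loop -/
noncomputable def XB (x : ℝ) : ℂ := (((1 + x) / 2 : ℝ) : ℂ) + (((1 - x) / 2 : ℝ) : ℂ) * I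

/-- the point `X` of the `A`-loop -/
noncomputable def XA (x : ℝ) : ℂ := (((1 + x) / 2 : ℝ) : ℂ) - (((1 - x) / 2 : ℝ) : ℂ) * I

theorem XB_continuous : Continuous XB := by unfold XB; fun_prop
theorem XA_continuous : Continuous XA := by unfold XA; fun_prop

theorem XB_re (x : ℝ) : (XB x).re = (1 + x) / 2 := by simp [XB]
theorem XB_im (x : ℝ) : (XB x).im = (1 - x) / 2 := by simp [XB]
theorem XA_re (x : ℝ) : (XA x).re = (1 + x) / 2 := by simp [XA]
theorem XA_im (x : ℝ) : (XA x).im = -((1 - x) / 2) := by simp [XA]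

theorem zz_B (β : ℝ) : zz 0 β = XB (Real.cos β) := by
  unfold zz XB; rw [Real.cos_zero]

theorem zz_A (α : ℝ) : zz α 0 = XA (Real.cos α) := by
  unfold zz XA; rw [Real.cos_zero]
  apply Complex.ext <;> simp <;> ring

theorem norm_XB_sq (x : ℝ) : ‖XB x‖ ^ 2 = wx x ^ 2 := by
  rw [← normSq_eq_norm_sq, normSq_apply, XB_re, XB_im, wx_sq]; ring

theorem norm_XA_sq (x : ℝ) : ‖XA x‖ ^ 2 = wx x ^ 2 := by
  rw [← normSq_eq_norm_sq, normSq_apply, XA_re, XA_im, wx_sq]; ring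

theorem rr_B (β : ℝ) : rr 0 β = 0 := by unfold rr; simp
theorem rr_A (α : ℝ) : rr α 0 = 0 := by unfold rr; simp

theorem rho_B (β : ℝ) : rho 0 β = wx (Real.cos β) := by
  unfold rho
  rw [rr_B, zz_B, norm_XB_sq]
  norm_num
  exact Real.sqrt_sq (wx_pos _).le

theorem rho_A (α : ℝ) : rho α 0 = wx (Real.cos α) := by
  unfold rho
  rw [rr_A, zz_A, norm_XA_sq]
  norm_num
  exact Real.sqrt_sq (wx_pos _).le

theorem e3W_B (β : ℝ) : e3W 0 β = (wx (Real.cos β) : ℂ) := by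
  unfold e3W; rw [rr_B, if_pos le_rfl, rho_B]; simp

theorem e3X_B (β : ℝ) : e3X 0 β = XB (Real.cos β) := by
  unfold e3X; rw [rr_B, if_pos le_rfl, zz_B]

theorem e3Y_B (β : ℝ) : e3Y 0 β
    = tau 0 β * I * csqrt ((wx (Real.cos β) : ℂ) ^ 4 - XB (Real.cos β) ^ 4) := by
  unfold e3Y; rw [rr_B, if_pos le_rfl, e3W_B, e3X_B]

theorem e3W_A (α : ℝ) : e3W α 0 = (wx (Real.cos α) : ℂ) := by
  unfold e3W; rw [rr_A, if_pos le_rfl, rho_A]; simp

theorem e3X_A (α : ℝ) : e3X α 0 = XA (Real.cos α) := by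
  unfold e3X; rw [rr_A, if_pos le_rfl, zz_A]

theorem e3Y_A (α : ℝ) : e3Y α 0
    = tau α 0 * I * csqrt ((wx (Real.cos α) : ℂ) ^ 4 - XA (Real.cos α) ^ 4) := by
  unfold e3Y; rw [rr_A, if_pos le_rfl, e3W_A, e3X_A]

theorem diff_XB (x : ℝ) : (wx x : ℂ) ^ 4 - XB x ^ 4
    = (((1 - x ^ 2) ^ 2 / 2 : ℝ) : ℂ) - ((x * (1 - x ^ 2) : ℝ) : ℂ) * I := by
  have h1 : (wx x : ℂ) ^ 2 = (((1 + x ^ 2) / 2 : ℝ) : ℂ) := by rw [← wx_sq]; push_cast; rfl
  have h2 : XB x ^ 2 = (x : ℂ) + (((1 - x ^ 2) / 2 : ℝ) : ℂ) * I := by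
    unfold XB; push_cast; linear_combination ((1 - (x : ℂ)) / 2) ^ 2 * I_sq
  have h3 : (wx x : ℂ) ^ 4 - XB x ^ 4 = ((wx x : ℂ) ^ 2) ^ 2 - (XB x ^ 2) ^ 2 := by ring
  rw [h3, h1, h2]; push_cast
  linear_combination (-((1 - (x : ℂ) ^ 2) / 2) ^ 2) * I_sq

theorem diff_XA (x : ℝ) : (wx x : ℂ) ^ 4 - XA x ^ 4
    = (((1 - x ^ 2) ^ 2 / 2 : ℝ) : ℂ) + ((x * (1 - x ^ 2) : ℝ) : ℂ) * I := by
  have h1 : (wx x : ℂ) ^ 2 = (((1 + x ^ 2) / 2 : ℝ) : ℂ) := by rw [← wx_sq]; push_cast; rfl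
  have h2 : XA x ^ 2 = (x : ℂ) - (((1 - x ^ 2) / 2 : ℝ) : ℂ) * I := by
    unfold XA; push_cast; linear_combination ((1 - (x : ℂ)) / 2) ^ 2 * I_sq
  have h3 : (wx x : ℂ) ^ 4 - XA x ^ 4 = ((wx x : ℂ) ^ 2) ^ 2 - (XA x ^ 2) ^ 2 := by ring
  rw [h3, h1, h2]; push_cast
  linear_combination (-((1 - (x : ℂ) ^ 2) / 2) ^ 2) * I_sq

theorem sq_lt_one_of_abs {x : ℝ} (h : |x| < 1) : x ^ 2 < 1 := by
  rw [← sq_abs]; nlinarith [abs_nonneg x]

theorem diff_XB_mem {x : ℝ} (h : |x| < 1) : (wx x : ℂ) ^ 4 - XB x ^ 4 ∈ slitPlane := by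
  rw [diff_XB, mem_slitPlane_iff]
  left
  have h1 := sq_lt_one_of_abs h
  have h2 : 0 < 1 - x ^ 2 := by linarith
  rw [sub_re, ofReal_re, re_ofReal_mul, I_re, mul_zero, sub_zero]
  positivity

theorem diff_XA_mem {x : ℝ} (h : |x| < 1) : (wx x : ℂ) ^ 4 - XA x ^ 4 ∈ slitPlane := by
  rw [diff_XA, mem_slitPlane_iff]
  left
  have h1 := sq_lt_one_of_abs h
  have h2 : 0 < 1 - x ^ 2 := by linarith
  rw [add_re, ofReal_re, re_ofReal_mul, I_re, mul_zero, add_zero]
  positivity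

theorem div_mem_slitPlane {z u : ℂ} (h : z.im * u.re - z.re * u.im ≠ 0) : z / u ∈ slitPlane := by
  have hu : u ≠ 0 := by rintro rfl; simp at h
  apply mem_slitPlane_of_im
  rw [div_im, ← sub_div]
  exact div_ne_zero h (normSq_pos.2 hu).ne'

theorem offCuts_XB {x : ℝ} (h : |x| < 1) : OffCuts 1 (-I) I (-1) (wx x : ℂ) (XB x) := by
  have h1 := lt_wx h
  have h0 := wx_pos x
  rw [abs_lt] at h1
  constructor
  · apply div_mem_slitPlane
    have e : (XB x - -I * (wx x : ℂ)).im * (XB x - 1 * (wx x : ℂ)).re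
        - (XB x - -I * (wx x : ℂ)).re * (XB x - 1 * (wx x : ℂ)).im = wx x * (x - wx x) := by
      simp [XB_re, XB_im]; ring
    rw [e]
    exact mul_ne_zero h0.ne' (by linarith)
  · apply div_mem_slitPlane
    have e : (XB x - -1 * (wx x : ℂ)).im * (XB x - I * (wx x : ℂ)).re
        - (XB x - -1 * (wx x : ℂ)).re * (XB x - I * (wx x : ℂ)).im = wx x * (x + wx x) := by
      simp [XB_re, XB_im]; ring
    rw [e]
    exact mul_ne_zero h0.ne' (by linarith)

theorem offCuts_XA {x : ℝ} (h : |x| < 1) : OffCuts 1 I (-1) (-I) (wx x : ℂ) (XA x) := by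
  have h1 := lt_wx h
  have h0 := wx_pos x
  rw [abs_lt] at h1
  constructor
  · apply div_mem_slitPlane
    have e : (XA x - I * (wx x : ℂ)).im * (XA x - 1 * (wx x : ℂ)).re
        - (XA x - I * (wx x : ℂ)).re * (XA x - 1 * (wx x : ℂ)).im = wx x * (wx x - x) := by
      simp [XA_re, XA_im]; ring
    rw [e]
    exact mul_ne_zero h0.ne' (by linarith)
  · apply div_mem_slitPlane
    have e : (XA x - -I * (wx x : ℂ)).im * (XA x - -1 * (wx x : ℂ)).re
        - (XA x - -I * (wx x : ℂ)).re * (XA x - -1 * (wx x : ℂ)).im = wx x * (x + wx x) := by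
      simp [XA_re, XA_im]; ring
    rw [e]
    exact mul_ne_zero h0.ne' (by linarith)


/-- the level of the cosine at which the indicator jumps -/
noncomputable def kk : ℝ := Real.sqrt (529 / 1519)

theorem kk_pos : 0 < kk := Real.sqrt_pos.2 (by norm_num)
theorem kk_sq : kk ^ 2 = 529 / 1519 := Real.sq_sqrt (by norm_num)
theorem kk_lt_one : kk < 1 := by
  have h1 := kk_sq
  have h2 := kk_pos
  nlinarith

theorem region_iff (x : ℝ) : 3 - 2 * (x / wx x) < 25 / 16 ↔ kk < x := by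
  have hw := wx_pos x
  have hw2 := wx_sq x
  have hk := kk_pos
  have hk2 := kk_sq
  have h1 : 3 - 2 * (x / wx x) < 25 / 16 ↔ 23 * wx x < 32 * x := by
    have : (3 - 2 * (x / wx x) < 25 / 16) ↔ (23 / 32 < x / wx x) := by
      constructor <;> intro h <;> linarith
    rw [this, lt_div_iff₀ hw]
    constructor <;> intro h <;> linarith
  rw [h1]
  constructor
  · intro h
    have hx : 0 < x := by nlinarith
    have h3 : (23 * wx x) ^ 2 < (32 * x) ^ 2 := by
      apply pow_lt_pow_left₀ h (by positivity) two_ne_zero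
    have h4 : kk ^ 2 < x ^ 2 := by rw [hk2]; nlinarith
    exact lt_of_pow_lt_pow_left₀ 2 hx.le h4
  · intro h
    have hx : 0 < x := by linarith
    have h4 : kk ^ 2 < x ^ 2 := pow_lt_pow_left₀ h hk.le two_ne_zero
    rw [hk2] at h4
    apply lt_of_pow_lt_pow_left₀ 2 (by positivity)
    nlinarith

theorem norm_lt_iff_sq {z : ℂ} {c : ℝ} (hc : 0 ≤ c) : ‖z‖ < c ↔ normSq z < c ^ 2 := by
  rw [normSq_eq_norm_sq]
  constructor
  · intro h; exact pow_lt_pow_left₀ h (norm_nonneg _) two_ne_zero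
  · intro h; exact lt_of_pow_lt_pow_left₀ 2 hc h

theorem in2_B (β : ℝ) : in2 0 β = ind (kk < Real.cos β) := by
  unfold in2
  congr 1
  rw [e3W_B, e3X_B]
  set x := Real.cos β
  have hw := wx_pos x
  have hne : (wx x : ℂ) ≠ 0 := ofReal_ne_zero.2 hw.ne'
  have hn : ‖XB x / (wx x : ℂ) - (1 - I)‖ < 5 / 4 ↔ kk < x := by
    rw [norm_lt_iff_sq (by norm_num), ← region_iff]
    have : normSq (XB x / (wx x : ℂ) - (1 - I)) = 3 - 2 * (x / wx x) := by
      rw [normSq_apply]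
      have h1 : (XB x / (wx x : ℂ) - (1 - I)).re = (1 + x) / 2 / wx x - 1 := by
        rw [sub_re, div_ofReal_re, XB_re]; simp
      have h2 : (XB x / (wx x : ℂ) - (1 - I)).im = (1 - x) / 2 / wx x + 1 := by
        rw [sub_im, div_ofReal_im, XB_im]; simp
      rw [h1, h2]
      have hw2 := wx_sq x
      field_simp
      nlinarith
    rw [this]
    norm_num
  rw [hn]
  simp [hne]

theorem in2'_A (α : ℝ) : in2' α 0 = ind (kk < Real.cos α) := by
  unfold in2'
  congr 1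
  rw [e3W_A, e3X_A]
  set x := Real.cos α
  have hw := wx_pos x
  have hne : (wx x : ℂ) ≠ 0 := ofReal_ne_zero.2 hw.ne'
  have hn : ‖XA x / (wx x : ℂ) - (1 + I)‖ < 5 / 4 ↔ kk < x := by
    rw [norm_lt_iff_sq (by norm_num), ← region_iff]
    have : normSq (XA x / (wx x : ℂ) - (1 + I)) = 3 - 2 * (x / wx x) := by
      rw [normSq_apply]
      have h1 : (XA x / (wx x : ℂ) - (1 + I)).re = (1 + x) / 2 / wx x - 1 := by
        rw [sub_re, div_ofReal_re, XA_re]; simp
      have h2 : (XA x / (wx x : ℂ) - (1 + I)).im = -((1 - x) / 2) / wx x - 1 := by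
        rw [sub_im, div_ofReal_im, XA_im]; simp
      rw [h1, h2]
      have hw2 := wx_sq x
      field_simp
      nlinarith
    rw [this]
    norm_num
  rw [hn]
  simp [hne]

/-- on the `A`-loop the indicator `in2` is constant -/
theorem in2_A (α : ℝ) : in2 α 0 = 1 := by
  unfold in2 ind
  rw [if_pos]
  rw [e3W_A, e3X_A]
  set x := Real.cos α
  have hx1 : x ≤ 1 := Real.cos_le_one α
  have hx2 : -1 ≤ x := Real.neg_one_le_cos α
  have hw := wx_pos x
  have hne : (wx x : ℂ) ≠ 0 := ofReal_ne_zero.2 hw.ne'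
  refine ⟨hne, ?_⟩
  rw [norm_lt_iff_sq (by norm_num)]
  have : normSq (XA x / (wx x : ℂ) - (1 - I)) = 3 - 2 / wx x := by
    rw [normSq_apply]
    have h1 : (XA x / (wx x : ℂ) - (1 - I)).re = (1 + x) / 2 / wx x - 1 := by
      rw [sub_re, div_ofReal_re, XA_re]; simp
    have h2 : (XA x / (wx x : ℂ) - (1 - I)).im = -((1 - x) / 2) / wx x + 1 := by
      rw [sub_im, div_ofReal_im, XA_im]; simp
    rw [h1, h2]
    have hw2 := wx_sq x
    field_simp
    nlinarith
  rw [this]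
  have hw1 : wx x ≤ 1 := by
    have hw2 := wx_sq x
    nlinarith
  have : 2 ≤ 2 / wx x := by
    rw [le_div_iff₀ hw]; linarith
  norm_num
  linarith


/-- local constancy of the sheet along a loop over `x = cos β` -/
theorem sheet_loop_locConst {r₂ r₃ r₄ κ : ℂ} {Xc : ℝ → ℂ} (hXc : Continuous Xc)
    (hκ : κ ^ 2 = -1)
    (hprod : ∀ W X : ℂ, (X - 1 * W) * (X - r₂ * W) * (X - r₃ * W) * (X - r₄ * W)
      = X ^ 4 - W ^ 4)
    (hoff : ∀ x : ℝ, |x| < 1 → OffCuts 1 r₂ r₃ r₄ (wx x : ℂ) (Xc x))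
    (hmem : ∀ x : ℝ, |x| < 1 → (wx x : ℂ) ^ 4 - Xc x ^ 4 ∈ slitPlane)
    {β₀ : ℝ} (h0 : 0 < β₀) (h1 : β₀ < Real.pi) :
    ∃ δ > 0, ∀ β, |β - β₀| < δ →
      sheet 1 r₂ r₃ r₄ (wx (Real.cos β) : ℂ) (Xc (Real.cos β))
        (κ * csqrt ((wx (Real.cos β) : ℂ) ^ 4 - Xc (Real.cos β) ^ 4))
      = sheet 1 r₂ r₃ r₄ (wx (Real.cos β₀) : ℂ) (Xc (Real.cos β₀))
        (κ * csqrt ((wx (Real.cos β₀) : ℂ) ^ 4 - Xc (Real.cos β₀) ^ 4)) := by
  have hcos : ∀ z : Set.Ioo (0 : ℝ) Real.pi, |Real.cos z| < 1 := by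
    rintro ⟨z, hz0, hz1⟩
    rw [abs_lt]
    constructor
    · rw [← Real.cos_pi]
      exact Real.cos_lt_cos_of_nonneg_of_le_pi hz0.le le_rfl hz1
    · rw [← Real.cos_zero]
      exact Real.cos_lt_cos_of_nonneg_of_le_pi le_rfl hz1.le hz0
  have cW : Continuous (fun z : Set.Ioo (0 : ℝ) Real.pi => ((wx (Real.cos z) : ℝ) : ℂ)) :=
    continuous_ofReal.comp (wx_continuous.comp (Real.continuous_cos.comp continuous_subtype_val))
  have cX : Continuous (fun z : Set.Ioo (0 : ℝ) Real.pi => Xc (Real.cos z)) :=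
    hXc.comp (Real.continuous_cos.comp continuous_subtype_val)
  have cY : Continuous (fun z : Set.Ioo (0 : ℝ) Real.pi =>
      κ * csqrt (((wx (Real.cos z) : ℝ) : ℂ) ^ 4 - Xc (Real.cos z) ^ 4)) := by
    refine continuous_const.mul ?_
    rw [continuous_iff_continuousAt]
    intro z
    exact ContinuousAt.comp (g := csqrt) (continuousAt_csqrt (hmem _ (hcos z)))
      ((cW.pow 4).sub (cX.pow 4)).continuousAt
  obtain ⟨V, hV, hz, h⟩ := sheet_locConst (Z := Set.Ioo (0 : ℝ) Real.pi)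
    (r₁ := fun _ => 1) (r₂ := fun _ => r₂) (r₃ := fun _ => r₃) (r₄ := fun _ => r₄)
    continuous_const continuous_const continuous_const continuous_const cW cX cY
    (by
      intro z
      rw [hprod, mul_pow, csqrt_sq, hκ]
      ring)
    ⟨β₀, h0, h1⟩ (hoff _ (hcos ⟨β₀, h0, h1⟩))
  obtain ⟨U, hU, rfl⟩ := isOpen_induced_iff.1 hV
  have hmemU : β₀ ∈ U ∩ Set.Ioo 0 Real.pi := ⟨hz, h0, h1⟩
  obtain ⟨δ, hδ, hball⟩ := Metric.isOpen_iff.1 (hU.inter isOpen_Ioo) β₀ hmemU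
  refine ⟨δ, hδ, fun β hβ => ?_⟩
  have hβ' := hball (show β ∈ Metric.ball β₀ δ by rw [Metric.mem_ball, Real.dist_eq]; exact hβ)
  exact (h ⟨β, hβ'.2⟩ hβ'.1).2

theorem sheet_neg {r₂ r₃ r₄ W X Y : ℂ}
    (hY : Y ^ 2 = (X - 1 * W) * (X - r₂ * W) * (X - r₃ * W) * (X - r₄ * W)) :
    sheet 1 r₂ r₃ r₄ W X (-Y) = - sheet 1 r₂ r₃ r₄ W X Y := by
  have h := sheetInvariance 1 r₂ r₃ r₄ W X Y 1 (-1) one_ne_zero (Or.inr rfl) hY
  rw [if_neg (by norm_num)] at h
  simpa using h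

/-- common form of the two axis loops -/
theorem wind_axis {r₂ r₃ r₄ κ : ℂ} {Xc : ℝ → ℂ} (hXc : Continuous Xc)
    (hκ : κ ^ 2 = -1)
    (hprod : ∀ W X : ℂ, (X - 1 * W) * (X - r₂ * W) * (X - r₃ * W) * (X - r₄ * W)
      = X ^ 4 - W ^ 4)
    (hoff : ∀ x : ℝ, |x| < 1 → OffCuts 1 r₂ r₃ r₄ (wx x : ℂ) (Xc x))
    (hmem : ∀ x : ℝ, |x| < 1 → (wx x : ℂ) ^ 4 - Xc x ^ 4 ∈ slitPlane)
    (E J : ℝ → ℚ) (hper : ∀ β, E (β + 2 * Real.pi) = E β)
    (hpos : ∀ β, 0 < Real.sin β → E β = sheet 1 r₂ r₃ r₄ (wx (Real.cos β) : ℂ)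
      (Xc (Real.cos β)) (κ * csqrt ((wx (Real.cos β) : ℂ) ^ 4 - Xc (Real.cos β) ^ 4)))
    (hneg : ∀ β, Real.sin β < 0 → E β = sheet 1 r₂ r₃ r₄ (wx (Real.cos β) : ℂ)
      (Xc (Real.cos β)) (-(κ * csqrt ((wx (Real.cos β) : ℂ) ^ 4 - Xc (Real.cos β) ^ 4))))
    (hJ : ∀ β, J β = ind (kk < Real.cos β)) :
    ∃ N0 : ℕ, 0 < N0 ∧ ∀ m ≥ N0,
      wsum (fun t => E (2 * Real.pi * t)) (fun t => J (2 * Real.pi * t)) m ≠ 0 := by
  have hpi := Real.pi_pos
  have h2p : (0 : ℝ) < 2 * Real.pi := by positivity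
  set θ := Real.arccos kk with hθ
  have hcos : Real.cos θ = kk := Real.cos_arccos (by linarith [kk_pos]) kk_lt_one.le
  have hθ0 : 0 < θ := Real.arccos_pos.2 kk_lt_one
  have hθ1 : θ < Real.pi := by
    have : θ < Real.pi / 2 := Real.arccos_lt_pi_div_two.2 kk_pos
    linarith
  set c := θ / (2 * Real.pi) with hc
  have hc0 : 0 < c := by positivity
  have hc1 : c < 1 / 2 := div_two_pi_lt hθ1
  obtain ⟨δ, hδ, hloc⟩ := sheet_loop_locConst hXc hκ hprod hoff hmem hθ0 hθ1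
  set η := sheet 1 r₂ r₃ r₄ (wx (Real.cos θ) : ℂ) (Xc (Real.cos θ))
        (κ * csqrt ((wx (Real.cos θ) : ℂ) ^ 4 - Xc (Real.cos θ) ^ 4)) with hη
  have hη0 : η ≠ 0 := by
    have habs : |Real.cos θ| < 1 := by
      rw [hcos, abs_of_pos kk_pos]; exact kk_lt_one
    rw [hη]
    unfold sheet
    rw [if_pos (hoff _ habs)]
    split_ifs <;> norm_num
  set d := min (δ / (2 * Real.pi)) (min c (1 / 2 - c)) with hd
  have hd0 : 0 < d := lt_min (by positivity) (lt_min hc0 (by linarith))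
  have hd1 : d ≤ δ / (2 * Real.pi) := min_le_left _ _
  have hd2 : d ≤ c := (min_le_right _ _).trans (min_le_left _ _)
  have hd3 : d ≤ 1 / 2 - c := (min_le_right _ _).trans (min_le_right _ _)
  have hposval : ∀ t, |t - c| < d → E (2 * Real.pi * t) = η := by
    intro t ht
    have ht' := abs_lt.1 ht
    rw [hpos _ (sin_pos_of_mem (by linarith) (by linarith))]
    apply hloc
    have h1 : 2 * Real.pi * t - θ = 2 * Real.pi * (t - c) := by
      rw [hc]; field_simp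
    rw [h1, abs_mul, abs_of_pos h2p]
    have h2 : |t - c| < δ / (2 * Real.pi) := lt_of_lt_of_le ht hd1
    rw [lt_div_iff₀ h2p] at h2
    linarith
  obtain ⟨N0, hN0, h⟩ := wsum_two_jumps (fun t => E (2 * Real.pi * t))
    (fun t => J (2 * Real.pi * t)) c hc0 hc1 1 0 η
    (by
      intro t
      rw [hJ, hJ]
      have : Real.cos (2 * Real.pi * (t + 1)) = Real.cos (2 * Real.pi * t) := by
        rw [← Real.cos_add_two_pi (2 * Real.pi * t)]; congr 1; ring
      rw [this])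
    (by
      intro t
      rw [← hper (2 * Real.pi * t)]; congr 1; ring)
    (by
      intro t ht
      rw [hJ]
      have h1 := cos_gt_of_abs_lt hθ1.le ht
      rw [hcos] at h1
      unfold ind
      rw [if_pos h1])
    (by
      intro t ht1 ht2
      rw [hJ]
      have h1 := cos_lt_of_mem hθ0.le ht1 ht2
      rw [hcos] at h1
      unfold ind
      rw [if_neg (not_lt.2 h1.le)])
    d hd0 hposval
    (by
      intro t ht
      have ht' := abs_lt.1 ht
      have h1 := hposval (-t) (by rw [← abs_neg]; convert ht using 2; ring)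
      have hs : 0 < Real.sin (2 * Real.pi * -t) := sin_pos_of_mem (by linarith) (by linarith)
      rw [hpos _ hs, mul_neg, Real.cos_neg] at h1
      rw [hneg _ (sin_neg_of_mem (by linarith) (by linarith)), sheet_neg, h1]
      rw [hprod, mul_pow, csqrt_sq, hκ]
      ring)
  refine ⟨N0, hN0, fun m hm => ?_⟩
  rw [h m hm]
  simpa using hη0

/-- `B`-loop of `E₂` for `x` -/
theorem wind_ep2 : ∃ N0 : ℕ, 0 < N0 ∧ ∀ m ≥ N0,
    wsum (fun t => ep2 0 (2 * Real.pi * t)) (fun t => in2 0 (2 * Real.pi * t)) m ≠ 0 := by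
  refine wind_axis (r₂ := -I) (r₃ := I) (r₄ := -1) (κ := I) XB_continuous I_sq ?_
    (fun x hx => offCuts_XB hx) (fun x hx => diff_XB_mem hx) (fun β => ep2 0 β) (fun β => in2 0 β)
    ?_ ?_ ?_ in2_B
  · intro W X
    linear_combination (-(W ^ 2 * X ^ 2) + W ^ 4) * I_sq
  · intro β
    unfold ep2
    rw [e3W_B, e3X_B, e3Y_B, e3W_B, e3X_B, e3Y_B]
    unfold tau
    rw [Real.cos_add_two_pi, Real.sin_add_two_pi]
  · intro β hβ
    unfold ep2
    rw [e3W_B, e3X_B, e3Y_B]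
    unfold tau
    rw [if_pos hβ, one_mul]
  · intro β hβ
    unfold ep2
    rw [e3W_B, e3X_B, e3Y_B]
    unfold tau
    rw [if_neg (not_lt.2 hβ.le), if_pos hβ]
    congr 1
    ring

/-- `A`-loop of `E₂` for `y` -/
theorem wind_ep2' : ∃ N0 : ℕ, 0 < N0 ∧ ∀ m ≥ N0,
    wsum (fun t => ep2' (2 * Real.pi * t) 0) (fun t => in2' (2 * Real.pi * t) 0) m ≠ 0 := by
  refine wind_axis (r₂ := I) (r₃ := -1) (r₄ := -I) (κ := -I) XA_continuous ?_ ?_
    (fun x hx => offCuts_XA hx) (fun x hx => diff_XA_mem hx) (fun α => ep2' α 0)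
    (fun α => in2' α 0) ?_ ?_ ?_ in2'_A
  · rw [neg_pow, I_sq]; norm_num
  · intro W X
    linear_combination (-(W ^ 2 * X ^ 2) + W ^ 4) * I_sq
  · intro α
    unfold ep2'
    rw [e3W_A, e3X_A, e3Y_A, e3W_A, e3X_A, e3Y_A]
    unfold tau
    rw [Real.cos_add_two_pi, Real.sin_add_two_pi]
  · intro α hα
    unfold ep2'
    rw [e3W_A, e3X_A, e3Y_A]
    unfold tau
    rw [if_neg (by rw [Real.sin_zero]; exact lt_irrefl _),
      if_neg (by rw [Real.sin_zero]; exact lt_irrefl _), if_pos hα]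
    congr 1
    ring
  · intro α hα
    unfold ep2'
    rw [e3W_A, e3X_A, e3Y_A]
    unfold tau
    rw [if_neg (by rw [Real.sin_zero]; exact lt_irrefl _),
      if_neg (by rw [Real.sin_zero]; exact lt_irrefl _), if_neg (not_lt.2 hα.le)]
    congr 1
    ring

end TripleBurger
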