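import Pool.Agent.helper10.K3B.LocXY
import Pool.Agent.helper10.K3B.Wind
import Pool.Agent.helper10.K3B.Hom
import Pool.Agent.helper81.K3B.Mixed
import Pool.Agent.helper84.K3B.Period

/-!
# K3B module KEY: the key theorem in curried form on the open part `SU F` of the total space
-/

namespace TripleBurger

open Complex K3B Topology

/-- the part of the total space over `UU F`, as a space -/
abbrev SU (F : MvPolynomial (Fin 5) ℂ) : Type := {P : Total // P.proj ∈ UU F}

/-- projection of `SU F` -/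
def pU {F : MvPolynomial (Fin 5) ℂ} (P : SU F) : UU F := ⟨P.1.proj, P.2⟩

theorem pU_continuous {F : MvPolynomial (Fin 5) ℂ} : Continuous (pU (F := F)) :=
  (proj_continuous.comp continuous_subtype_val).subtype_mk _

/-- a 2-cochain on `SU F` is locally (over the base) a coboundary -/
def LocVan {F : MvPolynomial (Fin 5) ℂ} (k : SU F → SU F → SU F → ℚ) : Prop :=
  ∀ b : UU F, ∃ V ∈ 𝓝 b, ∃ ψ : SU F → SU F → ℚ, EqOnNear (pU ⁻¹' V) k ψ

variable {F : MvPolynomial (Fin 5) ℂ} {ρ : Fin 5 → ℝ} (hρ : Adm F ρ)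

/-- the torus in `SU F` -/
noncomputable def PhiU (v : Fin 4 → ℝ) : SU F := ⟨Phi hρ v, Phi_mem hρ v⟩

theorem PhiU_continuous : Continuous (PhiU hρ) := (Phi_continuous hρ).subtype_mk _

theorem Phi_per_nat (v : Fin 4 → ℝ) (i : Fin 4) (n : ℕ) :
    Phi hρ (Function.update v i (v i + n)) = Phi hρ v := by
  induction n with
  | zero => simp
  | succ n ih =>
    rw [← ih]
    have := Phi_periodic hρ (Function.update v i (v i + n)) i
    rw [Function.update_idem, Function.update_self] at this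
    rw [← this]
    congr 2
    push_cast
    ring

theorem Phi_per_int (v : Fin 4 → ℝ) (i : Fin 4) (n : ℤ) :
    Phi hρ (Function.update v i (v i + n)) = Phi hρ v := by
  obtain ⟨n, rfl | rfl⟩ := n.eq_nat_or_neg
  · exact_mod_cast Phi_per_nat hρ v i n
  · have := Phi_per_nat hρ (Function.update v i (v i + (-(n : ℤ) : ℤ))) i n
    rw [Function.update_idem, Function.update_self] at this
    rw [← this]
    push_cast
    rw [neg_add_cancel_right, Function.update_eq_self]

theorem PhiU_per4 : Per4 (PhiU hρ) := by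
  intro t n
  apply Subtype.ext
  show Phi hρ (t + fun i => (n i : ℝ)) = Phi hρ t
  have h : (t + fun i => (n i : ℝ))
      = Function.update (Function.update (Function.update (Function.update t
          0 (t 0 + n 0)) 1 (t 1 + n 1)) 2 (t 2 + n 2)) 3 (t 3 + n 3) := by
    ext i
    fin_cases i <;> simp [Function.update]
  rw [h]
  have h3 := Phi_per_int hρ (Function.update (Function.update (Function.update t
          0 (t 0 + n 0)) 1 (t 1 + n 1)) 2 (t 2 + n 2)) 3 (n 3)
  have h2 := Phi_per_int hρ (Function.update (Function.update t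
          0 (t 0 + n 0)) 1 (t 1 + n 1)) 2 (n 2)
  have h1 := Phi_per_int hρ (Function.update t 0 (t 0 + n 0)) 1 (n 1)
  have h0 := Phi_per_int hρ t 0 (n 0)
  simp only [Function.update_of_ne (by decide : (3 : Fin 4) ≠ 2),
    Function.update_of_ne (by decide : (3 : Fin 4) ≠ 1),
    Function.update_of_ne (by decide : (3 : Fin 4) ≠ 0),
    Function.update_of_ne (by decide : (2 : Fin 4) ≠ 1),
    Function.update_of_ne (by decide : (2 : Fin 4) ≠ 0),
    Function.update_of_ne (by decide : (1 : Fin 4) ≠ 0)] at h3 h2 h1 h0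
  rw [h3, h2, h1, h0]

/-! ### slices -/

theorem slice_eq {X : Type*} (G : (Fin 4 → ℝ) → X) (i j : Fin 4) (hij : i ≠ j) (x y : ℝ) :
    slice G i j 0 x y = G (fun l => if l = i then x else if l = j then y else 0) := by
  unfold slice
  congr 1
  funext l
  by_cases h1 : l = i
  · subst h1
    simp [hij]
  · by_cases h2 : l = j
    · subst h2
      simp [h1]
    · simp [h1, h2]

theorem slice_continuous (i j : Fin 4) :
    Continuous (fun z : ℝ × ℝ => slice (PhiU hρ) i j 0 z.1 z.2) := by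
  unfold slice
  refine (PhiU_continuous hρ).comp (continuous_pi fun l => ?_)
  fun_prop

theorem slice_per_left (i j : Fin 4) (x y : ℝ) :
    slice (PhiU hρ) i j 0 (x + 1) y = slice (PhiU hρ) i j 0 x y := by
  unfold slice
  rw [← PhiU_per4 hρ (fun l => (0 : Fin 4 → ℝ) l + x * (Pi.single i (1 : ℝ) : Fin 4 → ℝ) l
    + y * (Pi.single j (1 : ℝ) : Fin 4 → ℝ) l) (Pi.single i 1)]
  congr 1
  funext l
  by_cases h : l = i
  · subst h; simp; ring
  · simp [h]

theorem slice_per_right (i j : Fin 4) (x y : ℝ) :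
    slice (PhiU hρ) i j 0 x (y + 1) = slice (PhiU hρ) i j 0 x y := by
  unfold slice
  rw [← PhiU_per4 hρ (fun l => (0 : Fin 4 → ℝ) l + x * (Pi.single i (1 : ℝ) : Fin 4 → ℝ) l
    + y * (Pi.single j (1 : ℝ) : Fin 4 → ℝ) l) (Pi.single j 1)]
  congr 1
  funext l
  by_cases h : l = j
  · subst h; simp; ring
  · simp [h]

/-- the classes on `SU F` -/
noncomputable def xU (F : MvPolynomial (Fin 5) ℂ) (p q r : SU F) : ℚ := xc (1 / 3) p.1 q.1 r.1
/-- the classes on `SU F` -/
noncomputable def yU (F : MvPolynomial (Fin 5) ℂ) (p q r : SU F) : ℚ := yc p.1 q.1 r.1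

theorem per2_add {X : Type*} (m : ℕ) (G : ℝ → ℝ → X) (c k : X → X → X → ℚ) :
    per2 m G (fun p q r => c p q r + k p q r) = per2 m G c + per2 m G k := by
  unfold per2
  rw [← Finset.sum_add_distrib]
  refine Finset.sum_congr rfl fun a _ => ?_
  rw [← Finset.sum_add_distrib]
  refine Finset.sum_congr rfl fun b _ => ?_
  ring

/-! ### periods of `x`, `y` -/

theorem xU_slice_zero_of_I0 (i j : Fin 4)
    (h : ∀ x y x' y', I0 (1 / 3) (slice (PhiU hρ) i j 0 x y).1
      = I0 (1 / 3) (slice (PhiU hρ) i j 0 x' y').1) (m : ℕ) :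
    per2 m (slice (PhiU hρ) i j 0) (xU F) = 0 := by
  unfold per2 xU xc wcoc
  refine Finset.sum_eq_zero fun a _ => Finset.sum_eq_zero fun b _ => ?_
  rw [h (((a : ℝ) + 1) / m) ((b : ℝ) / m) ((a : ℝ) / m) ((b : ℝ) / m),
    h ((a : ℝ) / m) (((b : ℝ) + 1) / m) ((a : ℝ) / m) ((b : ℝ) / m)]
  ring

theorem xU_slice_zero_of_I2 (i j : Fin 4)
    (h : ∀ x y x' y', I2 (slice (PhiU hρ) i j 0 x y).1
      = I2 (slice (PhiU hρ) i j 0 x' y').1) (m : ℕ) :
    per2 m (slice (PhiU hρ) i j 0) (xU F) = 0 := by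
  unfold per2 xU xc wcoc
  refine Finset.sum_eq_zero fun a _ => Finset.sum_eq_zero fun b _ => ?_
  rw [h (((a : ℝ) + 1) / m) (((b : ℝ) + 1) / m) (((a : ℝ) + 1) / m) ((b : ℝ) / m),
    h (((a : ℝ) + 1) / m) ((b : ℝ) / m) ((a : ℝ) / m) (((b : ℝ) + 1) / m)]
  ring

theorem yU_slice_zero_of_I1 (i j : Fin 4)
    (h : ∀ x y x' y', I1 (slice (PhiU hρ) i j 0 x y).1
      = I1 (slice (PhiU hρ) i j 0 x' y').1) (m : ℕ) :
    per2 m (slice (PhiU hρ) i j 0) (yU F) = 0 := by
  unfold per2 yU yc wcoc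
  refine Finset.sum_eq_zero fun a _ => Finset.sum_eq_zero fun b _ => ?_
  rw [h (((a : ℝ) + 1) / m) ((b : ℝ) / m) ((a : ℝ) / m) ((b : ℝ) / m),
    h ((a : ℝ) / m) (((b : ℝ) + 1) / m) ((a : ℝ) / m) ((b : ℝ) / m)]
  ring

theorem slicePhi_val (i j : Fin 4) (hij : i ≠ j) (x y : ℝ) :
    (slice (PhiU hρ) i j 0 x y).1
      = Phi hρ (fun l => if l = i then x else if l = j then y else 0) := by
  rw [slice_eq _ _ _ hij]; rfl

theorem xU_01 (m : ℕ) : per2 m (slice (PhiU hρ) 0 1 0) (xU F) = 0 := by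
  apply xU_slice_zero_of_I0
  intro x y x' y'
  rw [slicePhi_val hρ 0 1 (by decide), slicePhi_val hρ 0 1 (by decide), I0_Phi, I0_Phi]
  simp [bv]

theorem xU_03 (m : ℕ) : per2 m (slice (PhiU hρ) 0 3 0) (xU F) = 0 := by
  apply xU_slice_zero_of_I0
  intro x y x' y'
  rw [slicePhi_val hρ 0 3 (by decide), slicePhi_val hρ 0 3 (by decide), I0_Phi, I0_Phi]
  simp [in0, bT]

theorem xU_13 (m : ℕ) : per2 m (slice (PhiU hρ) 1 3 0) (xU F) = 0 := by
  apply xU_slice_zero_of_I0
  intro x y x' y'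
  rw [slicePhi_val hρ 1 3 (by decide), slicePhi_val hρ 1 3 (by decide), I0_Phi, I0_Phi]
  simp [in0, bT]

theorem xU_02 (m : ℕ) : per2 m (slice (PhiU hρ) 0 2 0) (xU F) = 0 := by
  apply xU_slice_zero_of_I2
  intro x y x' y'
  rw [slicePhi_val hρ 0 2 (by decide), slicePhi_val hρ 0 2 (by decide), I2_Phi, I2_Phi]
  simp [in2_A]

theorem yU_01 (m : ℕ) : per2 m (slice (PhiU hρ) 0 1 0) (yU F) = 0 := by
  apply yU_slice_zero_of_I1
  intro x y x' y'
  rw [slicePhi_val hρ 0 1 (by decide), slicePhi_val hρ 0 1 (by decide), I1_Phi, I1_Phi]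
  simp [bv]

theorem xU_12 (m : ℕ) : per2 m (slice (PhiU hρ) 1 2 0) (xU F)
    = - (wsum (fun t => ep2 0 (2 * Real.pi * t)) (fun t => in2 0 (2 * Real.pi * t)) m
      * wsum (fun t => ep0 (bT ρ (2 * Real.pi * t) 0))
        (fun t => in0 (1 / 3) (bT ρ (2 * Real.pi * t) 0)) m) := by
  unfold per2 xU xc wcoc wsum
  rw [Finset.sum_mul_sum, ← Finset.sum_neg_distrib]
  refine Finset.sum_congr rfl fun a _ => ?_
  rw [← Finset.sum_neg_distrib]
  refine Finset.sum_congr rfl fun b _ => ?_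
  simp only [slicePhi_val hρ 1 2 (by decide), I0_Phi, I2_Phi, E02_Phi]
  simp [bv]
  ring

theorem yU_03 (m : ℕ) : per2 m (slice (PhiU hρ) 0 3 0) (yU F)
    = - (wsum (fun t => ep2' (2 * Real.pi * t) 0) (fun t => in2' (2 * Real.pi * t) 0) m
      * wsum (fun t => ep1 (bT ρ 0 (2 * Real.pi * t)))
        (fun t => in1 (bT ρ 0 (2 * Real.pi * t))) m) := by
  unfold per2 yU yc wcoc wsum
  rw [Finset.sum_mul_sum, ← Finset.sum_neg_distrib]
  refine Finset.sum_congr rfl fun a _ => ?_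
  rw [← Finset.sum_neg_distrib]
  refine Finset.sum_congr rfl fun b _ => ?_
  simp only [slicePhi_val hρ 0 3 (by decide), I1_Phi, J2_Phi, E12_Phi]
  simp [bv]
  ring

/-! ### periods of locally vanishing classes -/

/-- helper84's periods and helper81's `per1` -/
theorem per1_ev_zero {X : Type*} [TopologicalSpace X] {ψ : X → X → ℚ} {G : ℝ → ℝ → X}
    (hG : ContinuousOn (fun p : ℝ × ℝ => G p.1 p.2) (Set.Icc 0 1 ×ˢ Set.univ))
    (hg : Continuous (G 0))
    (hper : ∀ τ ∈ Set.Icc (0 : ℝ) 1, ∀ t, G τ (t + 1) = G τ t)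
    (hψ : ∀ τ ∈ Set.Icc (0 : ℝ) 1, ∀ t, Pool.Agent.helper84.K3B.CocAt ψ (G τ t))
    (hrev : ∀ t, G 1 t = G 0 (-t)) : Ev (fun m => per1 m (G 0) ψ = 0) := by
  have h0 := Pool.Agent.helper84.K3B.per_eq_zero_of_homotopic_reverse hG hper hψ hrev
  obtain ⟨N0, _, h1⟩ := Pool.Agent.helper84.K3B.per_spec (ψ := ψ) hg
    (fun t _ => hψ 0 ⟨le_rfl, zero_le_one⟩ t)
  refine Ev.of_ge N0 fun m hm => ?_
  have := (h1 m hm).2
  rw [h0] at this
  unfold per1
  unfold Pool.Agent.helper84.K3B.perN at this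
  exact this.symm

theorem loop_period (b : UU F) {g : ℝ → SU F} (hg : Continuous g)
    (hrev : RevHom b.1 (fun t => (g t).1))
    (ψ : SU F → SU F → ℚ)
    (hψ : ∃ U ∈ 𝓝 b, EqOnNear (pU ⁻¹' U) (fun _ _ _ => 0) ψ) :
    Ev (fun m => per1 m g ψ = 0) := by
  obtain ⟨G, hG, hper, hG0, hG1, hGb⟩ := hrev
  obtain ⟨U, hU, hψ⟩ := hψ
  -- lift `G` to `SU F` by clamping the first variable
  let cl : ℝ → ℝ := fun τ => max 0 (min 1 τ)
  have hcl : ∀ τ, cl τ ∈ Set.Icc (0 : ℝ) 1 := fun τ =>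
    ⟨le_max_left _ _, max_le zero_le_one (min_le_left _ _)⟩
  have hcl' : ∀ τ ∈ Set.Icc (0 : ℝ) 1, cl τ = τ := by
    intro τ hτ
    simp only [cl, min_eq_right hτ.2, max_eq_right hτ.1]
  let G' : ℝ → ℝ → SU F := fun τ t => ⟨G (cl τ) t, by
    rw [hGb _ (hcl τ)]; exact b.2⟩
  have hG' : Continuous (fun p : ℝ × ℝ => G' p.1 p.2) := by
    refine Continuous.subtype_mk ?_ _
    have hc : Continuous (fun p : ℝ × ℝ => (cl p.1, p.2)) := by
      refine Continuous.prodMk ?_ continuous_snd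
      exact continuous_const.max (continuous_const.min continuous_fst)
    exact hG.comp_continuous hc (fun p => ⟨hcl p.1, Set.mem_univ _⟩)
  have h00 : G' 0 = g := by
    funext t
    apply Subtype.ext
    show G (cl 0) t = _
    rw [hcl' 0 ⟨le_rfl, zero_le_one⟩, hG0]
  have key := per1_ev_zero (ψ := ψ) (G := G') hG'.continuousOn (by rw [h00]; exact hg)
    (fun τ _ t => Subtype.ext (hper (cl τ) (hcl τ) t))
    (fun τ _ t => by
      have hmem : G' τ t ∈ pU ⁻¹' U := by
        have : pU (G' τ t) = b := Subtype.ext (hGb _ (hcl τ) t)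
        show pU (G' τ t) ∈ U
        rw [this]; exact mem_of_mem_nhds hU
      obtain ⟨W, hW, hW'⟩ := hψ _ hmem
      refine ⟨interior W, isOpen_interior, mem_interior_iff_mem_nhds.2 hW, ?_⟩
      intro p hp q hq r hr
      have := hW' p (interior_subset hp) q (interior_subset hq) r (interior_subset hr)
      unfold d1 at this
      linarith)
    (fun t => by
      apply Subtype.ext
      show G (cl 1) t = G (cl 0) (-t)
      rw [hcl' 0 ⟨le_rfl, zero_le_one⟩, hcl' 1 ⟨zero_le_one, le_rfl⟩, hG0, hG1])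
  rwa [h00] at key



end TripleBurger
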