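import Pool.Agent.helper10.K3B.Fun

/-!
# The functions on `Total`, the cochains `x`, `y`, and the basic notions of local vanishing on `O`
-/

namespace TripleBurger

open Complex K3B

section LZ
variable {X : Type*} [TopologicalSpace X]

/-- a 1-cochain (function on pairs) vanishes near the diagonal of `O` -/
def LZ2 (O : Set X) (c : X → X → ℚ) : Prop :=
  ∀ x ∈ O, ∃ V : Set X, IsOpen V ∧ x ∈ V ∧ ∀ p ∈ V, ∀ q ∈ V, c p q = 0
/-- a 2-cochain vanishes near the diagonal of `O` -/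
def LZ3 (O : Set X) (c : X → X → X → ℚ) : Prop :=
  ∀ x ∈ O, ∃ V : Set X, IsOpen V ∧ x ∈ V ∧ ∀ p ∈ V, ∀ q ∈ V, ∀ r ∈ V, c p q r = 0
/-- a 3-cochain vanishes near the diagonal of `O` -/
def LZ4 (O : Set X) (c : X → X → X → X → ℚ) : Prop :=
  ∀ x ∈ O, ∃ V : Set X, IsOpen V ∧ x ∈ V ∧
    ∀ p ∈ V, ∀ q ∈ V, ∀ r ∈ V, ∀ s ∈ V, c p q r s = 0
/-- a 4-cochain vanishes near the diagonal of `O` -/
def LZ5 (O : Set X) (c : X → X → X → X → X → ℚ) : Prop :=
  ∀ x ∈ O, ∃ V : Set X, IsOpen V ∧ x ∈ V ∧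
    ∀ p ∈ V, ∀ q ∈ V, ∀ r ∈ V, ∀ s ∈ V, ∀ t ∈ V, c p q r s t = 0

/-- the 2-cochain `ε(p) (I q - I p) (J r - J q)` -/
def wcoc (ε I J : X → ℚ) (p q r : X) : ℚ := ε p * (I q - I p) * (J r - J q)

/-- the local condition which makes `wcoc ε I J` a cocycle -/
def LocCond (O : Set X) (ε I J : X → ℚ) : Prop :=
  ∀ x ∈ O, ∃ V : Set X, IsOpen V ∧ x ∈ V ∧
    ((∀ p ∈ V, ε p = ε x) ∨ (∀ p ∈ V, I p = I x) ∨ (∀ p ∈ V, J p = J x))

end LZ

theorem cone_root_ne (p : Cone) (i : Fin 3) :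
    p.Y i ^ 2 = ∏ j : Fin 4, (p.X i - root p.b i j * p.W i) := p.2.2.2.1 i

/-- product of the sheet signs of `E₀` and `E₂`, on `Total` -/
noncomputable def E02 : Total → ℚ :=
  Quotient.lift (fun p : Cone => eps0 p * eps2 p) (by
    rintro p q ⟨hb, c, σ, hc, hσ, h⟩
    have k0 := sheetInvariance 1 (p.b 0) (-1) (p.b 0 - p.b 1) (p.W 0) (p.X 0) (p.Y 0) (c 0) σ
      (hc 0) hσ (by
        rw [cone_root_ne p 0, Fin.prod_univ_four]; simp [root]; ring)
    have k2 := sheetInvariance 1 (-I) I (-1) (p.W 2) (p.X 2) (p.Y 2) (c 2) σ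
      (hc 2) hσ (by
        rw [cone_root_ne p 2, Fin.prod_univ_four]; simp [root]; ring)
    show eps0 p * eps2 p = eps0 q * eps2 q
    unfold eps0 eps2
    rw [← hb, (h 0).1, (h 0).2.1, (h 0).2.2, (h 2).1, (h 2).2.1, (h 2).2.2, k0, k2]
    split_ifs <;> ring)

/-- product of the sheet signs of `E₁` and `E₂` (other cuts), on `Total` -/
noncomputable def E12 : Total → ℚ :=
  Quotient.lift (fun p : Cone => eps1 p * eps2' p) (by
    rintro p q ⟨hb, c, σ, hc, hσ, h⟩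
    have k0 := sheetInvariance 1 (p.b 2) (-1) (p.b 2 - p.b 3) (p.W 1) (p.X 1) (p.Y 1) (c 1) σ
      (hc 1) hσ (by
        rw [cone_root_ne p 1, Fin.prod_univ_four]; simp [root]; ring)
    have k2 := sheetInvariance 1 I (-1) (-I) (p.W 2) (p.X 2) (p.Y 2) (c 2) σ
      (hc 2) hσ (by
        rw [cone_root_ne p 2, Fin.prod_univ_four]; simp [root])
    show eps1 p * eps2' p = eps1 q * eps2' q
    unfold eps1 eps2'
    rw [← hb, (h 1).1, (h 1).2.1, (h 1).2.2, (h 2).1, (h 2).2.1, (h 2).2.2, k0, k2]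
    split_ifs <;> ring)

theorem div_rescale {c W X : ℂ} (hc : c ≠ 0) : c * X / (c * W) = X / W := mul_div_mul_left X W hc

/-- indicator of `Reg0 lam` on `Total` -/
noncomputable def I0 (lam : ℝ) : Total → ℚ :=
  Quotient.lift (fun p : Cone => ind (Reg0 lam p)) (by
    rintro p q ⟨hb, c, σ, hc, hσ, h⟩
    show ind (Reg0 lam p) = ind (Reg0 lam q)
    congr 1
    unfold Reg0
    rw [← hb, (h 0).1, (h 0).2.1, div_rescale (hc 0)]
    simp [hc 0])

/-- indicator of `Reg1` on `Total` -/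
noncomputable def I1 : Total → ℚ :=
  Quotient.lift (fun p : Cone => ind (Reg1 p)) (by
    rintro p q ⟨hb, c, σ, hc, hσ, h⟩
    show ind (Reg1 p) = ind (Reg1 q)
    congr 1
    unfold Reg1
    rw [← hb, (h 1).1, (h 1).2.1, div_rescale (hc 1)]
    simp [hc 1])

/-- indicator of `Reg2` on `Total` -/
noncomputable def I2 : Total → ℚ :=
  Quotient.lift (fun p : Cone => ind (Reg2 p)) (by
    rintro p q ⟨hb, c, σ, hc, hσ, h⟩
    show ind (Reg2 p) = ind (Reg2 q)
    congr 1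
    unfold Reg2
    rw [(h 2).1, (h 2).2.1, div_rescale (hc 2)]
    simp [hc 2])

/-- indicator of `Reg2'` on `Total` -/
noncomputable def J2 : Total → ℚ :=
  Quotient.lift (fun p : Cone => ind (Reg2' p)) (by
    rintro p q ⟨hb, c, σ, hc, hσ, h⟩
    show ind (Reg2' p) = ind (Reg2' q)
    congr 1
    unfold Reg2'
    rw [(h 2).1, (h 2).2.1, div_rescale (hc 2)]
    simp [hc 2])

@[simp] theorem E02_mk (p : Cone) : E02 (Total.mk p) = eps0 p * eps2 p := rfl
@[simp] theorem E12_mk (p : Cone) : E12 (Total.mk p) = eps1 p * eps2' p := rfl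
@[simp] theorem I0_mk (lam : ℝ) (p : Cone) : I0 lam (Total.mk p) = ind (Reg0 lam p) := rfl
@[simp] theorem I1_mk (p : Cone) : I1 (Total.mk p) = ind (Reg1 p) := rfl
@[simp] theorem I2_mk (p : Cone) : I2 (Total.mk p) = ind (Reg2 p) := rfl
@[simp] theorem J2_mk (p : Cone) : J2 (Total.mk p) = ind (Reg2' p) := rfl
@[simp] theorem proj_mk (p : Cone) : Total.proj (Total.mk p) = p.b := rfl

/-- the class `x` (for the level `lam`) -/
noncomputable def xc (lam : ℝ) : Total → Total → Total → ℚ := wcoc E02 (I0 lam) I2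

/-- the class `y` -/
noncomputable def yc : Total → Total → Total → ℚ := wcoc E12 I1 J2

/-- the open set of parameters over which `x`, `y` are defined -/
def Good : Set Param :=
  {b | ‖b 0‖ < 1 / 2 ∧ ‖b 1‖ < 1 / 4 ∧ ‖b 2‖ < 1 / 2 ∧ ‖b 3‖ < 1 / 4 ∧
    0 < (b 1).re ∧ 0 < (b 3).re ∧ 100 * ‖b 4‖ < (b 1).re}

/-- the part of the total space over `U` -/
def Over (U : Set Param) : Set Total := Total.proj ⁻¹' U

end TripleBurger
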