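import Pool.Agent.helper10.K3B.Lift

/-!
# K3B module WCOC: `wcoc ε I J` is a cocycle; change of `I`; disjoint supports (pure algebra)
-/

namespace TripleBurger

open Complex K3B

variable {X : Type*} [TopologicalSpace X]

omit [TopologicalSpace X] in
theorem d2_wcoc (ε I J : X → ℚ) (p q r s : X) :
    d2 (wcoc ε I J) p q r s = (ε q - ε p) * (I r - I q) * (J s - J r) := by
  unfold d2 wcoc
  ring

theorem wcoc_cocycle (O : Set X) (ε I J : X → ℚ) (h : LocCond O ε I J) :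
    LZ4 O (d2 (wcoc ε I J)) := by
  intro x hx
  obtain ⟨V, hV, hxV, hc⟩ := h x hx
  refine ⟨V, hV, hxV, fun p hp q hq r hr s hs => ?_⟩
  rw [d2_wcoc]
  rcases hc with hc | hc | hc
  · rw [hc p hp, hc q hq]; ring
  · rw [hc q hq, hc r hr]; ring
  · rw [hc r hr, hc s hs]; ring

/-- If near every point of `O` either `I = I'`, or `ε` is constant, or `J` is constant,
the classes agree (`ψ p q = ε p (I p - I' p) (J q - J p)`). -/
theorem wcoc_cohom (O : Set X) (ε I I' J : X → ℚ)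
    (h : ∀ x ∈ O, ∃ V : Set X, IsOpen V ∧ x ∈ V ∧
      ((∀ p ∈ V, I p = I' p) ∨ (∀ p ∈ V, ε p = ε x) ∨ (∀ p ∈ V, J p = J x))) :
    LZ3 O (fun p q r => wcoc ε I J p q r - wcoc ε I' J p q r
      - d1 (fun p q => ε p * (I p - I' p) * (J q - J p)) p q r) := by
  intro x hx
  obtain ⟨V, hV, hxV, hc⟩ := h x hx
  refine ⟨V, hV, hxV, fun p hp q hq r hr => ?_⟩
  have key : wcoc ε I J p q r - wcoc ε I' J p q r
      - d1 (fun p q => ε p * (I p - I' p) * (J q - J p)) p q r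
      = (J r - J q) * (I q - I' q) * (ε p - ε q) := by
    unfold wcoc d1
    ring
  show wcoc ε I J p q r - wcoc ε I' J p q r
      - d1 (fun p q => ε p * (I p - I' p) * (J q - J p)) p q r = 0
  rw [key]
  rcases hc with hc | hc | hc
  · rw [hc q hq]; ring
  · rw [hc p hp, hc q hq]; ring
  · rw [hc r hr, hc q hq]; ring

/-- near every point of `O` one of the two factors vanishes -/
theorem cup_locZero (O : Set X) (ε I J ε' I' J' : X → ℚ)
    (h : ∀ x ∈ O, ∃ V : Set X, IsOpen V ∧ x ∈ V ∧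
      ((∀ p ∈ V, I p = I x) ∨ (∀ p ∈ V, J p = J x) ∨
        (∀ p ∈ V, I' p = I' x) ∨ (∀ p ∈ V, J' p = J' x))) :
    LZ5 O (cup22 (wcoc ε I J) (wcoc ε' I' J')) := by
  intro x hx
  obtain ⟨V, hV, hxV, hc⟩ := h x hx
  refine ⟨V, hV, hxV, fun p hp q hq r hr s hs t ht => ?_⟩
  unfold cup22 wcoc
  rcases hc with hc | hc | hc | hc
  · rw [hc p hp, hc q hq]; ring
  · rw [hc q hq, hc r hr]; ring
  · rw [hc r hr, hc s hs]; ring
  · rw [hc s hs, hc t ht]; ring

/-- if `c - c' = d1 ψ` near the diagonal of `O` and `y` is a cocycle there, then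
`c ∪ y - c' ∪ y = d3 (ψ ∪ y)` near the diagonal -/
theorem cup_cohom (O : Set X) (c c' y : X → X → X → ℚ) (ψ : X → X → ℚ)
    (h : LZ3 O (fun p q r => c p q r - c' p q r - d1 ψ p q r)) (hy : LZ4 O (d2 y)) :
    LZ5 O (fun p q r s t => cup22 c y p q r s t - cup22 c' y p q r s t
      - d3 (fun p q r s => ψ p q * y q r s) p q r s t) := by
  intro x hx
  obtain ⟨V, hV, hxV, hc⟩ := h x hx
  obtain ⟨V', hV', hxV', hc'⟩ := hy x hx
  refine ⟨V ∩ V', hV.inter hV', ⟨hxV, hxV'⟩, fun p hp q hq r hr s hs t ht => ?_⟩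
  have h1 := hc p hp.1 q hq.1 r hr.1
  have h2 := hc' q hq.2 r hr.2 s hs.2 t ht.2
  simp only [d1, d2] at h1 h2
  simp only [cup22, d3]
  linear_combination (y r s t) * h1 + (ψ p q) * h2

end TripleBurger
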