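import Pool.Agent.helper10.K3B.Top
import Pool.Agent.helper10.K3B.Sheet
import Pool.Agent.helper10.K3B.Wcoc

/-!
# K3B module LOCX: the local conditions for `x` and `y` on the total space

Plan: `P = Total.mk p`; by `mk_isOpenMap` it is enough to find an open neighbourhood of `p` in
`Cone`.  If `Re x₀ ≠ Re s - lam Re e` and `W₀ ≠ 0` then `I0 lam` is locally constant; otherwise
(`x₀` on the line, or `W₀ = 0`) the point `x₀` is off the cuts `[1,s]`, `[-1,s-e]` over `Good`
(`(x - s)/(x - 1) = -k ≤ 0` gives `x = (s + k)/(1 + k)`, so `Re x ≥ Re s`; `W = 0` gives ratio `1`),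
and `eps0` is locally constant.  Similarly for the other regions.
-/

namespace TripleBurger

open Complex K3B Filter Topology

/-- from neighbourhoods in `Cone` to neighbourhoods in `Total` -/
theorem exists_open_of_eventually {P : Total → Prop} {p : Cone}
    (h : ∀ᶠ q in 𝓝 p, P (Total.mk q)) :
    ∃ V : Set Total, IsOpen V ∧ Total.mk p ∈ V ∧ ∀ Q ∈ V, P Q := by
  obtain ⟨V, hV, hVo, hp⟩ := eventually_nhds_iff.1 h
  refine ⟨Total.mk '' V, mk_isOpenMap V hVo, ⟨p, hp, rfl⟩, ?_⟩
  rintro _ ⟨q, hq, rfl⟩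
  exact hV q hq

theorem ind_congr {P Q : Prop} (h : P ↔ Q) : ind P = ind Q := by
  have : P = Q := propext h
  rw [this]

/-- a quotient outside the slit plane -/
theorem not_slit_div {z w : ℂ} (h : z / w ∉ slitPlane) :
    w = 0 ∨ ∃ k : ℝ, 0 ≤ k ∧ z = -(k : ℂ) * w := by
  by_cases hw : w = 0
  · exact Or.inl hw
  · right
    rw [mem_slitPlane_iff, not_or, not_lt, not_not] at h
    refine ⟨-(z / w).re, by linarith [h.1], ?_⟩
    have h1 : z / w = ((z / w).re : ℂ) := Complex.ext (by simp) (by simp [h.2])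
    push_cast
    rw [neg_neg, ← h1, div_mul_cancel₀ _ hw]

/-- a point on a cut, in the affine coordinate -/
theorem cut_point {r r' W X : ℂ} (hW : W ≠ 0) (h : (X - r' * W) / (X - r * W) ∉ slitPlane) :
    X / W = r ∨ ∃ k : ℝ, 0 ≤ k ∧ (1 + (k : ℂ)) * (X / W) = r' + k * r := by
  rcases not_slit_div h with h1 | ⟨k, hk, h1⟩
  · left
    rw [div_eq_iff hW]
    linear_combination h1
  · right
    refine ⟨k, hk, ?_⟩
    field_simp
    linear_combination h1

theorem inf_offCuts {r₁ r₂ r₃ r₄ X : ℂ} (hX : X ≠ 0) : OffCuts r₁ r₂ r₃ r₄ 0 X := by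
  unfold OffCuts
  simp only [mul_zero, sub_zero, div_self hX]
  exact ⟨one_mem_slitPlane, one_mem_slitPlane⟩

/-- the cut `[1, r']` lies in `Re ≥ Re r'` -/
theorem cut_right {r' W X : ℂ} (hW : W ≠ 0) (h : (X - r' * W) / (X - 1 * W) ∉ slitPlane)
    (hr : r'.re ≤ 1) : r'.re ≤ (X / W).re := by
  rcases cut_point hW h with h1 | ⟨k, hk, h1⟩
  · rw [h1, one_re]; exact hr
  · have h2 := congrArg Complex.re h1
    simp only [mul_one, add_re, mul_re, one_re, ofReal_re, add_im, one_im, ofReal_im, add_zero,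
      zero_mul, sub_zero] at h2
    nlinarith

/-- the cut `[-1, r']` lies in `Re ≤ Re r'` -/
theorem cut_left {r' W X : ℂ} (hW : W ≠ 0) (h : (X - r' * W) / (X - (-1) * W) ∉ slitPlane)
    (hr : -1 ≤ r'.re) : (X / W).re ≤ r'.re := by
  rcases cut_point hW h with h1 | ⟨k, hk, h1⟩
  · rw [h1, neg_re, one_re]; exact hr
  · have h2 := congrArg Complex.re h1
    simp only [mul_neg, mul_one, add_re, mul_re, one_re, ofReal_re, add_im, one_im, ofReal_im,
      add_zero, zero_mul, sub_zero, neg_re] at h2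
    nlinarith

/-- the cut `[1, r']` lies in the unit disc -/
theorem cut_norm {r r' W X : ℂ} (hW : W ≠ 0) (h : (X - r' * W) / (X - r * W) ∉ slitPlane)
    (hr : ‖r‖ ≤ 1) (hr' : ‖r'‖ ≤ 1) : ‖X / W‖ ≤ 1 := by
  rcases cut_point hW h with h1 | ⟨k, hk, h1⟩
  · rw [h1]; exact hr
  · have h2 := congrArg norm h1
    rw [norm_mul] at h2
    have h3 : ‖(1 : ℂ) + (k : ℂ)‖ = 1 + k := by
      have : (1 : ℂ) + (k : ℂ) = ((1 + k : ℝ) : ℂ) := by push_cast; rfl
      rw [this, Complex.norm_real, Real.norm_of_nonneg (by linarith)]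
    have h4 : ‖r' + (k : ℂ) * r‖ ≤ 1 + k := by
      refine (norm_add_le _ _).trans ?_
      rw [norm_mul, Complex.norm_real, Real.norm_of_nonneg hk]
      nlinarith [norm_nonneg r]
    rw [h3] at h2
    have h5 : 0 < 1 + k := by linarith
    rw [← h2] at h4
    have h6 : (1 + k) * ‖X / W‖ ≤ (1 + k) * 1 := by linarith
    exact le_of_mul_le_mul_left h6 h5

theorem re_le_norm' (z : ℂ) : z.re ≤ ‖z‖ := Complex.re_le_norm z

theorem neg_norm_le_re (z : ℂ) : -‖z‖ ≤ z.re := (abs_le.1 (Complex.abs_re_le_norm z)).1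

theorem cone_ne {p : Cone} {i : Fin 3} (h : p.W i = 0) : p.X i ≠ 0 :=
  (p.2.2.1 i).resolve_left (fun h' => h' h)

theorem cont_bi (i : Fin 5) : Continuous fun p : Cone => p.b i :=
  (continuous_apply i).comp cone_b_continuous

theorem cont_div {p : Cone} {i : Fin 3} (h : p.W i ≠ 0) :
    ContinuousAt (fun q : Cone => q.X i / q.W i) p :=
  (cone_X_continuous i).continuousAt.div (cone_W_continuous i).continuousAt h

theorem ev_ne {p : Cone} {i : Fin 3} (h : p.W i ≠ 0) : ∀ᶠ q : Cone in 𝓝 p, q.W i ≠ 0 :=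
  (cone_W_continuous i).continuousAt.eventually_ne h

/-- near a point with `Re x₀ > Re s - lam Re e` the indicator `I0` is `1` -/
theorem ev_I0_one {lam : ℝ} {p : Cone} (hW : p.W 0 ≠ 0)
    (h : (p.b 0).re - lam * (p.b 1).re < (p.X 0 / p.W 0).re) :
    ∀ᶠ q : Cone in 𝓝 p, I0 lam (Total.mk q) = 1 := by
  have c1 : ContinuousAt (fun q : Cone => (q.b 0).re - lam * (q.b 1).re) p :=
    ((Complex.continuous_re.comp (cont_bi 0)).sub
      (continuous_const.mul (Complex.continuous_re.comp (cont_bi 1)))).continuousAt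
  have c2 : ContinuousAt (fun q : Cone => (q.X 0 / q.W 0).re) p :=
    Complex.continuous_re.continuousAt.comp (cont_div hW)
  filter_upwards [ev_ne hW, c1.eventually_lt c2 h] with q h1 h2
  rw [I0_mk]
  unfold ind
  rw [if_pos]
  exact ⟨h1, h2⟩

/-- near a point with `Re x₀ < Re s - lam Re e` the indicator `I0` is `0` -/
theorem ev_I0_zero {lam : ℝ} {p : Cone} (hW : p.W 0 ≠ 0)
    (h : (p.X 0 / p.W 0).re < (p.b 0).re - lam * (p.b 1).re) :
    ∀ᶠ q : Cone in 𝓝 p, I0 lam (Total.mk q) = 0 := by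
  have c1 : ContinuousAt (fun q : Cone => (q.b 0).re - lam * (q.b 1).re) p :=
    ((Complex.continuous_re.comp (cont_bi 0)).sub
      (continuous_const.mul (Complex.continuous_re.comp (cont_bi 1)))).continuousAt
  have c2 : ContinuousAt (fun q : Cone => (q.X 0 / q.W 0).re) p :=
    Complex.continuous_re.continuousAt.comp (cont_div hW)
  filter_upwards [c2.eventually_lt c1 h] with q h2
  rw [I0_mk]
  unfold ind
  rw [if_neg]
  rintro ⟨-, h1⟩
  exact absurd h1 (not_lt.2 h2.le)

theorem locConst_of_ev {f : Total → ℚ} {p : Cone} {v : ℚ}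
    (h : ∀ᶠ q : Cone in 𝓝 p, f (Total.mk q) = v) :
    ∃ V : Set Total, IsOpen V ∧ Total.mk p ∈ V ∧ ∀ Q ∈ V, f Q = f (Total.mk p) := by
  have h0 : f (Total.mk p) = v := h.self_of_nhds
  refine exists_open_of_eventually (P := fun Q => f Q = f (Total.mk p)) ?_
  filter_upwards [h] with q hq
  rw [hq, h0]

/-- either `I0 lam` is locally constant at `P` or the point is off the cuts, on the line (or at
infinity) -/
theorem I0_dichotomy {lam : ℝ} (h0 : 0 < lam) (h1 : lam < 1) (p : Cone) (hp : p.b ∈ Good) :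
    (∃ V : Set Total, IsOpen V ∧ Total.mk p ∈ V ∧ ∀ Q ∈ V, I0 lam Q = I0 lam (Total.mk p)) ∨
    ((p.W 0 = 0 ∨ (p.X 0 / p.W 0).re = (p.b 0).re - lam * (p.b 1).re) ∧
      OffCuts 1 (p.b 0) (-1) (p.b 0 - p.b 1) (p.W 0) (p.X 0)) := by
  obtain ⟨g0, g1, g2, g3, g4, g5, g6⟩ := hp
  by_cases hW : p.W 0 = 0
  · right
    refine ⟨Or.inl hW, ?_⟩
    rw [hW]
    exact inf_offCuts (cone_ne hW)
  · rcases lt_trichotomy (p.X 0 / p.W 0).re ((p.b 0).re - lam * (p.b 1).re) with h | h | h
    · exact Or.inl (locConst_of_ev (ev_I0_zero hW h))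
    · right
      refine ⟨Or.inr h, ?_, ?_⟩
      · by_contra hc
        have k1 := cut_right hW hc (by linarith [re_le_norm' (p.b 0)])
        nlinarith
      · by_contra hc
        have k1 := cut_left hW hc (by
          rw [sub_re]
          linarith [neg_norm_le_re (p.b 0), re_le_norm' (p.b 1)])
        rw [sub_re] at k1
        nlinarith
    · exact Or.inl (locConst_of_ev (ev_I0_one hW h))

theorem I1_dichotomy (p : Cone) (hp : p.b ∈ Good) :
    (∃ V : Set Total, IsOpen V ∧ Total.mk p ∈ V ∧ ∀ Q ∈ V, I1 Q = I1 (Total.mk p)) ∨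
    ((p.W 1 ≠ 0 ∧ ‖p.X 1 / p.W 1‖ ≤ 2) ∧
      OffCuts 1 (p.b 2) (-1) (p.b 2 - p.b 3) (p.W 1) (p.X 1)) := by
  obtain ⟨g0, g1, g2, g3, g4, g5, g6⟩ := hp
  by_cases hW : p.W 1 = 0
  · left
    have hX := cone_ne hW
    have c1 : Continuous fun q : Cone => 2 * ‖q.W 1‖ :=
      continuous_const.mul (cone_W_continuous 1).norm
    have c2 : Continuous fun q : Cone => ‖q.X 1‖ := (cone_X_continuous 1).norm
    have h1 : ∀ᶠ q : Cone in 𝓝 p, I1 (Total.mk q) = 0 := by
      filter_upwards [c1.continuousAt.eventually_lt c2.continuousAt (by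
        rw [hW, norm_zero, mul_zero]; exact norm_pos_iff.2 hX)] with q hq
      rw [I1_mk]
      unfold ind
      rw [if_neg]
      rintro ⟨k1, -, k2⟩
      rw [norm_div, div_lt_iff₀ (norm_pos_iff.2 k1)] at k2
      linarith
    exact locConst_of_ev h1
  · have cd := cont_div hW
    have cn : ContinuousAt (fun q : Cone => ‖q.X 1 / q.W 1‖) p := cd.norm
    have c1 : ContinuousAt (fun q : Cone => (q.b 2).re - (1 / 2) * (q.b 3).re) p :=
      ((Complex.continuous_re.comp (cont_bi 2)).sub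
        (continuous_const.mul (Complex.continuous_re.comp (cont_bi 3)))).continuousAt
    have c2 : ContinuousAt (fun q : Cone => (q.X 1 / q.W 1).re) p :=
      Complex.continuous_re.continuousAt.comp cd
    by_cases hn : ‖p.X 1 / p.W 1‖ ≤ 2
    · by_cases hoff : OffCuts 1 (p.b 2) (-1) (p.b 2 - p.b 3) (p.W 1) (p.X 1)
      · exact Or.inr ⟨⟨hW, hn⟩, hoff⟩
      · left
        unfold OffCuts at hoff
        rw [not_and_or] at hoff
        rcases hoff with hc | hc
        · have k1 := cut_right hW hc (by linarith [re_le_norm' (p.b 2)])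
          have k2 := cut_norm hW hc (by simp) (by linarith)
          have h1 : ∀ᶠ q : Cone in 𝓝 p, I1 (Total.mk q) = 1 := by
            filter_upwards [ev_ne hW, c1.eventually_lt c2 (by linarith),
              cn.eventually_lt continuousAt_const (show ‖p.X 1 / p.W 1‖ < 2 by linarith)]
              with q q1 q2 q3
            rw [I1_mk]
            unfold ind
            rw [if_pos]
            exact ⟨q1, q2, q3⟩
          exact locConst_of_ev h1
        · have k1 := cut_left hW hc (by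
            rw [sub_re]
            linarith [neg_norm_le_re (p.b 2), re_le_norm' (p.b 3)])
          rw [sub_re] at k1
          have h1 : ∀ᶠ q : Cone in 𝓝 p, I1 (Total.mk q) = 0 := by
            filter_upwards [c2.eventually_lt c1 (by linarith)] with q q2
            rw [I1_mk]
            unfold ind
            rw [if_neg]
            rintro ⟨-, h1, -⟩
            exact absurd h1 (not_lt.2 q2.le)
          exact locConst_of_ev h1
    · left
      rw [not_le] at hn
      have h1 : ∀ᶠ q : Cone in 𝓝 p, I1 (Total.mk q) = 0 := by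
        filter_upwards [(continuousAt_const (y := (2 : ℝ))).eventually_lt cn hn] with q q2
        rw [I1_mk]
        unfold ind
        rw [if_neg]
        rintro ⟨-, -, h1⟩
        exact absurd h1 (not_lt.2 q2.le)
      exact locConst_of_ev h1

/-- the indicator of a disc around `a` is locally constant off its boundary circle -/
theorem disc_locConst {a : ℂ} {r : ℝ} {f : Total → ℚ}
    (hf : ∀ q : Cone, f (Total.mk q) = ind (q.W 2 ≠ 0 ∧ ‖q.X 2 / q.W 2 - a‖ < r)) (p : Cone)
    (h : ¬ (p.W 2 ≠ 0 ∧ ‖p.X 2 / p.W 2 - a‖ = r)) :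
    ∃ V : Set Total, IsOpen V ∧ Total.mk p ∈ V ∧ ∀ Q ∈ V, f Q = f (Total.mk p) := by
  by_cases hW : p.W 2 = 0
  · have hX := cone_ne hW
    have c1 : Continuous fun q : Cone => r * ‖q.W 2‖ :=
      continuous_const.mul (cone_W_continuous 2).norm
    have c2 : Continuous fun q : Cone => ‖q.X 2 - a * q.W 2‖ :=
      ((cone_X_continuous 2).sub (continuous_const.mul (cone_W_continuous 2))).norm
    have h1 : ∀ᶠ q : Cone in 𝓝 p, f (Total.mk q) = 0 := by
      filter_upwards [c1.continuousAt.eventually_lt c2.continuousAt (by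
        rw [hW, norm_zero, mul_zero, mul_zero, sub_zero]; exact norm_pos_iff.2 hX)] with q hq
      rw [hf]
      unfold ind
      rw [if_neg]
      rintro ⟨k1, k2⟩
      have k3 : q.X 2 / q.W 2 - a = (q.X 2 - a * q.W 2) / q.W 2 := by field_simp
      rw [k3, norm_div, div_lt_iff₀ (norm_pos_iff.2 k1)] at k2
      linarith
    exact locConst_of_ev h1
  · have hne : ‖p.X 2 / p.W 2 - a‖ ≠ r := fun h' => h ⟨hW, h'⟩
    have cn : ContinuousAt (fun q : Cone => ‖q.X 2 / q.W 2 - a‖) p :=
      ((cont_div hW).sub continuousAt_const).norm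
    rcases lt_or_gt_of_ne hne with h' | h'
    · have h1 : ∀ᶠ q : Cone in 𝓝 p, f (Total.mk q) = 1 := by
        filter_upwards [ev_ne hW, cn.eventually_lt continuousAt_const h'] with q q1 q2
        rw [hf]
        unfold ind
        rw [if_pos]
        exact ⟨q1, q2⟩
      exact locConst_of_ev h1
    · have h1 : ∀ᶠ q : Cone in 𝓝 p, f (Total.mk q) = 0 := by
        filter_upwards [(continuousAt_const (y := r)).eventually_lt cn h'] with q q2
        rw [hf]
        unfold ind
        rw [if_neg]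
        rintro ⟨-, k2⟩
        exact absurd k2 (not_lt.2 q2.le)
      exact locConst_of_ev h1

/-- the cut `[r, r']` inside a disc -/
theorem cut_in_disc {r r' a W X : ℂ} (hW : W ≠ 0)
    (h : (X - r' * W) / (X - r * W) ∉ slitPlane) (h1 : ‖r - a‖ ≤ 1) (h2 : ‖r' - a‖ ≤ 1) :
    ‖X / W - a‖ ≤ 1 := by
  rcases cut_point hW h with h3 | ⟨k, hk, h3⟩
  · rw [h3]; exact h1
  · have h4 : (1 + (k : ℂ)) * (X / W - a) = (r' - a) + k * (r - a) := by
      linear_combination h3
    have h5 := congrArg norm h4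
    rw [norm_mul] at h5
    have h6 : ‖(1 : ℂ) + (k : ℂ)‖ = 1 + k := by
      have : (1 : ℂ) + (k : ℂ) = ((1 + k : ℝ) : ℂ) := by push_cast; rfl
      rw [this, Complex.norm_real, Real.norm_of_nonneg (by linarith)]
    have h7 : ‖(r' - a) + (k : ℂ) * (r - a)‖ ≤ 1 + k := by
      refine (norm_add_le _ _).trans ?_
      rw [norm_mul, Complex.norm_real, Real.norm_of_nonneg hk]
      nlinarith [norm_nonneg (r - a)]
    rw [h6] at h5
    have h8 : 0 < 1 + k := by linarith
    rw [← h5] at h7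
    have h9 : (1 + k) * ‖X / W - a‖ ≤ (1 + k) * 1 := by linarith
    exact le_of_mul_le_mul_left h9 h8

theorem re_sub_im_le (z : ℂ) : (z.re - z.im) ^ 2 ≤ 2 * ‖z‖ ^ 2 := by
  have h : ‖z‖ ^ 2 = z.re ^ 2 + z.im ^ 2 := by
    rw [← Complex.normSq_eq_norm_sq, Complex.normSq_apply]; ring
  rw [h]
  nlinarith [sq_nonneg (z.re + z.im)]

theorem re_add_im_le (z : ℂ) : (z.re + z.im) ^ 2 ≤ 2 * ‖z‖ ^ 2 := by
  have h : ‖z‖ ^ 2 = z.re ^ 2 + z.im ^ 2 := by
    rw [← Complex.normSq_eq_norm_sq, Complex.normSq_apply]; ring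
  rw [h]
  nlinarith [sq_nonneg (z.re - z.im)]

theorem I2_dichotomy (p : Cone) :
    (∃ V : Set Total, IsOpen V ∧ Total.mk p ∈ V ∧ ∀ Q ∈ V, I2 Q = I2 (Total.mk p)) ∨
    ((p.W 2 ≠ 0 ∧ ‖p.X 2 / p.W 2 - (1 - I)‖ = 5 / 4) ∧ OffCuts 1 (-I) I (-1) (p.W 2) (p.X 2)) := by
  by_cases h : p.W 2 ≠ 0 ∧ ‖p.X 2 / p.W 2 - (1 - I)‖ = 5 / 4
  · right
    refine ⟨h, ?_, ?_⟩
    · by_contra hc
      have k := cut_in_disc (a := 1 - I) h.1 hc (by simp) (by
        have : -I - (1 - I) = -1 := by ring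
        rw [this]; simp)
      rw [h.2] at k
      norm_num at k
    · by_contra hc
      have hl : (p.X 2 / p.W 2).re - (p.X 2 / p.W 2).im = -1 := by
        rcases cut_point h.1 hc with h3 | ⟨k, hk, h3⟩
        · rw [h3]; simp
        · have e1 := congrArg Complex.re h3
          have e2 := congrArg Complex.im h3
          simp only [add_re, mul_re, one_re, ofReal_re, add_im, one_im, ofReal_im, mul_im, neg_re,
            neg_im, I_re, I_im] at e1 e2
          have h8 : 0 < 1 + k := by linarith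
          have : (1 + k) * ((p.X 2 / p.W 2).re - (p.X 2 / p.W 2).im) = (1 + k) * (-1) := by
            linarith
          exact mul_left_cancel₀ h8.ne' this
      have h4 := re_sub_im_le (p.X 2 / p.W 2 - (1 - I))
      rw [h.2] at h4
      have h5 : (p.X 2 / p.W 2 - (1 - I)).re - (p.X 2 / p.W 2 - (1 - I)).im = -3 := by
        simp only [sub_re, sub_im, one_re, one_im, I_re, I_im]
        linarith
      rw [h5] at h4
      norm_num at h4
  · exact Or.inl (disc_locConst (fun q => rfl) p h)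

theorem J2_dichotomy (p : Cone) :
    (∃ V : Set Total, IsOpen V ∧ Total.mk p ∈ V ∧ ∀ Q ∈ V, J2 Q = J2 (Total.mk p)) ∨
    ((p.W 2 ≠ 0 ∧ ‖p.X 2 / p.W 2 - (1 + I)‖ = 5 / 4) ∧ OffCuts 1 I (-1) (-I) (p.W 2) (p.X 2)) := by
  by_cases h : p.W 2 ≠ 0 ∧ ‖p.X 2 / p.W 2 - (1 + I)‖ = 5 / 4
  · right
    refine ⟨h, ?_, ?_⟩
    · by_contra hc
      have k := cut_in_disc (a := 1 + I) h.1 hc (by simp) (by simp)
      rw [h.2] at k
      norm_num at k
    · by_contra hc
      have hl : (p.X 2 / p.W 2).re + (p.X 2 / p.W 2).im = -1 := by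
        rcases cut_point h.1 hc with h3 | ⟨k, hk, h3⟩
        · rw [h3]; simp
        · have e1 := congrArg Complex.re h3
          have e2 := congrArg Complex.im h3
          simp only [add_re, mul_re, one_re, ofReal_re, add_im, one_im, ofReal_im, mul_im, neg_re,
            neg_im, I_re, I_im] at e1 e2
          have h8 : 0 < 1 + k := by linarith
          have : (1 + k) * ((p.X 2 / p.W 2).re + (p.X 2 / p.W 2).im) = (1 + k) * (-1) := by
            linarith
          exact mul_left_cancel₀ h8.ne' this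
      have h4 := re_add_im_le (p.X 2 / p.W 2 - (1 + I))
      rw [h.2] at h4
      have h5 : (p.X 2 / p.W 2 - (1 + I)).re + (p.X 2 / p.W 2 - (1 + I)).im = -3 := by
        simp only [sub_re, sub_im, add_re, add_im, one_re, one_im, I_re, I_im]
        linarith
      rw [h5] at h4
      norm_num at h4
  · exact Or.inl (disc_locConst (fun q => rfl) p h)

theorem E02_locConst (p : Cone)
    (h : OffCuts 1 (p.b 0) (-1) (p.b 0 - p.b 1) (p.W 0) (p.X 0))
    (h' : OffCuts 1 (-I) I (-1) (p.W 2) (p.X 2)) :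
    ∃ V : Set Total, IsOpen V ∧ Total.mk p ∈ V ∧ ∀ Q ∈ V, E02 Q = E02 (Total.mk p) := by
  obtain ⟨V, hV, hp, h1⟩ := sheet_locConst (Z := Cone) (r₁ := fun _ => 1) (r₂ := fun q => q.b 0)
    (r₃ := fun _ => -1) (r₄ := fun q => q.b 0 - q.b 1) (W := fun q => q.W 0) (X := fun q => q.X 0)
    (Y := fun q => q.Y 0) continuous_const (cont_bi 0) continuous_const
    ((cont_bi 0).sub (cont_bi 1)) (cone_W_continuous 0) (cone_X_continuous 0)
    (cone_Y_continuous 0) (fun q => by
      rw [cone_root_ne q 0, Fin.prod_univ_four]; simp [root]; ring) p h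
  obtain ⟨V', hV', hp', h2⟩ := sheet_locConst (Z := Cone) (r₁ := fun _ => 1) (r₂ := fun _ => -I)
    (r₃ := fun _ => I) (r₄ := fun _ => -1) (W := fun q => q.W 2) (X := fun q => q.X 2)
    (Y := fun q => q.Y 2) continuous_const continuous_const continuous_const
    continuous_const (cone_W_continuous 2) (cone_X_continuous 2)
    (cone_Y_continuous 2) (fun q => by
      rw [cone_root_ne q 2, Fin.prod_univ_four]; simp [root]; ring) p h'
  refine exists_open_of_eventually (P := fun Q => E02 Q = E02 (Total.mk p)) ?_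
  filter_upwards [hV.mem_nhds hp, hV'.mem_nhds hp'] with q q1 q2
  rw [E02_mk, E02_mk]
  unfold eps0 eps2
  rw [(h1 q q1).2, (h2 q q2).2]

theorem E12_locConst (p : Cone)
    (h : OffCuts 1 (p.b 2) (-1) (p.b 2 - p.b 3) (p.W 1) (p.X 1))
    (h' : OffCuts 1 I (-1) (-I) (p.W 2) (p.X 2)) :
    ∃ V : Set Total, IsOpen V ∧ Total.mk p ∈ V ∧ ∀ Q ∈ V, E12 Q = E12 (Total.mk p) := by
  obtain ⟨V, hV, hp, h1⟩ := sheet_locConst (Z := Cone) (r₁ := fun _ => 1) (r₂ := fun q => q.b 2)
    (r₃ := fun _ => -1) (r₄ := fun q => q.b 2 - q.b 3) (W := fun q => q.W 1) (X := fun q => q.X 1)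
    (Y := fun q => q.Y 1) continuous_const (cont_bi 2) continuous_const
    ((cont_bi 2).sub (cont_bi 3)) (cone_W_continuous 1) (cone_X_continuous 1)
    (cone_Y_continuous 1) (fun q => by
      rw [cone_root_ne q 1, Fin.prod_univ_four]; simp [root]; ring) p h
  obtain ⟨V', hV', hp', h2⟩ := sheet_locConst (Z := Cone) (r₁ := fun _ => 1) (r₂ := fun _ => I)
    (r₃ := fun _ => -1) (r₄ := fun _ => -I) (W := fun q => q.W 2) (X := fun q => q.X 2)
    (Y := fun q => q.Y 2) continuous_const continuous_const continuous_const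
    continuous_const (cone_W_continuous 2) (cone_X_continuous 2)
    (cone_Y_continuous 2) (fun q => by
      rw [cone_root_ne q 2, Fin.prod_univ_four]; simp [root]) p h'
  refine exists_open_of_eventually (P := fun Q => E12 Q = E12 (Total.mk p)) ?_
  filter_upwards [hV.mem_nhds hp, hV'.mem_nhds hp'] with q q1 q2
  rw [E12_mk, E12_mk]
  unfold eps1 eps2'
  rw [(h1 q q1).2, (h2 q q2).2]

theorem locCond_x {lam : ℝ} (h0 : 0 < lam) (h1 : lam < 1) :
    LocCond (Over Good) E02 (I0 lam) I2 := by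
  intro P hP
  obtain ⟨p, rfl⟩ := mk_surjective P
  have hp : p.b ∈ Good := hP
  rcases I0_dichotomy h0 h1 p hp with ⟨V, hV, hpV, h⟩ | ⟨-, h⟩
  · exact ⟨V, hV, hpV, Or.inr (Or.inl h)⟩
  · rcases I2_dichotomy p with ⟨V, hV, hpV, h'⟩ | ⟨-, h'⟩
    · exact ⟨V, hV, hpV, Or.inr (Or.inr h')⟩
    · obtain ⟨V, hV, hpV, h2⟩ := E02_locConst p h h'
      exact ⟨V, hV, hpV, Or.inl h2⟩

theorem locCond_y : LocCond (Over Good) E12 I1 J2 := by
  intro P hP
  obtain ⟨p, rfl⟩ := mk_surjective P
  have hp : p.b ∈ Good := hP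
  rcases I1_dichotomy p hp with ⟨V, hV, hpV, h⟩ | ⟨-, h⟩
  · exact ⟨V, hV, hpV, Or.inr (Or.inl h)⟩
  · rcases J2_dichotomy p with ⟨V, hV, hpV, h'⟩ | ⟨-, h'⟩
    · exact ⟨V, hV, hpV, Or.inr (Or.inr h')⟩
    · obtain ⟨V, hV, hpV, h2⟩ := E12_locConst p h h'
      exact ⟨V, hV, hpV, Or.inl h2⟩

/-- hypothesis of `wcoc_cohom` for two levels: if both indicators are not equal near `P`, then
`x₀` lies in the closed strip between the two lines (or `W₀ = 0`), off the cuts -/
theorem levels_cond {lam lam' : ℝ} (h0 : 0 < lam) (h1 : lam < 1) (h0' : 0 < lam') (h1' : lam' < 1) :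
    ∀ P ∈ Over Good, ∃ V : Set Total, IsOpen V ∧ P ∈ V ∧
      ((∀ Q ∈ V, I0 lam Q = I0 lam' Q) ∨ (∀ Q ∈ V, E02 Q = E02 P) ∨ (∀ Q ∈ V, I2 Q = I2 P)) := by
  intro P hP
  obtain ⟨p, rfl⟩ := mk_surjective P
  have hp : p.b ∈ Good := hP
  obtain ⟨g0, g1, g2, g3, g4, g5, g6⟩ := hp
  rcases I2_dichotomy p with ⟨V, hV, hpV, h'⟩ | ⟨-, h'⟩
  · exact ⟨V, hV, hpV, Or.inr (Or.inr h')⟩
  · by_cases hoff : OffCuts 1 (p.b 0) (-1) (p.b 0 - p.b 1) (p.W 0) (p.X 0)
    · obtain ⟨V, hV, hpV, h2⟩ := E02_locConst p hoff h'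
      exact ⟨V, hV, hpV, Or.inr (Or.inl h2)⟩
    · have hW : p.W 0 ≠ 0 := by
        intro hW
        apply hoff
        rw [hW]
        exact inf_offCuts (cone_ne hW)
      have hev : ∀ᶠ q : Cone in 𝓝 p, I0 lam (Total.mk q) = I0 lam' (Total.mk q) := by
        unfold OffCuts at hoff
        rw [not_and_or] at hoff
        rcases hoff with hc | hc
        · have k1 := cut_right hW hc (by linarith [re_le_norm' (p.b 0)])
          filter_upwards [ev_I0_one (lam := lam) hW (by nlinarith),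
            ev_I0_one (lam := lam') hW (by nlinarith)] with q q1 q2
          rw [q1, q2]
        · have k1 := cut_left hW hc (by
            rw [sub_re]
            linarith [neg_norm_le_re (p.b 0), re_le_norm' (p.b 1)])
          rw [sub_re] at k1
          filter_upwards [ev_I0_zero (lam := lam) hW (by nlinarith),
            ev_I0_zero (lam := lam') hW (by nlinarith)] with q q1 q2
          rw [q1, q2]
      obtain ⟨V, hV, hpV, h2⟩ := exists_open_of_eventually
        (P := fun Q => I0 lam Q = I0 lam' Q) hev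
      exact ⟨V, hV, hpV, Or.inl h2⟩

end TripleBurger
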