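import Pool.Agent.helper10.K3B.LocX

/-!
# K3B module LOCXY: `x ∪ y` vanishes locally over `Good`
-/

namespace TripleBurger

open Complex K3B

/-- the centre `1 ± i` has absolute value `√2 > 7/5`. -/
theorem norm_lower_aux {z w : ℂ} (hw : normSq w = 2) (h : ‖z - w‖ = 5 / 4) :
    (4 / 25 : ℝ) < ‖z‖ := by
  have h1 : (141 / 100 : ℝ) < ‖w‖ := by
    have h2 : ‖w‖ ^ 2 = 2 := by rw [← Complex.normSq_eq_norm_sq]; exact hw
    nlinarith [norm_nonneg w]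
  have h3 : ‖w‖ ≤ ‖z‖ + ‖z - w‖ := by
    have h4 : w = z - (z - w) := by ring
    calc ‖w‖ = ‖z - (z - w)‖ := by rw [← h4]
      _ ≤ ‖z‖ + ‖z - w‖ := norm_sub_le _ _
  rw [h] at h3
  linarith

/-- The numerical heart: `x₀ x₂ = μ x₁`, `|x₁| ≤ 2`, `|x₂| > 4/25` and
`100 |μ| < r` give `|Re x₀| < r/7`, and `W₀ ≠ 0`. -/
theorem x0_small (p : Cone) (r : ℝ) (h1 : p.W 1 ≠ 0) (h1' : ‖p.X 1 / p.W 1‖ ≤ 2)
    (h2 : p.W 2 ≠ 0) (h2' : (4 / 25 : ℝ) < ‖p.X 2 / p.W 2‖) (hμ : 100 * ‖p.b 4‖ < r) :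
    p.W 0 ≠ 0 ∧ |(p.X 0 / p.W 0).re| < r / 7 := by
  have hrel : p.X 0 * p.X 2 * p.W 1 = p.b 4 * p.X 1 * p.W 0 * p.W 2 := p.2.2.2.2
  have hX2 : p.X 2 ≠ 0 := by
    intro h
    rw [h, zero_div, norm_zero] at h2'
    norm_num at h2'
  have hW0 : p.W 0 ≠ 0 := by
    intro h
    rw [h] at hrel
    have hX0 : p.X 0 ≠ 0 := by
      rcases p.2.2.1 0 with h0 | h0
      · exact absurd h h0
      · exact h0
    have : p.X 0 * p.X 2 * p.W 1 ≠ 0 := mul_ne_zero (mul_ne_zero hX0 hX2) h1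
    apply this
    rw [hrel]
    ring
  refine ⟨hW0, ?_⟩
  have hx : p.X 0 / p.W 0 * (p.X 2 / p.W 2) = p.b 4 * (p.X 1 / p.W 1) := by
    field_simp
    linear_combination hrel
  have hn : ‖p.X 0 / p.W 0‖ * ‖p.X 2 / p.W 2‖ = ‖p.b 4‖ * ‖p.X 1 / p.W 1‖ := by
    rw [← norm_mul, hx, norm_mul]
  have hre : |(p.X 0 / p.W 0).re| ≤ ‖p.X 0 / p.W 0‖ := Complex.abs_re_le_norm _
  have h3 : ‖p.b 4‖ * ‖p.X 1 / p.W 1‖ ≤ ‖p.b 4‖ * 2 :=
    mul_le_mul_of_nonneg_left h1' (norm_nonneg _)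
  have h4 : ‖p.X 0 / p.W 0‖ * (4 / 25) ≤ ‖p.X 0 / p.W 0‖ * ‖p.X 2 / p.W 2‖ :=
    mul_le_mul_of_nonneg_left h2'.le (norm_nonneg _)
  have h5 : 0 ≤ ‖p.b 4‖ := norm_nonneg _
  nlinarith

/-- if the line `Re = Re s - lam Re e` stays away from `0`, the supports of `x_lam` and `y` are
disjoint over a neighbourhood of `b`: on both supports `|x₁| ≤ 2`, `|x₂| ≥ √2 - 5/4`, so
`|x₀| ≤ 13 |μ| < Re e / 7`. -/
theorem xy_disjoint {lam : ℝ} (h0 : 0 < lam) (h1 : lam < 1) (b : Param) (hb : b ∈ Good)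
    (hd : (b 1).re / 6 ≤ |(b 0).re - lam * (b 1).re|) :
    ∃ V : Set Param, IsOpen V ∧ b ∈ V ∧ V ⊆ Good ∧
      ∀ P ∈ Over V, ∃ O : Set Total, IsOpen O ∧ P ∈ O ∧
      ((∀ Q ∈ O, I0 lam Q = I0 lam P) ∨ (∀ Q ∈ O, I2 Q = I2 P) ∨
        (∀ Q ∈ O, I1 Q = I1 P) ∨ (∀ Q ∈ O, J2 Q = J2 P)) := by
  have hcont : ∀ i : Fin 5, Continuous (fun c : Param => (c i).re) := fun i =>
    Complex.continuous_re.comp (continuous_apply i)
  have hopen : IsOpen {c : Param | (c 1).re / 7 < |(c 0).re - lam * (c 1).re|} :=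
    isOpen_lt ((hcont 1).div_const 7) (((hcont 0).sub (continuous_const.mul (hcont 1))).abs)
  refine ⟨Good ∩ {c : Param | (c 1).re / 7 < |(c 0).re - lam * (c 1).re|},
    good_isOpen.inter hopen, ⟨hb, ?_⟩, Set.inter_subset_left, ?_⟩
  · have hpos : 0 < (b 1).re := hb.2.2.2.2.1
    show (b 1).re / 7 < |(b 0).re - lam * (b 1).re|
    linarith
  · intro P hP
    obtain ⟨p, rfl⟩ := mk_surjective P
    have hpg : p.b ∈ Good := hP.1
    have hpl : (p.b 1).re / 7 < |(p.b 0).re - lam * (p.b 1).re| := hP.2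
    rcases I0_dichotomy h0 h1 p hpg with ⟨V, hV, hpV, hc⟩ | ⟨hA, -⟩
    · exact ⟨V, hV, hpV, Or.inl hc⟩
    rcases I2_dichotomy p with ⟨V, hV, hpV, hc⟩ | ⟨⟨hW2, hB⟩, -⟩
    · exact ⟨V, hV, hpV, Or.inr (Or.inl hc)⟩
    rcases I1_dichotomy p hpg with ⟨V, hV, hpV, hc⟩ | ⟨⟨hW1, hC⟩, -⟩
    · exact ⟨V, hV, hpV, Or.inr (Or.inr (Or.inl hc))⟩
    exfalso
    have hx2 : (4 / 25 : ℝ) < ‖p.X 2 / p.W 2‖ :=
      norm_lower_aux (w := 1 - I) (by simp [Complex.normSq_apply]; norm_num) hB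
    obtain ⟨hW0, hsmall⟩ := x0_small p (p.b 1).re hW1 hC hW2 hx2 hpg.2.2.2.2.2.2
    rcases hA with hA | hA
    · exact hW0 hA
    · rw [hA] at hsmall
      exact absurd hsmall (not_lt.2 hpl.le)

/-- **local vanishing of `x ∪ y`** -/
theorem xy_loc : ∀ b ∈ Good, ∃ V : Set Param, IsOpen V ∧ b ∈ V ∧ V ⊆ Good ∧
    ∃ w : Total → Total → Total → Total → ℚ,
      LZ5 (Over V) (fun p q r s t => cup22 (xc (1 / 3)) yc p q r s t - d3 w p q r s t) := by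
  intro b hb
  have hpos : 0 < (b 1).re := hb.2.2.2.2.1
  by_cases hd : (b 1).re / 6 ≤ |(b 0).re - (1 / 3 : ℝ) * (b 1).re|
  · obtain ⟨V, hV, hbV, hVG, hO⟩ := xy_disjoint (lam := 1 / 3) (by norm_num) (by norm_num) b hb hd
    refine ⟨V, hV, hbV, hVG, fun _ _ _ _ => 0, ?_⟩
    have key := cup_locZero (Over V) E02 (I0 (1 / 3)) I2 E12 I1 J2 hO
    intro x hx
    obtain ⟨O, hOo, hxO, h⟩ := key x hx
    refine ⟨O, hOo, hxO, fun p hp q hq r hr s hs t ht => ?_⟩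
    have h2 := h p hp q hq r hr s hs t ht
    show cup22 (xc (1 / 3)) yc p q r s t - d3 (fun _ _ _ _ => 0) p q r s t = 0
    rw [show cup22 (xc (1 / 3)) yc p q r s t = 0 from h2]
    simp [d3]
  · have hd2 : (b 1).re / 6 ≤ |(b 0).re - (2 / 3 : ℝ) * (b 1).re| := by
      have hd' := not_le.1 hd
      rw [abs_lt] at hd'
      rw [le_abs]
      right
      linarith [hd'.2]
    obtain ⟨V, hV, hbV, hVG, hO⟩ := xy_disjoint (lam := 2 / 3) (by norm_num) (by norm_num) b hb hd2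
    have key := cup_locZero (Over V) E02 (I0 (2 / 3)) I2 E12 I1 J2 hO
    have hsub : Over V ⊆ Over Good := fun P hP => hVG hP
    have h3 := wcoc_cohom (Over V) E02 (I0 (1 / 3)) (I0 (2 / 3)) I2
      (fun P hP => levels_cond (by norm_num) (by norm_num) (by norm_num) (by norm_num) P (hsub hP))
    have h4 : LZ4 (Over V) (d2 yc) :=
      wcoc_cocycle (Over V) E12 I1 J2 (fun P hP => locCond_y P (hsub hP))
    have h5 := cup_cohom (Over V) (xc (1 / 3)) (xc (2 / 3)) yc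
      (fun p q => E02 p * (I0 (1 / 3) p - I0 (2 / 3) p) * (I2 q - I2 p)) h3 h4
    refine ⟨V, hV, hbV, hVG, fun p q r s =>
      (E02 p * (I0 (1 / 3) p - I0 (2 / 3) p) * (I2 q - I2 p)) * yc q r s, ?_⟩
    intro x hx
    obtain ⟨O, hOo, hxO, h⟩ := key x hx
    obtain ⟨O', hOo', hxO', h'⟩ := h5 x hx
    refine ⟨O ∩ O', hOo.inter hOo', ⟨hxO, hxO'⟩, fun p hp q hq r hr s hs t ht => ?_⟩
    have e1 : cup22 (xc (2 / 3)) yc p q r s t = 0 :=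
      h p hp.1 q hq.1 r hr.1 s hs.1 t ht.1
    have e2 := h' p hp.2 q hq.2 r hr.2 s hs.2 t ht.2
    beta_reduce at e2 ⊢
    rw [e1] at e2
    linear_combination e2

end TripleBurger
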