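import Pool.Agent.helper10.K3B.TorDef
import Pool.Agent.helper10.K3B.E3
import Pool.Agent.helper84.K3B.Radii

/-!
# K3B module RAD: admissible radii exist; the torus `Phi`
-/

namespace TripleBurger

open Complex K3B

/-! ### the base contains the non-vanishing set of a polynomial -/

/-- the branch points as polynomials in the parameters -/
noncomputable def rootP (i : Fin 3) : Fin 4 → MvPolynomial (Fin 5) ℂ :=
  match i with
  | 0 => ![MvPolynomial.X 0, MvPolynomial.X 0 - MvPolynomial.X 1, 1, -1]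
  | 1 => ![MvPolynomial.X 2, MvPolynomial.X 2 - MvPolynomial.X 3, 1, -1]
  | 2 => ![1, MvPolynomial.C Complex.I, -1, -MvPolynomial.C Complex.I]

theorem eval_rootP (b : Param) (i : Fin 3) (j : Fin 4) :
    MvPolynomial.eval b (rootP i j) = root b i j := by
  fin_cases i <;> fin_cases j <;> simp [rootP, root]

/-- the product of all the polynomials which must not vanish on the base -/
noncomputable def baseP : MvPolynomial (Fin 5) ℂ :=
  (∏ i : Fin 3, ∏ j : Fin 4, ∏ k : Fin 4, if j = k then 1 else rootP i j - rootP i k) *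
    ((∏ i : Fin 3, ∏ j : Fin 4, rootP i j) * (MvPolynomial.X 4 *
    ∏ j : Fin 4, ∏ k : Fin 4, ∏ l : Fin 4,
      (rootP 0 j * rootP 2 l - MvPolynomial.X 4 * rootP 1 k)))

theorem eval_baseP (b : Param) : MvPolynomial.eval b baseP ≠ 0 ↔ b ∈ BaseSet := by
  unfold baseP BaseSet
  rw [map_mul, map_mul, map_mul]
  simp only [mul_ne_zero_iff, map_prod, Finset.prod_ne_zero_iff, Finset.mem_univ, forall_true_left,
    MvPolynomial.eval_X, map_sub, map_mul, eval_rootP, sub_ne_zero, Set.mem_ofPred_eq]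
  refine and_congr ⟨fun h i j k hjk => ?_, fun h i j k => ?_⟩ Iff.rfl
  · by_contra hne
    have h1 := h i j k
    rw [if_neg hne, map_sub, eval_rootP, eval_rootP, hjk, sub_self] at h1
    exact h1 rfl
  · by_cases hjk : j = k
    · rw [if_pos hjk, map_one]
      exact one_ne_zero
    · rw [if_neg hjk, map_sub, eval_rootP, eval_rootP]
      exact sub_ne_zero.2 fun h0 => hjk (h i h0)

/-- a point of the base -/
noncomputable def bStar : Param := ![2, -1, 5, -2, 1 / 10]

theorem bStar_mem : bStar ∈ BaseSet := by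
  have r0 : root bStar 0 = ![2, 3, 1, -1] := by
    funext j
    fin_cases j <;> simp [root, bStar] <;> norm_num
  have r1 : root bStar 1 = ![5, 7, 1, -1] := by
    funext j
    fin_cases j <;> simp [root, bStar] <;> norm_num
  have r2 : root bStar 2 = ![1, I, -1, -I] := rfl
  have hI1 : (1 : ℂ) ≠ I := fun h => by simpa using congrArg Complex.re h
  have hI2 : (-1 : ℂ) ≠ I := fun h => by simpa using congrArg Complex.re h
  have hI3 : (1 : ℂ) ≠ -I := fun h => by simpa using congrArg Complex.re h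
  have hI4 : (-1 : ℂ) ≠ -I := fun h => by simpa using congrArg Complex.re h
  have hI5 : (I : ℂ) ≠ -I := fun h => by
    have := congrArg Complex.im h
    simp at this
    norm_num at this
  have h11 : (1 : ℂ) ≠ -1 := by norm_num
  refine ⟨?_, ?_, ?_, ?_⟩
  · intro i j k hjk
    fin_cases i
    · rw [show (⟨0, by decide⟩ : Fin 3) = 0 from rfl] at hjk
      change root bStar 0 j = root bStar 0 k at hjk
      rw [r0] at hjk
      fin_cases j <;> fin_cases k <;> first | rfl | (exfalso; revert hjk; simp <;> norm_num)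
    · change root bStar 1 j = root bStar 1 k at hjk
      rw [r1] at hjk
      fin_cases j <;> fin_cases k <;> first | rfl | (exfalso; revert hjk; simp <;> norm_num)
    · change root bStar 2 j = root bStar 2 k at hjk
      rw [r2] at hjk
      fin_cases j <;> fin_cases k <;> first
        | rfl
        | exact absurd hjk hI1 | exact absurd hjk.symm hI1
        | exact absurd hjk hI2 | exact absurd hjk.symm hI2
        | exact absurd hjk hI3 | exact absurd hjk.symm hI3
        | exact absurd hjk hI4 | exact absurd hjk.symm hI4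
        | exact absurd hjk hI5 | exact absurd hjk.symm hI5
        | exact absurd hjk h11 | exact absurd hjk.symm h11
  · intro i j
    fin_cases i
    · show root bStar 0 j ≠ 0
      rw [r0]; fin_cases j <;> simp
    · show root bStar 1 j ≠ 0
      rw [r1]; fin_cases j <;> simp
    · show root bStar 2 j ≠ 0
      rw [r2]; fin_cases j <;> simp
  · show bStar 4 ≠ 0
    simp [bStar]
  · intro j k l h
    have h4 : ‖bStar 4‖ = 1 / 10 := by
      show ‖(1 / 10 : ℂ)‖ = 1 / 10
      rw [norm_div]; norm_num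
    have n0 : 1 ≤ ‖root bStar 0 j‖ := by
      rw [r0]; fin_cases j <;> simp
    have n1 : ‖root bStar 1 k‖ ≤ 7 := by
      rw [r1]; fin_cases k <;> simp <;> norm_num
    have n2 : ‖root bStar 2 l‖ = 1 := by
      rw [r2]; fin_cases l <;> simp
    have h5 := congrArg norm h
    rw [norm_mul, norm_mul, n2, h4] at h5
    linarith

/-- `BaseSet` contains the non-vanishing set of a non-zero polynomial -/
theorem exists_base_poly : ∃ G : MvPolynomial (Fin 5) ℂ, G ≠ 0 ∧
    ∀ b : Param, MvPolynomial.eval b G ≠ 0 → b ∈ BaseSet := by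
  refine ⟨baseP, fun h => ?_, fun b hb => (eval_baseP b).1 hb⟩
  have h1 := (eval_baseP bStar).2 bStar_mem
  rw [h, map_zero] at h1
  exact h1 rfl

/-! ### admissible radii -/

/-- extension of a finite sequence by `1` -/
noncomputable def ext1 (k : ℕ) (r : Fin k → ℝ) (j : ℕ) : ℝ := if h : j < k then r ⟨j, h⟩ else 1

/-- the bounds for the radii -/
noncomputable def bnd0 (e : ℕ → ℝ) (k : ℕ) : ℝ :=
  match k with
  | 1 => e 0 / 4
  | 3 => e 2 / 4
  | 4 => min (e 1 / 200) (e 0 / 200)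
  | _ => 1 / 4

/-- the bounds for the radii -/
noncomputable def bnd (k : ℕ) (r : Fin k → ℝ) : ℝ := bnd0 (ext1 k r) k

open Classical in
/-- the bounds, made positive -/
noncomputable def bnd' (k : ℕ) (r : Fin k → ℝ) : ℝ := if 0 < bnd k r then bnd k r else 1

theorem bnd'_pos (k : ℕ) (r : Fin k → ℝ) : 0 < bnd' k r := by
  unfold bnd'
  split_ifs with h
  · exact h
  · norm_num

theorem exists_adm (F : MvPolynomial (Fin 5) ℂ) (hF : F ≠ 0) : ∃ ρ : Fin 5 → ℝ, Adm F ρ := by
  obtain ⟨G, hG, hGb⟩ := exists_base_poly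
  obtain ⟨r, hr, hne⟩ := Pool.Agent.helper84.K3B.radii 5 (F * G) (mul_ne_zero hF hG) bnd' bnd'_pos
  have hp : ∀ i, 0 < r i := fun i => (hr i).1
  have key : ∀ i : Fin 5, 0 < bnd i.val (fun j => r ⟨j.val, j.2.trans i.2⟩) →
      r i < bnd i.val (fun j => r ⟨j.val, j.2.trans i.2⟩) := by
    intro i hi
    have h := (hr i).2
    unfold bnd' at h
    rwa [if_pos hi] at h
  have k0 := hp 0
  have k1 := hp 1
  have k2 := hp 2
  have k4 : r 0 < 1 / 4 := by
    have := key 0 (by show (0 : ℝ) < 1 / 4; norm_num)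
    exact this
  have k5 : r 1 < r 0 / 4 := by
    have e : bnd ((1 : Fin 5) : ℕ) (fun j => r ⟨j.val, j.2.trans (1 : Fin 5).2⟩) = r 0 / 4 := rfl
    have := key 1 (by rw [e]; positivity)
    rwa [e] at this
  have k6 : r 2 < 1 / 4 := by
    have := key 2 (by show (0 : ℝ) < 1 / 4; norm_num)
    exact this
  have k7 : r 3 < r 2 / 4 := by
    have e : bnd ((3 : Fin 5) : ℕ) (fun j => r ⟨j.val, j.2.trans (3 : Fin 5).2⟩) = r 2 / 4 := rfl
    have := key 3 (by rw [e]; positivity)
    rwa [e] at this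
  have k8 : r 4 < min (r 1 / 200) (r 0 / 200) := by
    have e : bnd ((4 : Fin 5) : ℕ) (fun j => r ⟨j.val, j.2.trans (4 : Fin 5).2⟩) =
      min (r 1 / 200) (r 0 / 200) := rfl
    have := key 4 (by rw [e]; positivity)
    rwa [e] at this
  refine ⟨r, hp, k4, k5, k6, k7, (lt_min_iff.1 k8).1, (lt_min_iff.1 k8).2, fun z hz => ?_⟩
  have h := hne z hz
  rw [map_mul] at h
  exact ⟨hGb z (right_ne_zero_of_mul h), left_ne_zero_of_mul h⟩

theorem bT_norm {F : MvPolynomial (Fin 5) ℂ} {ρ : Fin 5 → ℝ} (hρ : Adm F ρ) (θ₁ θ₂ : ℝ)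
    (i : Fin 5) : ‖bT ρ θ₁ θ₂ i‖ = ρ i := bT_norm_of_pos hρ.pos θ₁ θ₂ i

theorem bT_mem_UU {F : MvPolynomial (Fin 5) ℂ} {ρ : Fin 5 → ℝ} (hρ : Adm F ρ) (θ₁ θ₂ : ℝ) :
    bT ρ θ₁ θ₂ ∈ UU F := by
  have h := hρ.mem _ (bT_norm hρ θ₁ θ₂)
  have p1 := hρ.pos 1
  have p3 := hρ.pos 3
  have h0 := hρ.h0
  have h1 := hρ.h1
  have h2 := hρ.h2
  have h3 := hρ.h3
  have h4 := hρ.h4
  refine ⟨h.1, ?_, h.2⟩
  refine ⟨?_, ?_, ?_, ?_, ?_, ?_, ?_⟩
  · rw [bT_norm hρ]; linarith
  · rw [bT_norm hρ]; linarith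
  · rw [bT_norm hρ]; linarith
  · rw [bT_norm hρ]; linarith
  · rw [bT_one, ofReal_re]; exact p1
  · rw [bT_three, ofReal_re]; exact p3
  · rw [bT_norm hρ, bT_one, ofReal_re]; linarith

/-! ### continuity -/

theorem bT_continuous (ρ : Fin 5 → ℝ) : Continuous (fun θ : ℝ × ℝ => bT ρ θ.1 θ.2) := by
  refine continuous_pi fun i => ?_
  fin_cases i
  · show Continuous fun θ : ℝ × ℝ => (ρ 0 : ℂ) * exp (θ.1 * I)
    fun_prop
  · exact continuous_const
  · show Continuous fun θ : ℝ × ℝ => (ρ 2 : ℂ) * exp (θ.2 * I)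
    fun_prop
  · exact continuous_const
  · exact continuous_const

theorem csqrt_one_sub_continuousAt {z : ℂ} (h : ‖z‖ < 1) : ContinuousAt csqrt (1 - z) := by
  unfold csqrt
  refine continuousAt_cpow_const ?_
  left
  have h1 := Complex.re_le_norm z
  simp only [sub_re, one_re]
  linarith

/-- continuity of `y0T`, `y1T` along the torus -/
theorem y0T_continuous {F : MvPolynomial (Fin 5) ℂ} {ρ : Fin 5 → ℝ} (hρ : Adm F ρ) :
    Continuous (fun θ : ℝ × ℝ => y0T (bT ρ θ.1 θ.2)) := by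
  have c := bT_continuous ρ
  have ci (i : Fin 5) : Continuous fun θ : ℝ × ℝ => bT ρ θ.1 θ.2 i := (continuous_apply i).comp c
  have hne (i : Fin 5) (θ : ℝ × ℝ) : bT ρ θ.1 θ.2 i ≠ 0 :=
    norm_pos_iff.1 (by rw [bT_norm hρ]; exact hρ.pos i)
  have hd : Continuous fun θ : ℝ × ℝ => bT ρ θ.1 θ.2 1 / bT ρ θ.1 θ.2 0 :=
    (ci 1).div (ci 0) (hne 0)
  have hc : Continuous fun θ : ℝ × ℝ => csqrt (1 - bT ρ θ.1 θ.2 1 / bT ρ θ.1 θ.2 0) := by
    rw [continuous_iff_continuousAt]
    intro θ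
    have h1 : ‖bT ρ θ.1 θ.2 1 / bT ρ θ.1 θ.2 0‖ < 1 := by
      rw [norm_div, bT_norm hρ, bT_norm hρ, div_lt_one (hρ.pos 0)]
      have := hρ.h1
      have := hρ.pos 0
      linarith
    exact ContinuousAt.comp (f := fun θ : ℝ × ℝ => 1 - bT ρ θ.1 θ.2 1 / bT ρ θ.1 θ.2 0)
      (csqrt_one_sub_continuousAt h1) (continuous_const.sub hd).continuousAt
  unfold y0T
  exact (continuous_const.mul (ci 0)).mul hc

theorem y1T_continuous {F : MvPolynomial (Fin 5) ℂ} {ρ : Fin 5 → ℝ} (hρ : Adm F ρ) :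
    Continuous (fun θ : ℝ × ℝ => y1T (bT ρ θ.1 θ.2)) := by
  have c := bT_continuous ρ
  have ci (i : Fin 5) : Continuous fun θ : ℝ × ℝ => bT ρ θ.1 θ.2 i := (continuous_apply i).comp c
  have hne (i : Fin 5) (θ : ℝ × ℝ) : bT ρ θ.1 θ.2 i ≠ 0 :=
    norm_pos_iff.1 (by rw [bT_norm hρ]; exact hρ.pos i)
  have hd : Continuous fun θ : ℝ × ℝ => bT ρ θ.1 θ.2 3 / bT ρ θ.1 θ.2 2 :=
    (ci 3).div (ci 2) (hne 2)
  have hc : Continuous fun θ : ℝ × ℝ => csqrt (1 - bT ρ θ.1 θ.2 3 / bT ρ θ.1 θ.2 2) := by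
    rw [continuous_iff_continuousAt]
    intro θ
    have h1 : ‖bT ρ θ.1 θ.2 3 / bT ρ θ.1 θ.2 2‖ < 1 := by
      rw [norm_div, bT_norm hρ, bT_norm hρ, div_lt_one (hρ.pos 2)]
      have := hρ.h3
      have := hρ.pos 2
      linarith
    exact ContinuousAt.comp (f := fun θ : ℝ × ℝ => 1 - bT ρ θ.1 θ.2 3 / bT ρ θ.1 θ.2 2)
      (csqrt_one_sub_continuousAt h1) (continuous_const.sub hd).continuousAt
  unfold y1T
  exact (continuous_const.mul (ci 2)).mul hc

theorem Phi_continuous_aux {F : MvPolynomial (Fin 5) ℂ} {ρ : Fin 5 → ℝ} (hρ : Adm F ρ)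
    {Z : Type*} [TopologicalSpace Z] {a b c d : Z → ℝ} (ha : Continuous a) (hb : Continuous b)
    (hc : Continuous c) (hd : Continuous d) :
    Continuous fun z => Total.mk (secCone _ _ _ _ _ _ (phi_ok hρ (c z) (d z) (a z) (b z))) :=
  sec_continuous ((bT_continuous ρ).comp (hc.prodMk hd)) ((y0T_continuous hρ).comp (hc.prodMk hd))
    ((y1T_continuous hρ).comp (hc.prodMk hd)) ha hb fun z => phi_ok hρ (c z) (d z) (a z) (b z)

theorem Phi_continuous {F : MvPolynomial (Fin 5) ℂ} {ρ : Fin 5 → ℝ} (hρ : Adm F ρ) :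
    Continuous (Phi hρ) := by
  have hi (i : Fin 4) : Continuous fun v : Fin 4 → ℝ => 2 * Real.pi * v i :=
    continuous_const.mul (continuous_apply i)
  exact Phi_continuous_aux hρ (hi 0) (hi 1) (hi 2) (hi 3)

/-! ### periodicity -/

theorem secCone_congr {b b' : Param} {y0 y0' y1 y1' W W' X X' Y Y' : ℂ}
    (h : SecOK b y0 y1 W X Y) (h' : SecOK b' y0' y1' W' X' Y') (hb : b = b') (h0 : y0 = y0')
    (h1 : y1 = y1') (hW : W = W') (hX : X = X') (hY : Y = Y') :
    secCone b y0 y1 W X Y h = secCone b' y0' y1' W' X' Y' h' := by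
  subst hb h0 h1 hW hX hY
  rfl

theorem exp_add_period (θ : ℝ) : exp (((θ + 2 * Real.pi : ℝ) : ℂ) * I) = exp (θ * I) := by
  have h : ((θ + 2 * Real.pi : ℝ) : ℂ) * I = θ * I + 2 * Real.pi * I := by
    push_cast; ring
  rw [h, Complex.exp_add, Complex.exp_two_pi_mul_I, mul_one]

theorem bT_add_left (ρ : Fin 5 → ℝ) (θ₁ θ₂ : ℝ) :
    bT ρ (θ₁ + 2 * Real.pi) θ₂ = bT ρ θ₁ θ₂ := by
  unfold bT
  rw [exp_add_period]

theorem bT_add_right (ρ : Fin 5 → ℝ) (θ₁ θ₂ : ℝ) :
    bT ρ θ₁ (θ₂ + 2 * Real.pi) = bT ρ θ₁ θ₂ := by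
  unfold bT
  rw [exp_add_period]

theorem Phi_periodic {F : MvPolynomial (Fin 5) ℂ} {ρ : Fin 5 → ℝ} (hρ : Adm F ρ)
    (v : Fin 4 → ℝ) (i : Fin 4) : Phi hρ (Function.update v i (v i + 1)) = Phi hρ v := by
  have hm (x : ℝ) : 2 * Real.pi * (x + 1) = 2 * Real.pi * x + 2 * Real.pi := by ring
  have hne {j : Fin 4} (h : j ≠ i) : Function.update v i (v i + 1) j = v j :=
    Function.update_of_ne h _ _
  unfold Phi
  congr 1
  fin_cases i
  · have e0 : Function.update v 0 (v 0 + 1) 0 = v 0 + 1 := Function.update_self _ _ _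
    have e1 : Function.update v 0 (v 0 + 1) 1 = v 1 := Function.update_of_ne (by decide) _ _
    have e2 : Function.update v 0 (v 0 + 1) 2 = v 2 := Function.update_of_ne (by decide) _ _
    have e3 : Function.update v 0 (v 0 + 1) 3 = v 3 := Function.update_of_ne (by decide) _ _
    refine secCone_congr _ _ ?_ ?_ ?_ ?_ ?_ ?_
    all_goals
      simp only [Fin.mk_zero, Fin.isValue, e0, e1, e2, e3, hm]
    · exact e3W_add_left _ _
    · exact e3X_add_left _ _
    · exact e3Y_add_left _ _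
  · have e0 : Function.update v 1 (v 1 + 1) 0 = v 0 := Function.update_of_ne (by decide) _ _
    have e1 : Function.update v 1 (v 1 + 1) 1 = v 1 + 1 := Function.update_self _ _ _
    have e2 : Function.update v 1 (v 1 + 1) 2 = v 2 := Function.update_of_ne (by decide) _ _
    have e3 : Function.update v 1 (v 1 + 1) 3 = v 3 := Function.update_of_ne (by decide) _ _
    refine secCone_congr _ _ ?_ ?_ ?_ ?_ ?_ ?_
    all_goals
      simp only [Fin.mk_one, Fin.isValue, e0, e1, e2, e3, hm]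
    · exact e3W_add_right _ _
    · exact e3X_add_right _ _
    · exact e3Y_add_right _ _
  · have e0 : Function.update v 2 (v 2 + 1) 0 = v 0 := Function.update_of_ne (by decide) _ _
    have e1 : Function.update v 2 (v 2 + 1) 1 = v 1 := Function.update_of_ne (by decide) _ _
    have e2 : Function.update v 2 (v 2 + 1) 2 = v 2 + 1 := Function.update_self _ _ _
    have e3 : Function.update v 2 (v 2 + 1) 3 = v 3 := Function.update_of_ne (by decide) _ _
    refine secCone_congr _ _ ?_ ?_ ?_ ?_ ?_ ?_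
    all_goals
      simp only [Fin.reduceFinMk, Fin.isValue, e0, e1, e2, e3, hm, bT_add_left]
  · have e0 : Function.update v 3 (v 3 + 1) 0 = v 0 := Function.update_of_ne (by decide) _ _
    have e1 : Function.update v 3 (v 3 + 1) 1 = v 1 := Function.update_of_ne (by decide) _ _
    have e2 : Function.update v 3 (v 3 + 1) 2 = v 2 := Function.update_of_ne (by decide) _ _
    have e3 : Function.update v 3 (v 3 + 1) 3 = v 3 + 1 := Function.update_self _ _ _
    refine secCone_congr _ _ ?_ ?_ ?_ ?_ ?_ ?_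
    all_goals
      simp only [Fin.reduceFinMk, Fin.isValue, e0, e1, e2, e3, hm, bT_add_right]

theorem Phi_proj {F : MvPolynomial (Fin 5) ℂ} {ρ : Fin 5 → ℝ} (hρ : Adm F ρ)
    (v : Fin 4 → ℝ) :
    (Phi hρ v).proj = bT ρ (2 * Real.pi * v 2) (2 * Real.pi * v 3) := rfl

theorem Phi_mem {F : MvPolynomial (Fin 5) ℂ} {ρ : Fin 5 → ℝ} (hρ : Adm F ρ)
    (v : Fin 4 → ℝ) : Phi hρ v ∈ Over (UU F) := by
  show (Phi hρ v).proj ∈ UU F
  rw [Phi_proj]
  exact bT_mem_UU hρ _ _

theorem UU_isOpen (F : MvPolynomial (Fin 5) ℂ) : IsOpen (UU F) := by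
  have e : UU F = BaseSet ∩ (Good ∩ {b : Param | MvPolynomial.eval b F ≠ 0}) := by
    ext b
    simp only [UU, Set.mem_ofPred_eq, Set.mem_inter_iff]
  rw [e]
  exact base_isOpen.inter (good_isOpen.inter
    (isOpen_ne_fun (MvPolynomial.continuous_eval F) continuous_const))

end TripleBurger
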