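import Pool.Agent.helper10.K3B.ASDef

/-!
# The sheaves `Rʲ p_* ℚ` and multiplicative decompositions: definitions

For a map `p : S → B`, `cohPresheaf p j` is the presheaf `V ↦ Hʲ(p⁻¹ V; ℚ)` on `B`, and
`Rsheaf p j` is its sheafification, i.e. the sheaf `Rʲ p_* ℚ`.

Let `φ : ⨁ᵢ Rⁱp_*ℚ[-i] ≅ Rp_*ℚ` be an isomorphism in the derived category of sheaves on an open
subset `Z` of `B`, which is multiplicative.  For `V ⊆ Z` open it gives
`⨁ᵢ Hⁿ⁻ⁱ(V, Rⁱp_*ℚ) ≅ Hⁿ(p⁻¹V, ℚ)`.  Let `W V n i ⊆ Hⁿ(p⁻¹V, ℚ)` be the image of the summand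
`Hⁿ⁻ⁱ(V, Rⁱp_*ℚ)`.  The structure `MultDecomp` lists properties of these subspaces:
they are natural in `V`, `Hⁿ(p⁻¹V)` is the direct sum of the `W V n i`, `i ≤ n`; cup products of
elements of `W V m i` and `W V n j` are in `W V (m + n) (i + j)`; the edge map
`Hⁿ(p⁻¹V) → H⁰(V, Rⁿp_*ℚ)` is zero on `W V n i` for `i < n` (the complex `Rⁱp_*ℚ[-i]` has no
cohomology sheaf in degree `n`), and it is bijective on `W V n n` (it is the map induced by the
isomorphism of sheaves `𝓗ⁿ(φ)`).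
-/

namespace TripleBurger

open CategoryTheory TopologicalSpace Opposite

section
variable {S B : Type} [TopologicalSpace S] [TopologicalSpace B] (p : S → B)

/-- `Hʲ(p⁻¹ V; ℚ)` -/
abbrev HV (V : Set B) (j : ℕ) : Type := H ↥(p ⁻¹' V) j

/-- restriction `Hʲ(p⁻¹ U) → Hʲ(p⁻¹ V)` for `V ⊆ U` -/
noncomputable def resH (j : ℕ) {V U : Set B} (h : V ⊆ U) : HV p U j →ₗ[ℚ] HV p V j :=
  H.map (Set.inclusion (Set.preimage_mono h)) (continuous_inclusion _) j

omit [TopologicalSpace B] in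
theorem resH_id (j : ℕ) {V : Set B} (h : V ⊆ V) (a : HV p V j) : resH p j h a = a := by
  obtain ⟨c, rfl⟩ := Submodule.Quotient.mk_surjective _ a
  rfl

omit [TopologicalSpace B] in
theorem resH_comp (j : ℕ) {U V W : Set B} (h : V ⊆ U) (h' : W ⊆ V) (a : HV p U j) :
    resH p j (h'.trans h) a = resH p j h' (resH p j h a) := by
  obtain ⟨c, rfl⟩ := Submodule.Quotient.mk_surjective _ a
  rfl

/-- the presheaf `V ↦ Hʲ(p⁻¹ V; ℚ)` -/
noncomputable def cohPresheaf (j : ℕ) : (Opens B)ᵒᵖ ⥤ ModuleCat.{0} ℚ where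
  obj V := ModuleCat.of ℚ (HV p V.unop j)
  map f := ModuleCat.ofHom (resH p j (leOfHom f.unop))
  map_id _ := ModuleCat.hom_ext (LinearMap.ext fun a => resH_id p j (Set.Subset.refl _) a)
  map_comp f g := ModuleCat.hom_ext (LinearMap.ext fun a =>
    resH_comp p j (leOfHom f.unop) (leOfHom g.unop) a)

/-- **The sheaf `Rʲ p_* ℚ`** on `B`. -/
noncomputable def Rsheaf (j : ℕ) : Sheaf (Opens.grothendieckTopology B) (ModuleCat.{0} ℚ) :=
  (presheafToSheaf (Opens.grothendieckTopology B) (ModuleCat.{0} ℚ)).obj (cohPresheaf p j)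

/-- the sections `H⁰(U, Rʲ p_* ℚ)` -/
abbrev RSec (j : ℕ) (U : Opens B) : Type := ((Rsheaf p j).obj.obj (op U) : ModuleCat.{0} ℚ)

/-- the edge map `Hʲ(p⁻¹ U) → H⁰(U, Rʲ p_* ℚ)` -/
noncomputable def edge (j : ℕ) (U : Opens B) (a : HV p U j) : RSec p j U :=
  ((toSheafify (Opens.grothendieckTopology B) (cohPresheaf p j)).app (op U)).hom a

/-- The subspaces of the cohomology groups of open sets given by a multiplicative decomposition
isomorphism over the open set `Z`. -/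
structure MultDecomp (Z : Opens B) where
  /-- the image of `Hⁿ⁻ⁱ(V, Rⁱp_*ℚ)` in `Hⁿ(p⁻¹V, ℚ)` -/
  W : ∀ (V : Opens B) (n _ : ℕ), Set (HV p V n)
  /-- it is a linear subspace -/
  subspace : ∀ (V : Opens B) (n i : ℕ), ∃ M : Submodule ℚ (HV p V n), W V n i = M
  /-- `Hⁿ(p⁻¹V)` is the direct sum of the `W V n i`, `i ≤ n` -/
  internal : ∀ (V : Opens B), V ≤ Z → ∀ (n : ℕ) (a : HV p V n),
    ∃! f : Fin (n + 1) → HV p V n, (∀ i : Fin (n + 1), f i ∈ W V n i) ∧ ∑ i, f i = a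
  /-- compatibility with restriction -/
  res : ∀ {V U : Opens B} (h : V ≤ U), U ≤ Z → ∀ n i, ∀ a ∈ W U n i, resH p n h a ∈ W V n i
  /-- multiplicativity -/
  cup : ∀ (V : Opens B), V ≤ Z → ∀ (m n i j : ℕ), ∀ a ∈ W V m i, ∀ b ∈ W V n j,
    ∀ e : HV p V (m + n), IsCup a b e → e ∈ W V (m + n) (i + j)
  /-- the summands with `i < n` do not see the sheaf `Rⁿp_*ℚ` -/
  edge_lt : ∀ (V : Opens B), V ≤ Z → ∀ n i, i < n → ∀ a ∈ W V n i, edge p n V a = 0
  /-- the summand `i = n` is identified with `H⁰(V, Rⁿp_*ℚ)` by the edge map -/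
  edge_bij : ∀ (V : Opens B), V ≤ Z → ∀ (n : ℕ) (s : RSec p n V),
    ∃! a : HV p V n, a ∈ W V n n ∧ edge p n V a = s

/-- linear sections of the edge maps in degrees `2` and `4` over `U`, compatible with products -/
def HasSections (U : Opens B) : Prop :=
  ∃ (s2 : RSec p 2 U → HV p U 2) (s4 : RSec p 4 U → HV p U 4),
    IsLinearMap ℚ s2 ∧ IsLinearMap ℚ s4 ∧
    (∀ a, edge p 2 U (s2 a) = a) ∧ (∀ a, edge p 4 U (s4 a) = a) ∧
      ∀ a b, ∃ c, IsCup (s2 a) (s2 b) (s4 c)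

end

end TripleBurger
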