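import Pool.Agent.helper10.K3B.SheafDef
import Pool.Agent.helper10.K3B.ASCup

/-!
# The sheaves `Rʲ p_* ℚ`: basic properties
-/

namespace TripleBurger

open CategoryTheory TopologicalSpace Opposite

section
variable {S B : Type} [TopologicalSpace S] [TopologicalSpace B] (p : S → B)

/-- the edge map as a linear map -/
noncomputable def edgeL (j : ℕ) (U : Opens B) : HV p U j →ₗ[ℚ] RSec p j U :=
  ((toSheafify (Opens.grothendieckTopology B) (cohPresheaf p j)).app (op U)).hom

theorem edge_eq (j : ℕ) (U : Opens B) (a : HV p U j) : edge p j U a = edgeL p j U a := rfl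

theorem edge_sub (j : ℕ) (U : Opens B) (a b : HV p U j) :
    edge p j U (a - b) = edge p j U a - edge p j U b := map_sub (edgeL p j U) a b

/-- restriction of sections of `Rʲ p_* ℚ` -/
noncomputable def resR (j : ℕ) {V U : Opens B} (h : V ≤ U) : RSec p j U →ₗ[ℚ] RSec p j V :=
  ((Rsheaf p j).obj.map (homOfLE h).op).hom

/-- the edge map commutes with restriction -/
theorem edge_res (j : ℕ) {V U : Opens B} (h : V ≤ U) (a : HV p U j) :
    edge p j V (resH p j h a) = resR p j h (edge p j U a) :=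
  congrArg (fun f => f.hom a)
    ((toSheafify (Opens.grothendieckTopology B) (cohPresheaf p j)).naturality (homOfLE h).op)

/-- a section of `Rʲ p_* ℚ` which is zero locally is zero -/
theorem R_eq_zero_of_locally (j : ℕ) (U : Opens B) (a : RSec p j U)
    (h : ∀ b ∈ U, ∃ (V : Opens B) (hV : V ≤ U), b ∈ V ∧ resR p j hV a = 0) : a = 0 := by
  choose V hV hbV h0 using h
  refine TopCat.Sheaf.eq_of_locally_eq' (X := TopCat.of B) (Rsheaf p j)
    (fun b : U => V b.1 b.2) U (fun b => homOfLE (hV b.1 b.2)) ?_ _ _ ?_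
  · intro b hb
    exact Opens.mem_iSup.2 ⟨⟨b, hb⟩, hbV b hb⟩
  · rintro ⟨b, hb⟩
    rw [map_zero]
    exact h0 b hb

/-- every section of `Rʲ p_* ℚ` is locally in the image of the edge map -/
theorem exists_edge_locally (j : ℕ) (U : Opens B) (a : RSec p j U) (b : B) (hb : b ∈ U) :
    ∃ (V : Opens B) (hV : V ≤ U), b ∈ V ∧ ∃ c, edge p j V c = resR p j hV a := by
  have h1 := Presheaf.imageSieve_mem (Opens.grothendieckTopology B)
    (toSheafify (Opens.grothendieckTopology B) (cohPresheaf p j)) (U := op U) a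
  obtain ⟨V, f, hf, hbV⟩ := h1 b hb
  obtain ⟨c, hc⟩ := hf
  exact ⟨V, leOfHom f, hbV, c, hc⟩

theorem edge_eq_zero_iff (j : ℕ) (U : Opens B) (a : HV p U j) :
    edge p j U a = 0 ↔ ∀ b ∈ U, ∃ (V : Opens B) (hV : V ≤ U), b ∈ V ∧ resH p j hV a = 0 := by
  constructor
  · intro h b hb
    have h1 := Presheaf.equalizerSieve_mem (Opens.grothendieckTopology B)
      (toSheafify (Opens.grothendieckTopology B) (cohPresheaf p j)) (X := op U) a 0 (by
        rw [map_zero]; exact h)
    obtain ⟨V, f, hf, hbV⟩ := h1 b hb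
    refine ⟨V, leOfHom f, hbV, ?_⟩
    have h2 : (cohPresheaf p j).map f.op a = (cohPresheaf p j).map f.op 0 := hf
    rw [map_zero] at h2
    exact h2
  · intro h
    refine R_eq_zero_of_locally p j U _ fun b hb => ?_
    obtain ⟨V, hV, hbV, h0⟩ := h b hb
    exact ⟨V, hV, hbV, by rw [← edge_res, h0, edge_eq, map_zero]⟩

end

end TripleBurger
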