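import Pool.Agent.helper10.K3B.Lift

/-!
# The explicit torus in the total space: definitions

`Phi v`, `v ∈ ℝ⁴`: `v 0, v 1` are the coordinates of a torus mapping to `E₂`, `v 2` turns `s`,
`v 3` turns `t`.
-/

namespace TripleBurger

open Complex K3B

/-- `(cos α + cos β)/2 + i (cos α - cos β)/2` -/
noncomputable def zz (α β : ℝ) : ℂ :=
  (((Real.cos α + Real.cos β) / 2 : ℝ) : ℂ) + (((Real.cos α - Real.cos β) / 2 : ℝ) : ℂ) * I

/-- `sin α sin β` -/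
noncomputable def rr (α β : ℝ) : ℝ := Real.sin α * Real.sin β

/-- `√(|zz|² + rr²)` -/
noncomputable def rho (α β : ℝ) : ℝ := Real.sqrt (‖zz α β‖ ^ 2 + rr α β ^ 2)

open Classical in
/-- the sign of the sheet -/
noncomputable def tau (α β : ℝ) : ℂ :=
  if 0 < Real.sin β then 1 else if Real.sin β < 0 then -1 else
    if 0 < Real.sin α then -1 else 1

open Classical in
/-- `W`-coordinate -/
noncomputable def e3W (α β : ℝ) : ℂ :=
  if rr α β ≤ 0 then ((rho α β - rr α β : ℝ) : ℂ) else (starRingEnd ℂ) (zz α β)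

open Classical in
/-- `X`-coordinate -/
noncomputable def e3X (α β : ℝ) : ℂ :=
  if rr α β ≤ 0 then zz α β else ((rho α β + rr α β : ℝ) : ℂ)

open Classical in
/-- `Y`-coordinate -/
noncomputable def e3Y (α β : ℝ) : ℂ :=
  if rr α β ≤ 0 then tau α β * I * csqrt (e3W α β ^ 4 - e3X α β ^ 4)
  else tau α β * csqrt (e3X α β ^ 4 - e3W α β ^ 4)

/-- The conditions for a point over `x₀ = x₁ = 0`. -/
def SecOK (b : Param) (y0 y1 W X Y : ℂ) : Prop :=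
  b ∈ BaseSet ∧ y0 ^ 2 = quartic b 0 1 0 ∧ y1 ^ 2 = quartic b 1 1 0 ∧ (W ≠ 0 ∨ X ≠ 0) ∧
    Y ^ 2 = X ^ 4 - W ^ 4

theorem quartic_two (b : Param) (W X : ℂ) : quartic b 2 W X = X ^ 4 - W ^ 4 := by
  unfold quartic
  rw [Fin.prod_univ_four]
  simp only [root, Matrix.cons_val_zero, Matrix.cons_val_one, Matrix.cons_val]
  have hI : I ^ 2 = -1 := I_sq
  linear_combination (-(W ^ 2 * X ^ 2) + W ^ 4) * hI

/-- The point with `x₀ = x₁ = 0`, `y₀, y₁` given, and third component `[W : X : Y]`. -/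
def secCone (b : Param) (y0 y1 W X Y : ℂ) (h : SecOK b y0 y1 W X Y) : Cone :=
  ⟨(b, ![1, 1, W], ![0, 0, X], ![y0, y1, Y]), h.1, by
      intro i; fin_cases i
      · left; simp
      · left; simp
      · simpa using h.2.2.2.1, by
      intro i; fin_cases i
      · simpa using h.2.1
      · simpa using h.2.2.1
      · have := h.2.2.2.2
        rw [← quartic_two b] at this
        simpa using this, by simp⟩

/-- The parameters on the torus. -/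
noncomputable def bT (ρ : Fin 5 → ℝ) (θ₁ θ₂ : ℝ) : Param :=
  ![(ρ 0 : ℂ) * exp (θ₁ * I), (ρ 1 : ℂ), (ρ 2 : ℂ) * exp (θ₂ * I), (ρ 3 : ℂ), (ρ 4 : ℂ)]

/-- `y₀` over `x₀ = 0`: `i s √(1 - e/s)` -/
noncomputable def y0T (b : Param) : ℂ := I * b 0 * csqrt (1 - b 1 / b 0)

/-- `y₁` over `x₁ = 0`: `i t √(1 - u/t)` -/
noncomputable def y1T (b : Param) : ℂ := I * b 2 * csqrt (1 - b 3 / b 2)

/-- Admissible radii for the polynomial `F`. -/
structure Adm (F : MvPolynomial (Fin 5) ℂ) (ρ : Fin 5 → ℝ) : Prop where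
  pos : ∀ i, 0 < ρ i
  h0 : ρ 0 < 1 / 4
  h1 : ρ 1 < ρ 0 / 4
  h2 : ρ 2 < 1 / 4
  h3 : ρ 3 < ρ 2 / 4
  h4 : ρ 4 < ρ 1 / 200
  h4' : ρ 4 < ρ 0 / 200
  mem : ∀ z : Param, (∀ i, ‖z i‖ = ρ i) → z ∈ BaseSet ∧ MvPolynomial.eval z F ≠ 0

theorem tau_sq (α β : ℝ) : tau α β ^ 2 = 1 := by
  unfold tau
  split_ifs <;> norm_num

theorem rho_nonneg (α β : ℝ) : 0 ≤ rho α β := Real.sqrt_nonneg _

theorem rho_sq (α β : ℝ) : rho α β ^ 2 = ‖zz α β‖ ^ 2 + rr α β ^ 2 :=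
  Real.sq_sqrt (by positivity)

theorem zz_re (α β : ℝ) : (zz α β).re = (Real.cos α + Real.cos β) / 2 := by
  unfold zz
  rw [add_re, re_ofReal_mul, ofReal_re, I_re, mul_zero, add_zero]

theorem zz_im (α β : ℝ) : (zz α β).im = (Real.cos α - Real.cos β) / 2 := by
  unfold zz
  rw [add_im, im_ofReal_mul, ofReal_im, I_im, mul_one, zero_add]

theorem rho_pos (α β : ℝ) : 0 < rho α β := by
  rcases (rho_nonneg α β).lt_or_eq with h | h
  · exact h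
  · exfalso
    have h1 := rho_sq α β
    rw [← h] at h1
    have h2 : ‖zz α β‖ ^ 2 = 0 := by nlinarith [sq_nonneg ‖zz α β‖, sq_nonneg (rr α β)]
    have h3 : rr α β ^ 2 = 0 := by nlinarith [sq_nonneg ‖zz α β‖, sq_nonneg (rr α β)]
    have h4 : zz α β = 0 := norm_eq_zero.1 (pow_eq_zero_iff two_ne_zero |>.1 h2)
    have h5 : rr α β = 0 := pow_eq_zero_iff two_ne_zero |>.1 h3
    have h6 := zz_re α β
    have h7 := zz_im α β
    rw [h4, zero_re] at h6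
    rw [h4, zero_im] at h7
    have h8 : Real.cos α = 0 := by linarith
    have h9 : Real.cos β = 0 := by linarith
    have k1 := Real.sin_sq_add_cos_sq α
    have k2 := Real.sin_sq_add_cos_sq β
    rw [h8] at k1
    rw [h9] at k2
    unfold rr at h5
    have k3 : (Real.sin α * Real.sin β) ^ 2 = 1 := by
      rw [mul_pow]
      nlinarith
    rw [h5] at k3
    norm_num at k3

theorem e3_ne (α β : ℝ) : e3W α β ≠ 0 ∨ e3X α β ≠ 0 := by
  have h := rho_pos α β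
  unfold e3W e3X
  by_cases hr : rr α β ≤ 0
  · left
    rw [if_pos hr, Complex.ofReal_ne_zero]
    linarith
  · right
    rw [if_neg hr, Complex.ofReal_ne_zero]
    linarith

theorem e3_sq (α β : ℝ) : e3Y α β ^ 2 = e3X α β ^ 4 - e3W α β ^ 4 := by
  have h := tau_sq α β
  unfold e3Y
  by_cases hr : rr α β ≤ 0
  · rw [if_pos hr, mul_pow, mul_pow, h, I_sq, csqrt_sq_aux]
    ring
  · rw [if_neg hr, mul_pow, h, csqrt_sq_aux]
    ring

theorem bT_zero (ρ : Fin 5 → ℝ) (θ₁ θ₂ : ℝ) : bT ρ θ₁ θ₂ 0 = (ρ 0 : ℂ) * exp (θ₁ * I) := rfl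
theorem bT_one (ρ : Fin 5 → ℝ) (θ₁ θ₂ : ℝ) : bT ρ θ₁ θ₂ 1 = (ρ 1 : ℂ) := rfl
theorem bT_two (ρ : Fin 5 → ℝ) (θ₁ θ₂ : ℝ) : bT ρ θ₁ θ₂ 2 = (ρ 2 : ℂ) * exp (θ₂ * I) := rfl
theorem bT_three (ρ : Fin 5 → ℝ) (θ₁ θ₂ : ℝ) : bT ρ θ₁ θ₂ 3 = (ρ 3 : ℂ) := rfl
theorem bT_four (ρ : Fin 5 → ℝ) (θ₁ θ₂ : ℝ) : bT ρ θ₁ θ₂ 4 = (ρ 4 : ℂ) := rfl

theorem bT_norm_of_pos {ρ : Fin 5 → ℝ} (hρ : ∀ i, 0 < ρ i) (θ₁ θ₂ : ℝ)
    (i : Fin 5) : ‖bT ρ θ₁ θ₂ i‖ = ρ i := by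
  have h (j : Fin 5) : ‖(ρ j : ℂ)‖ = ρ j := by
    rw [Complex.norm_real, Real.norm_eq_abs, abs_of_pos (hρ j)]
  fin_cases i
  · show ‖bT ρ θ₁ θ₂ 0‖ = ρ 0
    rw [bT_zero, norm_mul, h, norm_exp_ofReal_mul_I, mul_one]
  · exact h 1
  · show ‖bT ρ θ₁ θ₂ 2‖ = ρ 2
    rw [bT_two, norm_mul, h, norm_exp_ofReal_mul_I, mul_one]
  · exact h 3
  · exact h 4

/-- everything needed for `Phi` to be defined at one point -/
theorem phi_ok {F : MvPolynomial (Fin 5) ℂ} {ρ : Fin 5 → ℝ} (hρ : Adm F ρ) (θ₁ θ₂ α β : ℝ) :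
    SecOK (bT ρ θ₁ θ₂) (y0T (bT ρ θ₁ θ₂)) (y1T (bT ρ θ₁ θ₂)) (e3W α β) (e3X α β) (e3Y α β) := by
  have hn := bT_norm_of_pos hρ.pos θ₁ θ₂
  have hne (i : Fin 5) : bT ρ θ₁ θ₂ i ≠ 0 := norm_pos_iff.1 (by rw [hn i]; exact hρ.pos i)
  refine ⟨(hρ.mem _ hn).1, ?_, ?_, e3_ne α β, e3_sq α β⟩
  · have h0 := hne 0
    unfold y0T
    rw [mul_pow, mul_pow, I_sq, csqrt_sq_aux]
    unfold quartic
    rw [Fin.prod_univ_four]
    simp only [root, Matrix.cons_val_zero, Matrix.cons_val_one, Matrix.cons_val]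
    field_simp
    ring
  · have h0 := hne 2
    unfold y1T
    rw [mul_pow, mul_pow, I_sq, csqrt_sq_aux]
    unfold quartic
    rw [Fin.prod_univ_four]
    simp only [root, Matrix.cons_val_zero, Matrix.cons_val_one, Matrix.cons_val]
    field_simp
    ring

/-- **The 4-torus** in the total space. -/
noncomputable def Phi {F : MvPolynomial (Fin 5) ℂ} {ρ : Fin 5 → ℝ} (hρ : Adm F ρ)
    (v : Fin 4 → ℝ) : Total :=
  Total.mk (secCone _ _ _ _ _ _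
    (phi_ok hρ (2 * Real.pi * v 2) (2 * Real.pi * v 3) (2 * Real.pi * v 0) (2 * Real.pi * v 1)))

/-- The open set of parameters for the polynomial `F`. -/
def UU (F : MvPolynomial (Fin 5) ℂ) : Set Param :=
  {b | b ∈ BaseSet ∧ b ∈ Good ∧ MvPolynomial.eval b F ≠ 0}

end TripleBurger
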