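import Pool.Agent.helper10.K3B.Rad

/-!
# K3B: the one-dimensional functions on the torus
-/

namespace TripleBurger

open Complex K3B

/-- sheet sign `eps2` on the torus of `E₂` -/
noncomputable def ep2 (α β : ℝ) : ℚ := sheet 1 (-I) I (-1) (e3W α β) (e3X α β) (e3Y α β)
/-- sheet sign `eps2'` on the torus of `E₂` -/
noncomputable def ep2' (α β : ℝ) : ℚ := sheet 1 I (-1) (-I) (e3W α β) (e3X α β) (e3Y α β)
/-- region `Reg2` on the torus of `E₂` -/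
noncomputable def in2 (α β : ℝ) : ℚ :=
  ind (e3W α β ≠ 0 ∧ ‖e3X α β / e3W α β - (1 - I)‖ < 5 / 4)
/-- region `Reg2'` on the torus of `E₂` -/
noncomputable def in2' (α β : ℝ) : ℚ :=
  ind (e3W α β ≠ 0 ∧ ‖e3X α β / e3W α β - (1 + I)‖ < 5 / 4)
/-- sheet sign `eps0` over `x₀ = 0` -/
noncomputable def ep0 (b : Param) : ℚ := sheet 1 (b 0) (-1) (b 0 - b 1) 1 0 (y0T b)
/-- sheet sign `eps1` over `x₁ = 0` -/
noncomputable def ep1 (b : Param) : ℚ := sheet 1 (b 2) (-1) (b 2 - b 3) 1 0 (y1T b)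
/-- region `Reg0 lam` over `x₀ = 0` -/
noncomputable def in0 (lam : ℝ) (b : Param) : ℚ := ind ((b 0).re - lam * (b 1).re < 0)
/-- region `Reg1` over `x₁ = 0` -/
noncomputable def in1 (b : Param) : ℚ := ind ((b 2).re - (1 / 2) * (b 3).re < 0)

section
variable {F : MvPolynomial (Fin 5) ℂ} {ρ : Fin 5 → ℝ} (hρ : Adm F ρ) (v : Fin 4 → ℝ)

/-- parameter of the point `Phi v` -/
noncomputable abbrev bv (ρ : Fin 5 → ℝ) (v : Fin 4 → ℝ) : Param :=
  bT ρ (2 * Real.pi * v 2) (2 * Real.pi * v 3)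

theorem E02_Phi : E02 (Phi hρ v)
    = ep0 (bv ρ v) * ep2 (2 * Real.pi * v 0) (2 * Real.pi * v 1) := rfl

theorem E12_Phi : E12 (Phi hρ v)
    = ep1 (bv ρ v) * ep2' (2 * Real.pi * v 0) (2 * Real.pi * v 1) := rfl

theorem I0_Phi (lam : ℝ) : I0 lam (Phi hρ v) = in0 lam (bv ρ v) := by
  have h : ∀ b : Param, (((1 : ℂ) ≠ 0 ∧ (b 0).re - lam * (b 1).re < ((0 : ℂ) / 1).re)
      ↔ ((b 0).re - lam * (b 1).re < 0)) := by
    intro b; simp
  unfold Phi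
  rw [I0_mk]
  unfold in0
  congr 1
  exact propext (h _)

theorem I1_Phi : I1 (Phi hρ v) = in1 (bv ρ v) := by
  have h : ∀ b : Param, (((1 : ℂ) ≠ 0 ∧ (b 2).re - (1 / 2) * (b 3).re < ((0 : ℂ) / 1).re ∧
      ‖(0 : ℂ) / 1‖ < 2) ↔ ((b 2).re - (1 / 2) * (b 3).re < 0)) := by
    intro b; simp
  unfold Phi
  rw [I1_mk]
  unfold in1
  congr 1
  exact propext (h _)

theorem I2_Phi : I2 (Phi hρ v) = in2 (2 * Real.pi * v 0) (2 * Real.pi * v 1) := rfl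

theorem J2_Phi : J2 (Phi hρ v) = in2' (2 * Real.pi * v 0) (2 * Real.pi * v 1) := rfl

end

end TripleBurger
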